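import Pool.Agent.N983.GT.Phys

/-!
From the truncated Euler equations to the mode system.
-/

open MeasureTheory Set Filter Topology
open scoped ContDiff ComplexConjugate

namespace Pool.Agent.N983.GT

variable {M : ℕ} {T : ℝ} {u : ℝ → Vec → Vec} {p : ℝ → Vec → ℝ}

/-- The horizontal modes of a function. -/
noncomputable def wm (M : ℕ) (g : ℝ → Vec → ℝ) (k : Z2) (t z : ℝ) : ℂ :=
  open Classical in if k ∈ box M then dco M k (fun x => (g t x : ℂ)) z else 0

theorem trunc_repr {g : Vec → ℝ} (h : ∀ x, trunc M g x = g x) (x : Vec) :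
    ((g x : ℝ) : ℂ) = ∑ q ∈ box M, EE q (x 0) (x 1) * coef q g (x 2) := by
  rw [← h x]
  unfold trunc EE
  exact Finset.sum_congr rfl fun q _ => mul_comm _ _

theorem coef_eq_dco {g : Vec → ℝ} (h : ∀ x, trunc M g x = g x) {k : Z2} (hk : k ∈ box M) (z : ℝ) :
    dco M k (fun x => (g x : ℂ)) z = coef k g z :=
  dco_eq (c := fun q => coef q g) (fun x => trunc_repr h x) hk z

/-- Representation of a truncated function. -/
theorem repr {g : ℝ → Vec → ℝ} {t : ℝ} (h : ∀ x, trunc M (g t) x = g t x) (x : Vec) :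
    ((g t x : ℝ) : ℂ) = ∑ q ∈ box M, EE q (x 0) (x 1) * wm M g q t (x 2) := by
  rw [trunc_repr h x]
  refine Finset.sum_congr rfl fun q hq => ?_
  unfold wm
  rw [if_pos hq, coef_eq_dco h hq]

theorem wm_c1 {g : ℝ → Vec → ℝ}
    (hg : ContDiffOn ℝ 1 (fun s : ℝ × Vec => g s.1 s.2) (Ico 0 T ×ˢ univ)) (k : Z2) :
    C1 T (wm M g k) := by
  unfold wm
  by_cases hk : k ∈ box M
  · simp only [if_pos hk]
    unfold C1 dco
    refine contDiffOn_const.mul (ContDiffOn.sum fun a _ => ContDiffOn.sum fun b _ =>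
      contDiffOn_const.mul ?_)
    have h1 : ContDiffOn ℝ 1 (fun s : ℝ × ℝ => g s.1
        ![2 * Real.pi * a / (2 * M + 1 : ℕ), 2 * Real.pi * b / (2 * M + 1 : ℕ), s.2]) (Dom T) := by
      refine hg.comp (f := fun s : ℝ × ℝ => ((s.1, ![2 * Real.pi * a / (2 * M + 1 : ℕ),
        2 * Real.pi * b / (2 * M + 1 : ℕ), s.2]) : ℝ × Vec)) ?_ (fun s hs => ⟨hs.1, mem_univ _⟩)
      refine ContDiff.contDiffOn (contDiff_fst.prodMk (contDiff_pi.2 fun i => ?_))
      fin_cases i
      · exact contDiff_const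
      · exact contDiff_const
      · exact contDiff_snd
    exact Complex.ofRealCLM.contDiff.comp_contDiffOn h1
  · simp only [if_neg hk]
    exact contDiffOn_const

theorem vec_per (a b z : ℝ) : (![a, b, z + 2 * Real.pi] : Vec)
    = ![a, b, z] + Pi.single 2 (2 * Real.pi) := by
  funext i
  fin_cases i <;> simp

theorem wm_per {g : ℝ → Vec → ℝ} {t : ℝ} (h : ∀ x j, g t (x + Pi.single j (2 * Real.pi)) = g t x)
    (k : Z2) (z : ℝ) : wm M g k t (z + 2 * Real.pi) = wm M g k t z := by
  unfold wm dco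
  simp only [vec_per, h]

theorem EE_conj (k : Z2) (a b : ℝ) : conj (EE k a b) = EE (-k) a b := by
  unfold EE
  rw [← Complex.exp_conj]
  congr 1
  simp only [map_mul, map_add, Complex.conj_I, map_intCast, Complex.conj_ofReal, Prod.fst_neg,
    Prod.snd_neg]
  push_cast
  ring

theorem wm_real (g : ℝ → Vec → ℝ) (k : Z2) (t z : ℝ) : wm M g (-k) t z = conj (wm M g k t z) := by
  unfold wm
  by_cases hk : k ∈ box M
  · rw [if_pos hk, if_pos (box_symm k hk)]
    unfold dco
    rw [map_mul, map_sum]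
    congr 1
    · rw [map_div₀, map_one, map_pow, map_natCast]
    · refine Finset.sum_congr rfl fun a _ => ?_
      rw [map_sum]
      refine Finset.sum_congr rfl fun b _ => ?_
      rw [map_mul, Complex.conj_ofReal]
      congr 1
      have : (2 * Real.pi * a / (2 * M + 1 : ℕ) : ℂ) = ((2 * Real.pi * a / (2 * M + 1 : ℕ) : ℝ) : ℂ) := by
        push_cast; ring
      exact (EE_conj _ _ _).symm
  · rw [if_neg hk, if_neg (fun h => hk (by simpa using box_symm _ h)), map_zero]

/-- If a sum of characters vanishes, so do the coefficients. -/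
theorem coef_zero {c : Z2 → ℝ → ℂ}
    (h : ∀ x : Vec, ∑ q ∈ box M, EE q (x 0) (x 1) * c q (x 2) = 0) {k : Z2} (hk : k ∈ box M) (z : ℝ) :
    c k z = 0 := by
  have h1 := dco_eq (M := M) (g := fun _ => 0) (c := c) (fun x => (h x).symm) hk z
  rw [← h1]
  unfold dco
  simp

/-- Directional derivatives along the coordinate lines. -/
theorem hasDerivAt_upd {g : Vec → ℝ} {x : Vec} (hg : DifferentiableAt ℝ g x) (j : Fin 3) :
    HasDerivAt (fun s => g (Function.update x j s)) (dx j g x) (x j) := by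
  have h1 : HasDerivAt (fun s => Function.update x j s) (Pi.single j 1) (x j) := by
    rw [hasDerivAt_pi]
    intro i
    by_cases hij : i = j
    · subst hij
      simp only [Function.update_self, Pi.single_eq_same]
      exact hasDerivAt_id (x i)
    · simp only [Function.update_of_ne hij, Pi.single_eq_of_ne hij]
      exact hasDerivAt_const _ _
  have h2 : HasFDerivAt g (fderiv ℝ g x) (Function.update x j (x j)) := by
    rw [Function.update_eq_self]
    exact hg.hasFDerivAt
  exact h2.comp_hasDerivAt (x j) h1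

theorem dxc {g : Vec → ℝ} {x : Vec} (hg : DifferentiableAt ℝ g x) (j : Fin 3) {c : Z2 → ℝ → ℂ}
    (hc : ∀ x : Vec, ((g x : ℝ) : ℂ) = ∑ q ∈ box M, EE q (x 0) (x 1) * c q (x 2)) {d : ℂ}
    (hd : HasDerivAt (fun s => ∑ q ∈ box M, EE q (Function.update x j s 0)
      (Function.update x j s 1) * c q (Function.update x j s 2)) d (x j)) :
    ((dx j g x : ℝ) : ℂ) = d := by
  have h1 := (hasDerivAt_upd hg j).ofReal_comp
  have h2 : (fun s => ((g (Function.update x j s) : ℝ) : ℂ))
      = fun s => ∑ q ∈ box M, EE q (Function.update x j s 0)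
      (Function.update x j s 1) * c q (Function.update x j s 2) := by
    funext s
    exact hc _
  rw [h2] at h1
  exact h1.unique hd

/-- The derivative of the modes. -/
noncomputable def dmode (c : Z2 → ℝ → ℂ) (j : Fin 3) (q : Z2) (z : ℝ) : ℂ :=
  ![Complex.I * q.1 * c q z, Complex.I * q.2 * c q z, deriv (c q) z] j

theorem hasDerivAt_EE1 (q : Z2) (a b : ℝ) :
    HasDerivAt (fun s : ℝ => EE q s b) (EE q a b * (Complex.I * q.1)) a := by
  unfold EE
  have h1 : HasDerivAt (fun s : ℝ => Complex.I * (q.1 * (s : ℂ) + q.2 * (b : ℂ)))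
      (Complex.I * (q.1 * 1)) a :=
    (((Complex.ofRealCLM.hasDerivAt (x := a)).const_mul (q.1 : ℂ)).add_const
      (q.2 * (b : ℂ))).const_mul Complex.I
  refine h1.cexp.congr_deriv ?_
  rw [mul_one]

theorem hasDerivAt_EE2 (q : Z2) (a b : ℝ) :
    HasDerivAt (fun s : ℝ => EE q a s) (EE q a b * (Complex.I * q.2)) b := by
  unfold EE
  have h1 : HasDerivAt (fun s : ℝ => Complex.I * (q.1 * (a : ℂ) + q.2 * (s : ℂ)))
      (Complex.I * (q.2 * 1)) b :=
    (((Complex.ofRealCLM.hasDerivAt (x := b)).const_mul (q.2 : ℂ)).const_add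
      (q.1 * (a : ℂ))).const_mul Complex.I
  refine h1.cexp.congr_deriv ?_
  rw [mul_one]

theorem dx_modes {g : Vec → ℝ} {x : Vec} (hg : DifferentiableAt ℝ g x) {c : Z2 → ℝ → ℂ}
    (hc : ∀ x : Vec, ((g x : ℝ) : ℂ) = ∑ q ∈ box M, EE q (x 0) (x 1) * c q (x 2))
    (hcd : ∀ q z, HasDerivAt (c q) (deriv (c q) z) z) (j : Fin 3) :
    ((dx j g x : ℝ) : ℂ) = ∑ q ∈ box M, EE q (x 0) (x 1) * dmode c j q (x 2) := by
  refine dxc hg j hc ?_
  refine HasDerivAt.fun_sum fun q _ => ?_
  fin_cases j
  · have e1 : ∀ s, Function.update x (0 : Fin 3) s 0 = s := fun s => by simp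
    have e2 : ∀ s, Function.update x (0 : Fin 3) s 1 = x 1 := fun s => by simp
    have e3 : ∀ s, Function.update x (0 : Fin 3) s 2 = x 2 := fun s => by simp
    simp only [Fin.zero_eta, e1, e2, e3]
    refine ((hasDerivAt_EE1 q (x 0) (x 1)).mul_const (c q (x 2))).congr_deriv ?_
    unfold dmode
    simp only [Matrix.cons_val_zero]
    ring
  · have e1 : ∀ s, Function.update x (1 : Fin 3) s 0 = x 0 := fun s => by simp
    have e2 : ∀ s, Function.update x (1 : Fin 3) s 1 = s := fun s => by simp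
    have e3 : ∀ s, Function.update x (1 : Fin 3) s 2 = x 2 := fun s => by simp
    simp only [Fin.mk_one, e1, e2, e3]
    refine ((hasDerivAt_EE2 q (x 0) (x 1)).mul_const (c q (x 2))).congr_deriv ?_
    unfold dmode
    simp only [Matrix.cons_val_one, Matrix.cons_val_zero]
    ring
  · have e1 : ∀ s, Function.update x (2 : Fin 3) s 0 = x 0 := fun s => by simp
    have e2 : ∀ s, Function.update x (2 : Fin 3) s 1 = x 1 := fun s => by simp
    have e3 : ∀ s, Function.update x (2 : Fin 3) s 2 = s := fun s => by simp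
    simp only [Fin.reduceFinMk, e1, e2, e3]
    refine ((hcd q (x 2)).const_mul (EE q (x 0) (x 1))).congr_deriv ?_
    unfold dmode
    simp only [Matrix.cons_val]

/-- Integral of a character. -/
theorem int_char (m : ℤ) : ∫ a in (-Real.pi)..Real.pi, Complex.exp (Complex.I * (m * a))
    = if m = 0 then (2 * Real.pi : ℂ) else 0 := by
  by_cases h0 : m = 0
  · simp [h0]; ring
  · rw [if_neg h0]
    have hm : (m : ℂ) ≠ 0 := by exact_mod_cast h0
    have hne : Complex.I * (m : ℂ) ≠ 0 := mul_ne_zero Complex.I_ne_zero hm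
    have h1 : ∀ a : ℝ, Complex.exp (Complex.I * (m * a)) = Complex.exp ((Complex.I * m) * a) := by
      intro a; congr 1; ring
    simp_rw [h1]
    rw [integral_exp_mul_complex hne]
    have h2 : Complex.exp ((Complex.I * m) * (Real.pi : ℝ))
        = Complex.exp ((Complex.I * m) * ((-Real.pi : ℝ) : ℂ)) := by
      rw [Complex.exp_eq_exp_iff_exists_int]
      refine ⟨m, ?_⟩
      push_cast
      ring
    rw [h2, sub_self, zero_div]

theorem int_double (s : Finset Z2) (C : Z2 → Z2 → ℂ) (n : Z2 → Z2 → ℤ) :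
    ∫ b in (-Real.pi)..Real.pi, ∑ r ∈ s, ∑ q ∈ s, C r q * Complex.exp (Complex.I * (n r q * b))
      = ∑ r ∈ s, ∑ q ∈ s, C r q * (if n r q = 0 then (2 * Real.pi : ℂ) else 0) := by
  rw [intervalIntegral.integral_finsetSum fun r _ =>
    (by fun_prop : Continuous _).intervalIntegrable _ _]
  refine Finset.sum_congr rfl fun r _ => ?_
  rw [intervalIntegral.integral_finsetSum fun q _ =>
    (by fun_prop : Continuous _).intervalIntegrable _ _]
  refine Finset.sum_congr rfl fun q _ => ?_
  rw [intervalIntegral.integral_const_mul, int_char]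

/-- The Fourier coefficients of a finite double sum of characters. -/
theorem coef_sum {g : Vec → ℝ} {H : Z2 → Z2 → ℝ → ℂ}
    (hg : ∀ x : Vec, ((g x : ℝ) : ℂ) = ∑ r ∈ box M, ∑ q ∈ box M, EE (r + q) (x 0) (x 1)
      * H r q (x 2)) (k : Z2) (z : ℝ) :
    coef k g z = ∑ r ∈ box M, ∑ q ∈ box M, if r + q = k then H r q z else 0 := by
  unfold coef
  have h1 : ∀ a b : ℝ, Complex.exp (-Complex.I * (k.1 * a + k.2 * b)) * ((g ![a, b, z] : ℝ) : ℂ)
      = ∑ r ∈ box M, ∑ q ∈ box M, (H r q z * Complex.exp (Complex.I * (((r + q).1 - k.1 : ℤ) * a)))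
        * Complex.exp (Complex.I * (((r + q).2 - k.2 : ℤ) * b)) := by
    intro a b
    rw [hg, Finset.mul_sum]
    refine Finset.sum_congr rfl fun r _ => ?_
    rw [Finset.mul_sum]
    refine Finset.sum_congr rfl fun q _ => ?_
    simp only [Matrix.cons_val_zero, Matrix.cons_val_one, Matrix.cons_val]
    unfold EE
    rw [← mul_assoc, ← Complex.exp_add, mul_assoc, ← Complex.exp_add, mul_comm]
    congr 2
    push_cast
    ring
  simp_rw [h1]
  have h2 : ∀ a : ℝ, (∫ b in (-Real.pi)..Real.pi, ∑ r ∈ box M, ∑ q ∈ box M, (H r q z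
      * Complex.exp (Complex.I * (((r + q).1 - k.1 : ℤ) * a)))
        * Complex.exp (Complex.I * (((r + q).2 - k.2 : ℤ) * b)))
      = ∑ r ∈ box M, ∑ q ∈ box M, (H r q z * (if (r + q).2 - k.2 = 0 then (2 * Real.pi : ℂ) else 0))
        * Complex.exp (Complex.I * (((r + q).1 - k.1 : ℤ) * a)) := by
    intro a
    rw [int_double (box M) (fun r q => H r q z
      * Complex.exp (Complex.I * (((r + q).1 - k.1 : ℤ) * a))) (fun r q => (r + q).2 - k.2)]
    refine Finset.sum_congr rfl fun r _ => Finset.sum_congr rfl fun q _ => ?_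
    ring
  simp_rw [h2]
  rw [int_double (box M) (fun r q => H r q z * (if (r + q).2 - k.2 = 0 then (2 * Real.pi : ℂ)
    else 0)) (fun r q => (r + q).1 - k.1), Finset.mul_sum]
  refine Finset.sum_congr rfl fun r _ => ?_
  rw [Finset.mul_sum]
  refine Finset.sum_congr rfl fun q _ => ?_
  have hpi : (Real.pi : ℂ) ≠ 0 := by exact_mod_cast Real.pi_ne_zero
  by_cases hk : r + q = k
  · rw [if_pos hk, hk, sub_self, sub_self, if_pos rfl]
    field_simp
  · rw [if_neg hk]
    by_cases e1 : (r + q).1 - k.1 = 0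
    · have e2 : (r + q).2 - k.2 ≠ 0 := by
        intro e2
        apply hk
        ext
        · omega
        · omega
      rw [if_neg e2]
      ring
    · rw [if_neg e1]
      ring

end Pool.Agent.N983.GT
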