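import Pool.Agent.N983.GT.Bridge

/-!
From the truncated Euler equations to the mode system, second part.
-/

open MeasureTheory Set Filter Topology
open scoped ContDiff ComplexConjugate

namespace Pool.Agent.N983.GT

variable {M : ℕ} {T : ℝ} {u : ℝ → Vec → Vec} {p : ℝ → Vec → ℝ}

theorem slice_diff {g : ℝ → Vec → ℝ}
    (hg : ContDiffOn ℝ 1 (fun s : ℝ × Vec => g s.1 s.2) (Ico 0 T ×ˢ univ)) {t : ℝ}
    (ht : t ∈ Ico 0 T) (x : Vec) : DifferentiableAt ℝ (g t) x := by
  have : ContDiff ℝ 1 (g t) := by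
    rw [← contDiffOn_univ]
    exact hg.comp (contDiff_const.prodMk contDiff_id).contDiffOn (fun x _ => ⟨ht, mem_univ _⟩)
  exact (this.differentiable one_ne_zero) x

theorem hasDerivAt_slice {F : ℝ → Vec → ℝ} {t : ℝ} {x : Vec}
    (h1 : DifferentiableAt ℝ (fun z : ℝ × Vec => F z.1 z.2) (t, x)) :
    HasDerivAt (fun s => F s x) (fderiv ℝ (fun z : ℝ × Vec => F z.1 z.2) (t, x) (1, 0)) t := by
  have h2 : HasDerivAt (fun s : ℝ => ((s, x) : ℝ × Vec)) (1, 0) t :=
    (hasDerivAt_id t).prodMk (hasDerivAt_const t x)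
  exact h1.hasFDerivAt.comp_hasDerivAt t h2

theorem dt_modes {g : ℝ → Vec → ℝ}
    (hg : ContDiffOn ℝ 1 (fun s : ℝ × Vec => g s.1 s.2) (Ico 0 T ×ˢ univ))
    (hr : ∀ t ∈ Ico 0 T, ∀ x, trunc M (g t) x = g t x) {t : ℝ} (ht : t ∈ Ioo 0 T) (x : Vec) :
    ((deriv (fun s => g s x) t : ℝ) : ℂ)
      = ∑ q ∈ box M, EE q (x 0) (x 1) * deriv (fun s => wm M g q s (x 2)) t := by
  have hmem : Ico 0 T ×ˢ (univ : Set Vec) ∈ 𝓝 (t, x) :=
    prod_mem_nhds (Ico_mem_nhds ht.1 ht.2) Filter.univ_mem
  have h1 : DifferentiableAt ℝ (fun s : ℝ × Vec => g s.1 s.2) (t, x) :=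
    (hg.contDiffAt hmem).differentiableAt one_ne_zero
  have h3 : HasDerivAt (fun s => g s x) (deriv (fun s => g s x) t) t :=
    (hasDerivAt_slice h1).differentiableAt.hasDerivAt
  have h4 := h3.ofReal_comp
  have h5 : HasDerivAt (fun s => ∑ q ∈ box M, EE q (x 0) (x 1) * wm M g q s (x 2))
      (∑ q ∈ box M, EE q (x 0) (x 1) * deriv (fun s => wm M g q s (x 2)) t) t :=
    HasDerivAt.fun_sum fun q _ => ((wm_c1 hg q).hasDerivAt_t ht (x 2)).const_mul _
  have h6 : (fun s => ((g s x : ℝ) : ℂ)) =ᶠ[𝓝 t]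
      fun s => ∑ q ∈ box M, EE q (x 0) (x 1) * wm M g q s (x 2) := by
    filter_upwards [Ioo_mem_nhds ht.1 ht.2] with s hs
    exact repr (hr s ⟨hs.1.le, hs.2⟩) x
  exact (h4.congr_of_eventuallyEq h6.symm).unique h5

theorem EE_add (a b : Z2) (x y : ℝ) : EE (a + b) x y = EE a x y * EE b x y := by
  unfold EE
  rw [← Complex.exp_add]
  congr 1
  simp only [Prod.fst_add, Prod.snd_add]
  push_cast
  ring

theorem wm_supp (g : ℝ → Vec → ℝ) {k : Z2} (hk : k ∉ box M) (t z : ℝ) : wm M g k t z = 0 := by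
  unfold wm
  rw [if_neg hk]

theorem dmode_eq_gr (c : Z2 → ℝ → ℂ) (j : Fin 3) (q : Z2) (z : ℝ) :
    dmode c j q z = gr (c q) q j z := rfl

/-- Every solution of the truncated Euler equations gives a solution of the mode system. -/
theorem IsSol.msol (h : IsSol M T u p) :
    MSol (box M) T (fun k i => wm M (fun t x => u t x i) k) (wm M p) := by
  have hu : ∀ i, ContDiffOn ℝ 1 (fun s : ℝ × Vec => u s.1 s.2 i) (Ico 0 T ×ˢ univ) :=
    fun i => (contDiffOn_pi.1 h.smooth_u) i
  have hw1 : ∀ k i, C1 T (wm M (fun t x => u t x i) k) := fun k i =>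
    wm_c1 (g := fun t x => u t x i) (hu i) k
  refine ⟨hw1, fun k => wm_c1 h.smooth_p k, ?_, ?_, ?_, ?_, ?_, ?_⟩
  · intro k i t ht z
    exact wm_per (g := fun t x => u t x i) (fun x j => by simp only [h.per_u t ht x j]) k z
  · intro k t ht z
    exact wm_per (h.per_p t ht) k z
  · intro k hk i t z
    exact wm_supp _ hk t z
  · intro k i t ht z
    exact wm_real _ k t z
  · intro k t ht z
    by_cases hk : k ∈ box M
    swap
    · unfold dv
      have e : wm M (fun t x => u t x 2) k t = fun _ => 0 := funext fun z => wm_supp _ hk t z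
      beta_reduce
      rw [e, wm_supp _ hk, wm_supp _ hk]
      simp
    have h1 : ∀ x : Vec, ∑ q ∈ box M, EE q (x 0) (x 1)
        * dv (fun k i => wm M (fun t x => u t x i) k t) q (x 2) = 0 := by
      intro x
      have h2 := h.divfree t ht x
      have h3 : ((∑ i, dx i (fun y => u t y i) x : ℝ) : ℂ) = 0 := by rw [h2]; simp
      push_cast at h3
      rw [Fin.sum_univ_three] at h3
      have e : ∀ i j, ((dx j (fun y => u t y i) x : ℝ) : ℂ) = ∑ q ∈ box M, EE q (x 0) (x 1)
          * dmode (fun q => wm M (fun t x => u t x i) q t) j q (x 2) := fun i j =>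
        dx_modes (slice_diff (g := fun t x => u t x i) (hu i) ht x)
          (c := fun q => wm M (fun t x => u t x i) q t)
          (fun x => repr (g := fun t x => u t x i) (h.trunc_u t ht · i) x)
          (fun q z => (hw1 q i).hasDerivAt_z ht z) j
      rw [e, e, e, ← Finset.sum_add_distrib, ← Finset.sum_add_distrib] at h3
      rw [← h3]
      refine Finset.sum_congr rfl fun q _ => ?_
      unfold dv dmode
      simp only [Matrix.cons_val_zero, Matrix.cons_val_one, Matrix.cons_val]
      ring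
    exact coef_zero h1 hk z
  · intro k hk i t ht z
    have hI : t ∈ Ico 0 T := ⟨ht.1.le, ht.2⟩
    set w : Z2 → Fin 3 → ℝ → ℂ := fun k i => wm M (fun t x => u t x i) k t with hw
    have hrep : ∀ i (x : Vec), ((u t x i : ℝ) : ℂ) = ∑ q ∈ box M, EE q (x 0) (x 1) * w q i (x 2) :=
      fun i x => repr (g := fun t x => u t x i) (h.trunc_u t hI · i) x
    have e : ∀ i j (x : Vec), ((dx j (fun y => u t y i) x : ℝ) : ℂ) = ∑ q ∈ box M,
        EE q (x 0) (x 1) * dmode (fun q => w q i) j q (x 2) := fun i j x =>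
      dx_modes (slice_diff (g := fun t x => u t x i) (hu i) hI x) (c := fun q => w q i)
        (hrep i) (fun q z => (hw1 q i).hasDerivAt_z hI z) j
    have eN : ∀ x : Vec, ((∑ j, u t x j * dx j (fun y => u t y i) x : ℝ) : ℂ)
        = ∑ r ∈ box M, ∑ q ∈ box M, EE (r + q) (x 0) (x 1)
          * ((fun r q z => ∑ j, w r j z * dmode (fun q => w q i) j q z) r q (x 2)) := by
      intro x
      push_cast
      have e3 : ∀ j, ((u t x j : ℝ) : ℂ) * ((dx j (fun y => u t y i) x : ℝ) : ℂ)
          = ∑ r ∈ box M, ∑ q ∈ box M, EE (r + q) (x 0) (x 1)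
            * (w r j (x 2) * dmode (fun q => w q i) j q (x 2)) := by
        intro j
        rw [e i j x, hrep j x, Finset.sum_mul_sum]
        refine Finset.sum_congr rfl fun r _ => Finset.sum_congr rfl fun q _ => ?_
        rw [EE_add]
        ring
      simp_rw [e3]
      rw [Finset.sum_comm]
      refine Finset.sum_congr rfl fun r _ => ?_
      rw [Finset.sum_comm]
      refine Finset.sum_congr rfl fun q _ => ?_
      rw [← Finset.mul_sum]
    have hconv : ∀ k z, coef k (fun x => ∑ j, u t x j * dx j (fun y => u t y i) x) z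
        = conv (box M) w w k i z := by
      intro k z
      rw [coef_sum (H := fun r q z => ∑ j, w r j z * dmode (fun q => w q i) j q z) eN k z,
        Finset.sum_comm]
      unfold conv
      refine Finset.sum_congr rfl fun q _ => ?_
      have e4 : ∀ r, (r + q = k) = (r = k - q) := fun r => propext eq_sub_iff_add_eq.symm
      simp_rw [e4]
      rw [Finset.sum_ite_eq' (box M) (k - q)]
      have e5 : (∑ j, w (k - q) j z * dmode (fun q => w q i) j q z)
          = Complex.I * (w (k - q) 0 z * q.1 + w (k - q) 1 z * q.2) * w q i z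
            + w (k - q) 2 z * deriv (w q i) z := by
        rw [Fin.sum_univ_three]
        unfold dmode
        simp only [Matrix.cons_val_zero, Matrix.cons_val_one, Matrix.cons_val]
        ring
      by_cases hkq : k - q ∈ box M
      · rw [if_pos hkq, e5]
      · have hz : ∀ j, w (k - q) j z = 0 := fun j => wm_supp _ hkq t z
        rw [if_neg hkq, hz, hz, hz]
        ring
    have h1 : ∀ x : Vec, ∑ q ∈ box M, EE q (x 0) (x 1)
        * ((fun q z => deriv (fun s => wm M (fun t x => u t x i) q s z) t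
          + conv (box M) w w q i z + gr (wm M p q t) q i z) q (x 2)) = 0 := by
      intro x
      have h2 := h.euler t ht x i
      rw [dt_modes (g := fun t x => u t x i) (hu i) (fun t ht x => h.trunc_u t ht x i) ht x,
        dx_modes (slice_diff h.smooth_p hI x) (c := fun q => wm M p q t)
          (fun x => repr (h.trunc_p t hI) x)
          (fun q z => (wm_c1 h.smooth_p q).hasDerivAt_z hI z) i] at h2
      unfold trunc at h2
      simp_rw [hconv] at h2
      rw [← h2, ← Finset.sum_add_distrib, ← Finset.sum_add_distrib]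
      refine Finset.sum_congr rfl fun q _ => ?_
      rw [dmode_eq_gr]
      unfold EE
      ring
    exact coef_zero (c := fun q z => deriv (fun s => wm M (fun t x => u t x i) q s z) t
          + conv (box M) w w q i z + gr (wm M p q t) q i z) h1 hk z

end Pool.Agent.N983.GT
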