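import Mathlib

/-!
Calculus for functions of `(t, z)` which are `C^1` on `[0, T) × ℝ`.
-/

open MeasureTheory Set Filter Topology
open scoped ContDiff ComplexConjugate

namespace Pool.Agent.N983.GT

section cal

variable {E : Type*} [NormedAddCommGroup E] [NormedSpace ℝ E] {T : ℝ}

/-- The time interval times the line. -/
abbrev Dom (T : ℝ) : Set (ℝ × ℝ) := Ico 0 T ×ˢ univ

theorem uniqueDiff_Dom (T : ℝ) : UniqueDiffOn ℝ (Dom T) := by
  rcases le_or_gt T 0 with h | h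
  · rw [Dom, Ico_eq_empty (by linarith)]; simp [UniqueDiffOn]
  · exact (uniqueDiffOn_Ico 0 T).prod uniqueDiffOn_univ

/-- `f` is `C^1` on `[0, T) × ℝ`. -/
def C1 (T : ℝ) (f : ℝ → ℝ → E) : Prop := ContDiffOn ℝ 1 (fun s : ℝ × ℝ => f s.1 s.2) (Dom T)

theorem C1.slice {f : ℝ → ℝ → E} (hf : C1 T f) {t : ℝ} (ht : t ∈ Ico 0 T) : ContDiff ℝ 1 (f t) := by
  rw [← contDiffOn_univ]
  exact hf.comp (contDiff_const.prodMk contDiff_id).contDiffOn (fun x _ => ⟨ht, mem_univ _⟩)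

theorem C1.hasDerivAt_z {f : ℝ → ℝ → E} (hf : C1 T f) {t : ℝ} (ht : t ∈ Ico 0 T) (z : ℝ) :
    HasDerivAt (f t) (deriv (f t) z) z :=
  (((hf.slice ht).differentiable one_ne_zero) z).hasDerivAt

theorem C1.deriv_z_eq {f : ℝ → ℝ → E} (hf : C1 T f) {t : ℝ} (ht : t ∈ Ico 0 T) (z : ℝ) :
    deriv (f t) z = fderivWithin ℝ (fun s : ℝ × ℝ => f s.1 s.2) (Dom T) (t, z) (0, 1) := by
  have h1 : HasFDerivWithinAt (fun s : ℝ × ℝ => f s.1 s.2)
      (fderivWithin ℝ (fun s : ℝ × ℝ => f s.1 s.2) (Dom T) (t, z)) (Dom T) (t, z) :=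
    ((ContDiffOn.differentiableOn hf one_ne_zero) (t, z) ⟨ht, mem_univ _⟩).hasFDerivWithinAt
  have h2 : HasFDerivAt (fun y : ℝ => ((t, y) : ℝ × ℝ)) (ContinuousLinearMap.inr ℝ ℝ ℝ) z :=
    hasFDerivAt_prodMk_right t z
  have h3 : HasFDerivWithinAt (fun y : ℝ => f t y)
      ((fderivWithin ℝ (fun s : ℝ × ℝ => f s.1 s.2) (Dom T) (t, z)).comp
        (ContinuousLinearMap.inr ℝ ℝ ℝ)) univ z :=
    HasFDerivWithinAt.comp (g := fun s : ℝ × ℝ => f s.1 s.2) (t := Dom T) z h1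
      h2.hasFDerivWithinAt (fun y _ => ⟨ht, mem_univ _⟩)
  rw [hasFDerivWithinAt_univ] at h3
  have h4 := h3.hasDerivAt
  rw [h4.deriv]
  simp

theorem C1.cont_deriv_z {f : ℝ → ℝ → E} (hf : C1 T f) :
    ContinuousOn (fun s : ℝ × ℝ => deriv (f s.1) s.2) (Dom T) := by
  have h1 : ContinuousOn (fderivWithin ℝ (fun s : ℝ × ℝ => f s.1 s.2) (Dom T)) (Dom T) :=
    ContDiffOn.continuousOn_fderivWithin hf (uniqueDiff_Dom T) le_rfl
  have h2 : ContinuousOn (fun s : ℝ × ℝ => fderivWithin ℝ (fun s : ℝ × ℝ => f s.1 s.2) (Dom T) s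
      (0, 1)) (Dom T) := h1.clm_apply continuousOn_const
  refine h2.congr fun s hs => ?_
  exact hf.deriv_z_eq hs.1 s.2

theorem C1.continuousOn {f : ℝ → ℝ → E} (hf : C1 T f) :
    ContinuousOn (fun s : ℝ × ℝ => f s.1 s.2) (Dom T) := ContDiffOn.continuousOn hf

theorem C1.hasDerivAt_t' {f : ℝ → ℝ → E} (hf : C1 T f) {t : ℝ} (ht : t ∈ Ioo 0 T) (z : ℝ) :
    HasDerivAt (fun s => f s z) (fderiv ℝ (fun s : ℝ × ℝ => f s.1 s.2) (t, z) (1, 0)) t := by
  have hmem : Dom T ∈ 𝓝 (t, z) := prod_mem_nhds (Ico_mem_nhds ht.1 ht.2) Filter.univ_mem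
  have h1 : DifferentiableAt ℝ (fun s : ℝ × ℝ => f s.1 s.2) (t, z) :=
    (ContDiffOn.contDiffAt hf hmem).differentiableAt one_ne_zero
  have h2 : HasDerivAt (fun s : ℝ => ((s, z) : ℝ × ℝ)) (1, 0) t :=
    (hasDerivAt_id t).prodMk (hasDerivAt_const t z)
  exact h1.hasFDerivAt.comp_hasDerivAt t h2

theorem C1.hasDerivAt_t {f : ℝ → ℝ → E} (hf : C1 T f) {t : ℝ} (ht : t ∈ Ioo 0 T) (z : ℝ) :
    HasDerivAt (fun s => f s z) (deriv (fun s => f s z) t) t :=
  (hf.hasDerivAt_t' ht z).differentiableAt.hasDerivAt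

theorem C1.cont_deriv_t {f : ℝ → ℝ → E} (hf : C1 T f) :
    ContinuousOn (fun s : ℝ × ℝ => deriv (fun r => f r s.2) s.1) (Ioo 0 T ×ˢ univ) := by
  have hO : IsOpen (Ioo 0 T ×ˢ (univ : Set ℝ)) := isOpen_Ioo.prod isOpen_univ
  have h0 : ContDiffOn ℝ 1 (fun s : ℝ × ℝ => f s.1 s.2) (Ioo 0 T ×ˢ univ) :=
    ContDiffOn.mono hf (prod_mono Ioo_subset_Ico_self subset_rfl)
  have h2 : ContinuousOn (fun s : ℝ × ℝ => fderiv ℝ (fun s : ℝ × ℝ => f s.1 s.2) s (1, 0))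
      (Ioo 0 T ×ˢ univ) := (h0.continuousOn_fderiv_of_isOpen hO le_rfl).clm_apply continuousOn_const
  refine h2.congr fun s hs => ?_
  exact (hf.hasDerivAt_t' hs.1 s.2).deriv

theorem C1.slice_t {f : ℝ → ℝ → E} (hf : C1 T f) (z : ℝ) :
    ContinuousOn (fun s => f s z) (Ico 0 T) :=
  hf.continuousOn.comp (f := fun s : ℝ => ((s, z) : ℝ × ℝ)) (by fun_prop)
    (fun s hs => ⟨hs, mem_univ _⟩)

end cal

section int

variable {T : ℝ}

/-- Continuity of an integral depending on time. -/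
theorem continuousOn_int {F : ℝ → ℝ → ℝ} (a b : ℝ)
    (hF : ContinuousOn (fun s : ℝ × ℝ => F s.1 s.2) (Dom T)) :
    ContinuousOn (fun s => ∫ z in a..b, F s z) (Ico 0 T) := by
  intro t ht
  obtain ⟨c, hc1, hc2⟩ := exists_between ht.2
  have hK : IsCompact (Icc 0 c ×ˢ uIcc a b) := isCompact_Icc.prod isCompact_uIcc
  have hsub : Icc 0 c ×ˢ uIcc a b ⊆ Dom T :=
    prod_mono (fun s hs => ⟨hs.1, hs.2.trans_lt hc2⟩) (subset_univ _)
  obtain ⟨C, hC⟩ := hK.exists_bound_of_continuousOn (hF.mono hsub)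
  have hev : ∀ᶠ s in 𝓝[Ico 0 T] t, s ∈ Icc 0 c := by
    have h1 : ∀ᶠ s in 𝓝[Ico 0 T] t, s < c := nhdsWithin_le_nhds (Iio_mem_nhds hc1)
    filter_upwards [h1, self_mem_nhdsWithin] with s hs1 hs2
    exact ⟨hs2.1, hs1.le⟩
  refine intervalIntegral.continuousWithinAt_of_dominated_interval (bound := fun _ => C) ?_ ?_ ?_ ?_
  · filter_upwards [hev] with s hs
    have hc : Continuous (fun x => F s x) := by
      have := hF.comp_continuous (f := fun x : ℝ => ((s, x) : ℝ × ℝ)) (by fun_prop)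
        (fun x => ⟨⟨hs.1, hs.2.trans_lt hc2⟩, mem_univ _⟩)
      exact this
    exact hc.aestronglyMeasurable
  · filter_upwards [hev] with s hs
    exact Filter.Eventually.of_forall fun x hx => hC (s, x) ⟨hs, uIoc_subset_uIcc hx⟩
  · exact intervalIntegrable_const
  · refine Filter.Eventually.of_forall fun x _ => ?_
    have h1 : ContinuousWithinAt (fun s : ℝ × ℝ => F s.1 s.2) (Dom T) (t, x) :=
      hF (t, x) ⟨ht, mem_univ _⟩
    exact h1.comp (t := Dom T) (f := fun s : ℝ => ((s, x) : ℝ × ℝ))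
      (by fun_prop) (fun s hs => ⟨hs, mem_univ _⟩)

/-- Differentiation under the integral sign. -/
theorem hasDerivAt_int {F : ℝ → ℝ → ℝ} (a b : ℝ) (hF : C1 T F) {t : ℝ} (ht : t ∈ Ioo 0 T) :
    HasDerivAt (fun s => ∫ z in a..b, F s z) (∫ z in a..b, deriv (fun s => F s z) t) t := by
  obtain ⟨c, hc1, hc2⟩ := exists_between ht.1
  obtain ⟨e, he1, he2⟩ := exists_between ht.2
  have hd := hF.cont_deriv_t
  have hK : IsCompact (Icc c e ×ˢ uIcc a b) := isCompact_Icc.prod isCompact_uIcc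
  have hsub : Icc c e ×ˢ uIcc a b ⊆ Ioo 0 T ×ˢ (univ : Set ℝ) :=
    prod_mono (fun s hs => ⟨hc1.trans_le hs.1, hs.2.trans_lt he2⟩) (subset_univ _)
  obtain ⟨C, hC⟩ := hK.exists_bound_of_continuousOn (hd.mono hsub)
  have hslice : ∀ s ∈ Ioo 0 T, Continuous (fun x => F s x) := fun s hs =>
    (hF.slice ⟨hs.1.le, hs.2⟩).continuous
  have hnh : Icc c e ∈ 𝓝 t := Icc_mem_nhds hc2 he1
  refine (intervalIntegral.hasDerivAt_integral_of_dominated_loc_of_deriv_le (s := Icc c e)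
    (F := fun s x => F s x) (F' := fun s x => deriv (fun r => F r x) s)
    (bound := fun _ => C) hnh ?_ ?_ ?_ ?_ ?_ ?_).2
  · filter_upwards [Ioo_mem_nhds ht.1 ht.2] with s hs
    exact (hslice s hs).aestronglyMeasurable
  · exact (hslice t ht).intervalIntegrable _ _
  · have : Continuous (fun x => deriv (fun r => F r x) t) :=
      hd.comp_continuous (f := fun x : ℝ => ((t, x) : ℝ × ℝ)) (by fun_prop)
        (fun x => ⟨ht, mem_univ _⟩)
    exact this.aestronglyMeasurable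
  · exact Filter.Eventually.of_forall fun x hx s hs => hC (s, x) ⟨hs, uIoc_subset_uIcc hx⟩
  · exact intervalIntegrable_const
  · refine Filter.Eventually.of_forall fun x _ s hs => ?_
    exact hF.hasDerivAt_t ⟨hc1.trans_le hs.1, hs.2.trans_lt he2⟩ x

/-- The integral of a derivative of a periodic function over a period vanishes. -/
theorem int_deriv_per {g g' : ℝ → ℝ} (h : ∀ z, HasDerivAt g (g' z) z) (hc : Continuous g')
    (hp : g Real.pi = g (-Real.pi)) : ∫ z in (-Real.pi)..Real.pi, g' z = 0 := by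
  rw [intervalIntegral.integral_eq_sub_of_hasDerivAt (fun z _ => h z) (hc.intervalIntegrable _ _),
    hp, sub_self]

end int

end Pool.Agent.N983.GT
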