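import Pool.Agent.N983.GT.Bridge2

/-!
The datum.
-/

open MeasureTheory Set Filter Topology
open scoped ContDiff ComplexConjugate

namespace Pool.Agent.N983.GT

/-- Real trigonometric polynomials: the algebra generated by the functions `cos xⱼ`, `sin xⱼ`. -/
def IsTrigPoly (f : Vec → ℝ) : Prop :=
  f ∈ Algebra.adjoin ℝ {g : Vec → ℝ | ∃ j, g = (fun x => Real.cos (x j)) ∨ g = fun x => Real.sin (x j)}

namespace IsTrigPoly

theorem cos1 (j : Fin 3) : IsTrigPoly (fun x => Real.cos (x j)) :=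
  Algebra.subset_adjoin ⟨j, Or.inl rfl⟩

theorem sin1 (j : Fin 3) : IsTrigPoly (fun x => Real.sin (x j)) :=
  Algebra.subset_adjoin ⟨j, Or.inr rfl⟩

theorem add {f g : Vec → ℝ} (hf : IsTrigPoly f) (hg : IsTrigPoly g) :
    IsTrigPoly (fun x => f x + g x) := Subalgebra.add_mem _ hf hg

theorem mul {f g : Vec → ℝ} (hf : IsTrigPoly f) (hg : IsTrigPoly g) :
    IsTrigPoly (fun x => f x * g x) := Subalgebra.mul_mem _ hf hg

theorem const (c : ℝ) : IsTrigPoly (fun _ => c) := Subalgebra.algebraMap_mem _ c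

theorem sub {f g : Vec → ℝ} (hf : IsTrigPoly f) (hg : IsTrigPoly g) :
    IsTrigPoly (fun x => f x - g x) := Subalgebra.sub_mem _ hf hg

theorem neg {f : Vec → ℝ} (hf : IsTrigPoly f) : IsTrigPoly (fun x => -f x) :=
  Subalgebra.neg_mem _ hf

theorem sum {ι : Type*} {s : Finset ι} {f : ι → Vec → ℝ} (hf : ∀ i ∈ s, IsTrigPoly (f i)) :
    IsTrigPoly (fun x => ∑ i ∈ s, f i x) := by
  have e : (fun x => ∑ i ∈ s, f i x) = ∑ i ∈ s, f i := by
    funext x
    rw [Finset.sum_apply]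
  rw [e]
  exact Subalgebra.sum_mem _ hf

theorem nat (n : ℕ) (j : Fin 3) : IsTrigPoly (fun x => Real.cos (n * x j))
    ∧ IsTrigPoly (fun x => Real.sin (n * x j)) := by
  induction n with
  | zero => simp only [Nat.cast_zero, zero_mul, Real.cos_zero, Real.sin_zero]
            exact ⟨const 1, const 0⟩
  | succ n ih =>
    have e : ∀ x : Vec, ((n + 1 : ℕ) : ℝ) * x j = n * x j + x j := fun x => by push_cast; ring
    simp only [e, Real.cos_add, Real.sin_add]
    exact ⟨(ih.1.mul (cos1 j)).sub (ih.2.mul (sin1 j)), (ih.2.mul (cos1 j)).add (ih.1.mul (sin1 j))⟩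

theorem int (n : ℤ) (j : Fin 3) : IsTrigPoly (fun x => Real.cos (n * x j))
    ∧ IsTrigPoly (fun x => Real.sin (n * x j)) := by
  obtain ⟨m, rfl | rfl⟩ := n.eq_nat_or_neg
  · exact_mod_cast nat m j
  · have e : ∀ x : Vec, ((-(m : ℤ) : ℤ) : ℝ) * x j = -(m * x j) := fun x => by push_cast; ring
    simp only [e, Real.cos_neg, Real.sin_neg]
    exact ⟨(nat m j).1, (nat m j).2.neg⟩

theorem char (q : Z2) : IsTrigPoly (fun x => Real.cos (q.1 * x 0 + q.2 * x 1))
    ∧ IsTrigPoly (fun x => Real.sin (q.1 * x 0 + q.2 * x 1)) := by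
  simp only [Real.cos_add, Real.sin_add]
  exact ⟨((int q.1 0).1.mul (int q.2 1).1).sub ((int q.1 0).2.mul (int q.2 1).2),
    ((int q.1 0).2.mul (int q.2 1).1).add ((int q.1 0).1.mul (int q.2 1).2)⟩

theorem smooth {f : Vec → ℝ} (hf : IsTrigPoly f) : ContDiff ℝ ∞ f := by
  unfold IsTrigPoly at hf
  induction hf using Algebra.adjoin_induction with
  | mem x hx =>
    obtain ⟨j, rfl | rfl⟩ := hx
    · exact Real.contDiff_cos.comp (contDiff_apply ℝ ℝ j)
    · exact Real.contDiff_sin.comp (contDiff_apply ℝ ℝ j)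
  | algebraMap r => exact contDiff_const
  | add x y _ _ h1 h2 => exact h1.add h2
  | mul x y _ _ h1 h2 => exact h1.mul h2

end IsTrigPoly

/-- The vertical profile. -/
noncomputable def th (N : ℕ) (z : ℝ) : ℝ := (1 / (N + 1)) * ∑ n ∈ Finset.range (N + 1), Real.cos ((n + 1 : ℕ) * z)

/-- The primitive of the vertical profile. -/
noncomputable def Th (N : ℕ) (z : ℝ) : ℝ :=
  (1 / (N + 1)) * ∑ n ∈ Finset.range (N + 1), Real.sin ((n + 1 : ℕ) * z) / ((n + 1 : ℕ) : ℝ)

theorem th_even (N : ℕ) (z : ℝ) : th N (-z) = th N z := by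
  unfold th
  simp only [mul_neg, Real.cos_neg]

theorem Th_odd (N : ℕ) (z : ℝ) : Th N (-z) = -Th N z := by
  unfold Th
  simp only [mul_neg, Real.sin_neg, neg_div, Finset.sum_neg_distrib]

theorem th_zero (N : ℕ) : th N 0 = 1 := by
  unfold th
  simp only [mul_zero, Real.cos_zero, Finset.sum_const, Finset.card_range, nsmul_eq_mul, mul_one]
  push_cast
  field_simp

theorem th_cont (N : ℕ) : Continuous (th N) := by
  unfold th
  fun_prop

theorem Th_cont (N : ℕ) : Continuous (Th N) := by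
  unfold Th
  fun_prop

theorem Th_deriv (N : ℕ) (z : ℝ) : HasDerivAt (Th N) (th N z) z := by
  unfold Th th
  refine HasDerivAt.const_mul _ (HasDerivAt.fun_sum fun n _ => ?_)
  have hn : ((n + 1 : ℕ) : ℝ) ≠ 0 := by positivity
  have h := ((((hasDerivAt_id z).const_mul ((n + 1 : ℕ) : ℝ)).sin).div_const ((n + 1 : ℕ) : ℝ))
  refine h.congr_deriv ?_
  simp only [id]
  field_simp

theorem int_cos_int {m : ℤ} (hm : m ≠ 0) : ∫ z in (-Real.pi)..Real.pi, Real.cos (m * z) = 0 := by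
  have hm' : (m : ℝ) ≠ 0 := by exact_mod_cast hm
  refine int_deriv_per (g := fun z => Real.sin (m * z) / m) (fun z => ?_) (by fun_prop) ?_
  · have h := (((hasDerivAt_id z).const_mul (m : ℝ)).sin).div_const (m : ℝ)
    refine h.congr_deriv ?_
    simp only [id]
    field_simp
  · simp only [mul_neg, Real.sin_neg, Real.sin_int_mul_pi, neg_zero]

theorem int_cos_cos (m n : ℕ) : ∫ z in (-Real.pi)..Real.pi,
    Real.cos ((m + 1 : ℕ) * z) * Real.cos ((n + 1 : ℕ) * z) = if m = n then Real.pi else 0 := by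
  have e : ∀ z, Real.cos ((m + 1 : ℕ) * z) * Real.cos ((n + 1 : ℕ) * z)
      = 1 / 2 * Real.cos (((m : ℤ) - n : ℤ) * z) + 1 / 2 * Real.cos (((m : ℤ) + n + 2 : ℤ) * z) := by
    intro z
    have e1 : ((((m : ℤ) - n : ℤ)) : ℝ) * z = (m + 1 : ℕ) * z - (n + 1 : ℕ) * z := by
      push_cast; ring
    have e2 : ((((m : ℤ) + n + 2 : ℤ)) : ℝ) * z = (m + 1 : ℕ) * z + (n + 1 : ℕ) * z := by
      push_cast; ring
    rw [e1, e2, Real.cos_sub, Real.cos_add]
    ring
  simp_rw [e]
  rw [int_lin (by fun_prop) (by fun_prop), int_cos_int (by omega : ((m : ℤ) + n + 2) ≠ 0)]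
  by_cases h : m = n
  · subst h
    simp
    ring
  · rw [int_cos_int (by omega), if_neg h]
    ring

theorem int_sin_sin (m n : ℕ) : ∫ z in (-Real.pi)..Real.pi,
    Real.sin ((m + 1 : ℕ) * z) * Real.sin ((n + 1 : ℕ) * z) = if m = n then Real.pi else 0 := by
  have e : ∀ z, Real.sin ((m + 1 : ℕ) * z) * Real.sin ((n + 1 : ℕ) * z)
      = 1 / 2 * Real.cos (((m : ℤ) - n : ℤ) * z)
        + (-(1 / 2)) * Real.cos (((m : ℤ) + n + 2 : ℤ) * z) := by
    intro z
    have e1 : ((((m : ℤ) - n : ℤ)) : ℝ) * z = (m + 1 : ℕ) * z - (n + 1 : ℕ) * z := by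
      push_cast; ring
    have e2 : ((((m : ℤ) + n + 2 : ℤ)) : ℝ) * z = (m + 1 : ℕ) * z + (n + 1 : ℕ) * z := by
      push_cast; ring
    rw [e1, e2, Real.cos_sub, Real.cos_add]
    ring
  simp_rw [e]
  rw [int_lin (by fun_prop) (by fun_prop), int_cos_int (by omega : ((m : ℤ) + n + 2) ≠ 0)]
  by_cases h : m = n
  · subst h
    simp
    ring
  · rw [int_cos_int (by omega), if_neg h]
    ring

/-- a square of a sum of orthogonal functions -/
theorem int_sq (N : ℕ) (f : ℕ → ℝ → ℝ) (hf : ∀ n, Continuous (f n)) (a : ℕ → ℝ)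
    (h : ∀ m n, ∫ z in (-Real.pi)..Real.pi, f m z * f n z = if m = n then a m else 0) :
    ∫ z in (-Real.pi)..Real.pi, (∑ n ∈ Finset.range N, f n z) ^ 2 = ∑ n ∈ Finset.range N, a n := by
  have e : ∀ z, (∑ n ∈ Finset.range N, f n z) ^ 2
      = ∑ m ∈ Finset.range N, ∑ n ∈ Finset.range N, f m z * f n z := by
    intro z
    rw [pow_two, Finset.sum_mul_sum]
  simp_rw [e]
  have hc : ∀ m n, Continuous (fun z => f m z * f n z) := fun m n => (hf m).mul (hf n)
  rw [intervalIntegral.integral_finsetSum fun m _ =>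
    (continuous_finsetSum _ fun n _ => hc m n).intervalIntegrable _ _]
  refine Finset.sum_congr rfl fun m hm => ?_
  rw [intervalIntegral.integral_finsetSum fun n _ => (hc m n).intervalIntegrable _ _]
  simp_rw [h]
  rw [Finset.sum_ite_eq, if_pos hm]

theorem th_small (N : ℕ) : ∫ z in (-Real.pi)..Real.pi, (th N z ^ 2 + Th N z ^ 2)
    ≤ 2 * Real.pi / (N + 1) := by
  have h1 : ∫ z in (-Real.pi)..Real.pi, th N z ^ 2 = Real.pi / (N + 1) := by
    unfold th
    simp_rw [mul_pow]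
    rw [intervalIntegral.integral_const_mul, int_sq (N + 1)
      (fun n z => Real.cos ((n + 1 : ℕ) * z)) (fun n => by fun_prop) (fun _ => Real.pi)
      int_cos_cos]
    simp only [Finset.sum_const, Finset.card_range, nsmul_eq_mul]
    push_cast
    field_simp
  have h2 : ∫ z in (-Real.pi)..Real.pi, Th N z ^ 2 ≤ Real.pi / (N + 1) := by
    unfold Th
    simp_rw [mul_pow]
    rw [intervalIntegral.integral_const_mul, int_sq (N + 1)
      (fun n z => Real.sin ((n + 1 : ℕ) * z) / ((n + 1 : ℕ) : ℝ)) (fun n => by fun_prop)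
      (fun n => Real.pi / ((n + 1 : ℕ) : ℝ) ^ 2) ?_]
    · have h3 : ∑ n ∈ Finset.range (N + 1), Real.pi / ((n + 1 : ℕ) : ℝ) ^ 2
          ≤ ∑ n ∈ Finset.range (N + 1), Real.pi := by
        refine Finset.sum_le_sum fun n _ => ?_
        refine div_le_self Real.pi_pos.le ?_
        have : (1 : ℝ) ≤ ((n + 1 : ℕ) : ℝ) := by push_cast; linarith [Nat.cast_nonneg (α := ℝ) n]
        exact one_le_pow₀ this
      rw [Finset.sum_const, Finset.card_range, nsmul_eq_mul] at h3
      calc (1 / ((N : ℝ) + 1)) ^ 2 * _ ≤ (1 / ((N : ℝ) + 1)) ^ 2 * (((N + 1 : ℕ) : ℝ) * Real.pi) :=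
            mul_le_mul_of_nonneg_left h3 (by positivity)
        _ = _ := by push_cast; field_simp
    · intro m n
      have e : ∀ z, Real.sin ((m + 1 : ℕ) * z) / ((m + 1 : ℕ) : ℝ)
          * (Real.sin ((n + 1 : ℕ) * z) / ((n + 1 : ℕ) : ℝ))
          = (1 / (((m + 1 : ℕ) : ℝ) * ((n + 1 : ℕ) : ℝ)))
            * (Real.sin ((m + 1 : ℕ) * z) * Real.sin ((n + 1 : ℕ) * z)) := by
        intro z
        field_simp
      simp_rw [e]
      rw [intervalIntegral.integral_const_mul, int_sin_sin]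
      by_cases h : m = n
      · subst h
        rw [if_pos rfl, if_pos rfl]
        field_simp
      · rw [if_neg h, if_neg h, mul_zero]
  have c1 : Continuous (fun z => th N z ^ 2) := (th_cont N).pow 2
  have c2 : Continuous (fun z => Th N z ^ 2) := (Th_cont N).pow 2
  rw [intervalIntegral.integral_add (c1.intervalIntegrable _ _) (c2.intervalIntegrable _ _), h1]
  calc _ ≤ Real.pi / (N + 1) + Real.pi / (N + 1) := by linarith
    _ = _ := by ring

end Pool.Agent.N983.GT
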