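import Pool.Agent.N983.GT.TAna

/-!
Blow-up of the real three-wave system with an acute triad.
-/

open MeasureTheory Set Filter Topology
open scoped ContDiff

namespace Pool.Agent.N983.GT

variable {κ : Fin 3 → Fin 2 → ℝ} {T : ℝ} {A : Fin 3 → Fin 2 → ℝ → ℝ → ℝ} {B P : Fin 3 → ℝ → ℝ → ℝ}

theorem eW_A (t z : ℝ) (j : Fin 3) (e : Fin 2) : |A j e t z| ^ 2 ≤ eW A B t z := by
  rw [sq_abs]
  unfold eW
  calc A j e t z ^ 2 ≤ ∑ e, A j e t z ^ 2 + B j t z ^ 2 := by
        have := Finset.single_le_sum (f := fun e => A j e t z ^ 2) (fun _ _ => sq_nonneg _)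
          (Finset.mem_univ e)
        have := sq_nonneg (B j t z)
        linarith
    _ ≤ _ := Finset.single_le_sum (f := fun j => ∑ e, A j e t z ^ 2 + B j t z ^ 2)
        (fun _ _ => by positivity) (Finset.mem_univ j)

theorem eW_B (t z : ℝ) (j : Fin 3) : |B j t z| ^ 2 ≤ eW A B t z := by
  rw [sq_abs]
  unfold eW
  calc B j t z ^ 2 ≤ ∑ e, A j e t z ^ 2 + B j t z ^ 2 := by
        have : 0 ≤ ∑ e, A j e t z ^ 2 := Finset.sum_nonneg fun _ _ => sq_nonneg _
        linarith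
    _ ≤ _ := Finset.single_le_sum (f := fun j => ∑ e, A j e t z ^ 2 + B j t z ^ 2)
        (fun _ _ => by positivity) (Finset.mem_univ j)

theorem eW_nonneg (t z : ℝ) : 0 ≤ eW A B t z := by
  unfold eW
  positivity

theorem mul_le_of_sq {x y W : ℝ} (hx : x ^ 2 ≤ W) (hy : y ^ 2 ≤ W) : x * y ≤ W := by
  nlinarith [sq_nonneg (x - y)]

theorem dot_le {R : ℝ} (hR : ∀ j e, |κ j e| ≤ R) (j m : Fin 3) (t z : ℝ) :
    |dot κ A j m t z| ≤ R * (|A m 0 t z| + |A m 1 t z|) := by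
  unfold dot
  rw [Fin.sum_univ_two]
  refine (abs_add_le _ _).trans ?_
  rw [abs_mul, abs_mul, mul_add]
  exact add_le_add (mul_le_mul_of_nonneg_right (hR _ _) (abs_nonneg _))
    (mul_le_mul_of_nonneg_right (hR _ _) (abs_nonneg _))

theorem TSys.press_bound1 (hκ : ∀ e, κ 0 e + κ 1 e + κ 2 e = 0) (j : Fin 3)
    (hpos : 0 < ∑ e, κ j e ^ 2) : ∃ C, 0 < C ∧ ∀ (T : ℝ) (A : Fin 3 → Fin 2 → ℝ → ℝ → ℝ)
      (B P : Fin 3 → ℝ → ℝ → ℝ), TSys κ T A B P → ∀ t ∈ Ioo 0 T,
      |P j t 0| ≤ C * ∫ z in (0 : ℝ)..Real.pi, eW A B t z := by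
  obtain ⟨R, hR0, hR⟩ : ∃ R, 0 ≤ R ∧ ∀ j e, |κ j e| ≤ R := by
    refine ⟨∑ j, ∑ e, |κ j e|, by positivity, fun j e => ?_⟩
    exact (Finset.single_le_sum (f := fun e => |κ j e|) (fun _ _ => abs_nonneg _)
      (Finset.mem_univ e)).trans (Finset.single_le_sum (f := fun j => ∑ e, |κ j e|)
        (fun _ _ => by positivity) (Finset.mem_univ j))
  set lam : ℝ := Real.sqrt (∑ e, κ j e ^ 2) with hlam
  have hlam2 : lam ^ 2 = ∑ e, κ j e ^ 2 := Real.sq_sqrt hpos.le
  have hlpos : 0 < lam := Real.sqrt_pos.2 hpos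
  have hsinh : 0 < Real.sinh (lam * Real.pi) := Real.sinh_pos_iff.2 (by positivity)
  have hcosh := Real.cosh_pos (lam * Real.pi)
  set D := lam * Real.sinh (lam * Real.pi) with hD
  have hD0 : 0 < D := by positivity
  set C1 : ℝ := 8 * R * D + 8 * R ^ 2 * Real.cosh (lam * Real.pi) with hC1
  have hC10 : 0 ≤ C1 := by positivity
  refine ⟨(C1 + 1) / D, by positivity, fun T A B P h t ht => ?_⟩
  have hI : t ∈ Ico 0 T := ⟨ht.1.le, ht.2⟩
  have h1 := h.press hκ j hlam2 ht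
  have hcW : Continuous (fun z => eW A B t z) := by
    unfold eW
    have c1 : ∀ m, Continuous (B m t) := fun m => ((h.c1B m).slice hI).continuous
    have c2 : ∀ i m, Continuous (A i m t) := fun i m => ((h.c1A i m).slice hI).continuous
    fun_prop
  have h2 : |lam * Real.sinh (lam * Real.pi) * P j t 0|
      ≤ ∫ z in (0 : ℝ)..Real.pi, C1 * eW A B t z := by
    rw [h1, ← Real.norm_eq_abs]
    refine intervalIntegral.norm_integral_le_of_norm_le Real.pi_pos.le ?_
      ((continuous_const.mul hcW).intervalIntegrable _ _)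
    refine Filter.Eventually.of_forall fun z hz => ?_
    rw [Real.norm_eq_abs]
    have hW0 : 0 ≤ eW A B t z := eW_nonneg t z
    have hA := fun j e => eW_A (A := A) (B := B) t z j e
    have hB := fun j => eW_B (A := A) (B := B) t z j
    have hz1 : |lam * (z - Real.pi)| ≤ lam * Real.pi := by
      rw [abs_mul, abs_of_pos hlpos, abs_of_nonpos (by linarith [hz.2])]
      exact mul_le_mul_of_nonneg_left (by linarith [hz.1]) hlpos.le
    have hs : |lam * Real.sinh (lam * (z - Real.pi))| ≤ D := by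
      rw [abs_mul, abs_of_pos hlpos, Real.abs_sinh]
      exact mul_le_mul_of_nonneg_left (Real.sinh_le_sinh.2 hz1) hlpos.le
    have hc : |Real.cosh (lam * (z - Real.pi))| ≤ Real.cosh (lam * Real.pi) := by
      rw [abs_of_pos (Real.cosh_pos _), Real.cosh_le_cosh, abs_of_pos (by positivity : 0 < lam * Real.pi)]
      exact hz1
    have q1 : ∀ i k m, |B i t z| * |dot κ A k m t z| ≤ 2 * R * eW A B t z := by
      intro i k m
      calc |B i t z| * |dot κ A k m t z| ≤ |B i t z| * (R * (|A m 0 t z| + |A m 1 t z|)) :=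
            mul_le_mul_of_nonneg_left (dot_le hR k m t z) (abs_nonneg _)
        _ = R * (|B i t z| * |A m 0 t z| + |B i t z| * |A m 1 t z|) := by ring
        _ ≤ R * (eW A B t z + eW A B t z) := by
            refine mul_le_mul_of_nonneg_left (add_le_add ?_ ?_) hR0
            · exact mul_le_of_sq (hB i) (hA m 0)
            · exact mul_le_of_sq (hB i) (hA m 1)
        _ = _ := by ring
    have q2 : ∀ i k m n, |dot κ A i m t z| * |dot κ A k n t z| ≤ 4 * R ^ 2 * eW A B t z := by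
      intro i k m n
      calc |dot κ A i m t z| * |dot κ A k n t z|
          ≤ (R * (|A m 0 t z| + |A m 1 t z|)) * (R * (|A n 0 t z| + |A n 1 t z|)) :=
            mul_le_mul (dot_le hR i m t z) (dot_le hR k n t z) (abs_nonneg _) (by positivity)
        _ = R ^ 2 * (|A m 0 t z| * |A n 0 t z| + |A m 0 t z| * |A n 1 t z|
            + |A m 1 t z| * |A n 0 t z| + |A m 1 t z| * |A n 1 t z|) := by ring
        _ ≤ R ^ 2 * (eW A B t z + eW A B t z + eW A B t z + eW A B t z) := by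
            refine mul_le_mul_of_nonneg_left (add_le_add (add_le_add (add_le_add ?_ ?_) ?_) ?_)
              (sq_nonneg _)
            · exact mul_le_of_sq (hA m 0) (hA n 0)
            · exact mul_le_of_sq (hA m 0) (hA n 1)
            · exact mul_le_of_sq (hA m 1) (hA n 0)
            · exact mul_le_of_sq (hA m 1) (hA n 1)
        _ = _ := by ring
    calc _ ≤ |2 * (lam * Real.sinh (lam * (z - Real.pi)))
          * (B (j + 1) t z * dot κ A (j + 1) (j + 2) t z
            + B (j + 2) t z * dot κ A (j + 2) (j + 1) t z)|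
          + |2 * Real.cosh (lam * (z - Real.pi)) * (dot κ A j (j + 1) t z
            * dot κ A j (j + 2) t z)| := abs_add_le _ _
      _ = 2 * |lam * Real.sinh (lam * (z - Real.pi))|
          * |B (j + 1) t z * dot κ A (j + 1) (j + 2) t z
            + B (j + 2) t z * dot κ A (j + 2) (j + 1) t z|
          + 2 * |Real.cosh (lam * (z - Real.pi))| * (|dot κ A j (j + 1) t z|
            * |dot κ A j (j + 2) t z|) := by
          simp only [abs_mul, abs_two]
      _ ≤ 2 * D * (2 * R * eW A B t z + 2 * R * eW A B t z)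
          + 2 * Real.cosh (lam * Real.pi) * (4 * R ^ 2 * eW A B t z) := by
          refine add_le_add (mul_le_mul (by linarith) ?_ (abs_nonneg _) (by positivity))
            (mul_le_mul (by linarith) (q2 _ _ _ _) (by positivity) (by positivity))
          refine (abs_add_le _ _).trans (add_le_add ?_ ?_)
          · rw [abs_mul]; exact q1 _ _ _
          · rw [abs_mul]; exact q1 _ _ _
      _ = C1 * eW A B t z := by rw [hC1]; ring
  rw [intervalIntegral.integral_const_mul, abs_mul, abs_of_pos hD0] at h2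
  have hint : 0 ≤ ∫ z in (0 : ℝ)..Real.pi, eW A B t z :=
    intervalIntegral.integral_nonneg Real.pi_pos.le fun z _ => eW_nonneg t z
  rw [div_mul_eq_mul_div, le_div_iff₀ hD0]
  calc |P j t 0| * D = D * |P j t 0| := mul_comm _ _
    _ ≤ C1 * ∫ z in (0 : ℝ)..Real.pi, eW A B t z := h2
    _ ≤ (C1 + 1) * ∫ z in (0 : ℝ)..Real.pi, eW A B t z :=
        mul_le_mul_of_nonneg_right (by linarith) hint

/-- The vertical vorticity modes at the plane `z = 0`. -/
noncomputable def cr (κ : Fin 3 → Fin 2 → ℝ) (A : Fin 3 → Fin 2 → ℝ → ℝ → ℝ) (j : Fin 3)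
    (t : ℝ) : ℝ := κ j 0 * A j 1 t 0 - κ j 1 * A j 0 t 0

theorem TSys.hasDerivAt_A0 (h : TSys κ T A B P) {t : ℝ} (ht : t ∈ Ioo 0 T) (j : Fin 3) (i : Fin 2) :
    HasDerivAt (fun s => A j i s 0) (-(dot κ A (j + 1) (j + 2) t 0 * A (j + 1) i t 0)
      - dot κ A (j + 2) (j + 1) t 0 * A (j + 2) i t 0 - κ j i * P j t 0) t := by
  refine ((h.c1A j i).hasDerivAt_t ht 0).congr_deriv ?_
  have hI : t ∈ Ico 0 T := ⟨ht.1.le, ht.2⟩
  have e := h.eqA j i t ht 0
  rw [h.B_zero hI, h.B_zero hI] at e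
  unfold dot
  simp only [Fin.sum_univ_two] at e ⊢
  linarith

theorem sum3 (hκ : ∀ e, κ 0 e + κ 1 e + κ 2 e = 0) (j : Fin 3) (e : Fin 2) :
    κ j e = -κ (j + 1) e - κ (j + 2) e := by
  have := hκ e
  fin_cases j
  · show κ 0 e = -κ 1 e - κ 2 e
    linarith
  · show κ 1 e = -κ 2 e - κ 0 e
    linarith
  · show κ 2 e = -κ 0 e - κ 1 e
    linarith

theorem TSys.hasDerivAt_cr (h : TSys κ T A B P) (hκ : ∀ e, κ 0 e + κ 1 e + κ 2 e = 0) {t : ℝ}
    (ht : t ∈ Ioo 0 T) (j : Fin 3) :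
    HasDerivAt (cr κ A j) (-(dot κ A j (j + 2) t 0 * cr κ A (j + 1) t)
      - dot κ A j (j + 1) t 0 * cr κ A (j + 2) t) t := by
  unfold cr
  refine (((h.hasDerivAt_A0 ht j 1).const_mul (κ j 0)).sub
    ((h.hasDerivAt_A0 ht j 0).const_mul (κ j 1))).congr_deriv ?_
  unfold dot
  simp only [Fin.sum_univ_two]
  rw [sum3 hκ j 0, sum3 hκ j 1]
  ring

theorem TSys.cr_zero (h : TSys κ T A B P) (hκ : ∀ e, κ 0 e + κ 1 e + κ 2 e = 0)
    (h0 : ∀ j, cr κ A j 0 = 0) {b : ℝ} (hb : b ∈ Ico 0 T) (j : Fin 3) : cr κ A j b = 0 := by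
  have hsub : Icc 0 b ⊆ Ico 0 T := Icc_subset_Ico_right hb.2
  have hcA : ∀ j i, ContinuousOn (fun s => A j i s 0) (Icc 0 b) := fun j i =>
    ((h.c1A j i).slice_t 0).mono hsub
  have hcc : ∀ j, ContinuousOn (cr κ A j) (Icc 0 b) := fun j => by
    unfold cr
    exact (continuousOn_const.mul (hcA j 1)).sub (continuousOn_const.mul (hcA j 0))
  have hcd : ∀ i j, ContinuousOn (fun s => dot κ A i j s 0) (Icc 0 b) := fun i j => by
    unfold dot
    exact continuousOn_finsetSum _ fun e _ => continuousOn_const.mul (hcA j e)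
  obtain ⟨M, hM0, hM⟩ : ∃ M, 0 ≤ M ∧ ∀ i j, ∀ s ∈ Icc 0 b, |dot κ A i j s 0| ≤ M := by
    have : ∀ i j, ∃ M, 0 ≤ M ∧ ∀ s ∈ Icc 0 b, |dot κ A i j s 0| ≤ M := by
      intro i j
      obtain ⟨M, hM⟩ := isCompact_Icc.exists_bound_of_continuousOn (hcd i j)
      exact ⟨|M|, abs_nonneg _, fun s hs => (hM s hs).trans (le_abs_self _)⟩
    choose M hM0 hM using this
    refine ⟨∑ i, ∑ j, M i j, Finset.sum_nonneg fun i _ => Finset.sum_nonneg fun j _ => hM0 i j,
      fun i j s hs => (hM i j s hs).trans ?_⟩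
    exact (Finset.single_le_sum (f := fun j => M i j) (fun j _ => hM0 i j)
      (Finset.mem_univ j)).trans (Finset.single_le_sum (f := fun i => ∑ j, M i j)
        (fun i _ => Finset.sum_nonneg fun j _ => hM0 i j) (Finset.mem_univ i))
  set V : ℝ → ℝ := fun s => cr κ A 0 s ^ 2 + cr κ A 1 s ^ 2 + cr κ A 2 s ^ 2 with hV
  have hder : ∀ t ∈ Ioo 0 b, HasDerivAt (fun s => V s * Real.exp (-(4 * M) * s))
      ((((2 : ℕ) : ℝ) * cr κ A 0 t ^ (2 - 1) * (-(dot κ A 0 (0 + 2) t 0 * cr κ A (0 + 1) t)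
          - dot κ A 0 (0 + 1) t 0 * cr κ A (0 + 2) t)
        + ((2 : ℕ) : ℝ) * cr κ A 1 t ^ (2 - 1) * (-(dot κ A 1 (1 + 2) t 0 * cr κ A (1 + 1) t)
          - dot κ A 1 (1 + 1) t 0 * cr κ A (1 + 2) t)
        + ((2 : ℕ) : ℝ) * cr κ A 2 t ^ (2 - 1) * (-(dot κ A 2 (2 + 2) t 0 * cr κ A (2 + 1) t)
          - dot κ A 2 (2 + 1) t 0 * cr κ A (2 + 2) t)) * Real.exp (-(4 * M) * t)
        + V t * (Real.exp (-(4 * M) * t) * (-(4 * M)))) t := by
    intro t ht
    have htT : t ∈ Ioo 0 T := ⟨ht.1, ht.2.trans hb.2⟩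
    have h2 : HasDerivAt (fun t => Real.exp (-(4 * M) * t))
        (Real.exp (-(4 * M) * t) * (-(4 * M))) t := by
      have := ((hasDerivAt_id t).const_mul (-(4 * M))).exp
      simpa using this
    exact ((((h.hasDerivAt_cr hκ htT 0).pow 2).add ((h.hasDerivAt_cr hκ htT 1).pow 2)).add
      ((h.hasDerivAt_cr hκ htT 2).pow 2)).mul h2
  have hanti : AntitoneOn (fun s => V s * Real.exp (-(4 * M) * s)) (Icc 0 b) := by
    refine antitoneOn_of_deriv_nonpos (convex_Icc 0 b) ?_ ?_ ?_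
    · exact ((((hcc 0).pow 2).add ((hcc 1).pow 2)).add ((hcc 2).pow 2)).mul (by fun_prop)
    · rw [interior_Icc]
      exact fun t ht => (hder t ht).differentiableAt.differentiableWithinAt
    · rw [interior_Icc]
      intro t ht
      rw [(hder t ht).deriv]
      have htc : t ∈ Icc 0 b := ⟨ht.1.le, ht.2.le⟩
      have h3 := Real.exp_pos (-(4 * M) * t)
      have r1 : (0 : Fin 3) + 1 = 1 := rfl
      have r2 : (0 : Fin 3) + 2 = 2 := rfl
      have r3 : (1 : Fin 3) + 1 = 2 := rfl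
      have r4 : (1 : Fin 3) + 2 = 0 := rfl
      have r5 : (2 : Fin 3) + 1 = 0 := rfl
      have r6 : (2 : Fin 3) + 2 = 1 := rfl
      rw [r1, r2, r3, r4, r5, r6]
      set x := cr κ A 0 t
      set y := cr κ A 1 t
      set z := cr κ A 2 t
      have key : ∀ (D x y : ℝ), |D| ≤ M → -(2 * x * (D * y)) ≤ M * (x ^ 2 + y ^ 2) := by
        intro D x y hD
        have h4 : -(2 * x * (D * y)) ≤ |D| * (2 * (|x| * |y|)) := by
          calc -(2 * x * (D * y)) ≤ |-(2 * x * (D * y))| := le_abs_self _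
            _ = |D| * (2 * (|x| * |y|)) := by
                rw [abs_neg, abs_mul, abs_mul, abs_mul, abs_of_pos (by norm_num : (0:ℝ) < 2)]
                ring
        have h5 : 2 * (|x| * |y|) ≤ x ^ 2 + y ^ 2 := by
          rw [← sq_abs x, ← sq_abs y]
          nlinarith [sq_nonneg (|x| - |y|)]
        calc _ ≤ |D| * (2 * (|x| * |y|)) := h4
          _ ≤ M * (x ^ 2 + y ^ 2) := mul_le_mul hD h5 (by positivity) hM0
      have k1 := key (dot κ A 0 2 t 0) x y (hM 0 2 t htc)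
      have k2 := key (dot κ A 0 1 t 0) x z (hM 0 1 t htc)
      have k3 := key (dot κ A 1 0 t 0) y z (hM 1 0 t htc)
      have k4 := key (dot κ A 1 2 t 0) y x (hM 1 2 t htc)
      have k5 := key (dot κ A 2 1 t 0) z x (hM 2 1 t htc)
      have k6 := key (dot κ A 2 0 t 0) z y (hM 2 0 t htc)
      have hVt : V t = x ^ 2 + y ^ 2 + z ^ 2 := rfl
      rw [hVt]
      have h7 : ((2 : ℕ) : ℝ) * x ^ (2 - 1) * (-(dot κ A 0 2 t 0 * y) - dot κ A 0 1 t 0 * z)
        + ((2 : ℕ) : ℝ) * y ^ (2 - 1) * (-(dot κ A 1 0 t 0 * z) - dot κ A 1 2 t 0 * x)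
        + ((2 : ℕ) : ℝ) * z ^ (2 - 1) * (-(dot κ A 2 1 t 0 * x) - dot κ A 2 0 t 0 * y)
        ≤ 4 * M * (x ^ 2 + y ^ 2 + z ^ 2) := by
        simp only [Nat.add_one_sub_one, pow_one]
        push_cast
        nlinarith
      nlinarith
  have h5 := hanti (left_mem_Icc.2 hb.1) (right_mem_Icc.2 hb.1) hb.1
  have hV0 : V 0 = 0 := by simp only [hV, h0]; norm_num
  simp only [hV0, zero_mul] at h5
  have h6 : V b ≤ 0 := by
    by_contra hcon
    push Not at hcon
    exact absurd h5 (not_le.2 (mul_pos hcon (Real.exp_pos _)))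
  have h7 : cr κ A 0 b ^ 2 + cr κ A 1 b ^ 2 + cr κ A 2 b ^ 2 ≤ 0 := h6
  have q0 := sq_nonneg (cr κ A 0 b)
  have q1 := sq_nonneg (cr κ A 1 b)
  have q2 := sq_nonneg (cr κ A 2 b)
  fin_cases j
  · exact pow_eq_zero_iff (two_ne_zero) |>.1 (by linarith : cr κ A 0 b ^ 2 = 0)
  · exact pow_eq_zero_iff (two_ne_zero) |>.1 (by linarith : cr κ A 1 b ^ 2 = 0)
  · exact pow_eq_zero_iff (two_ne_zero) |>.1 (by linarith : cr κ A 2 b ^ 2 = 0)

/-- Blow-up for acute triads and small energy. -/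
theorem TSys.blowup (κ : Fin 3 → Fin 2 → ℝ) (hκ : ∀ e, κ 0 e + κ 1 e + κ 2 e = 0)
    (hac : ∀ j, ∑ e, κ (j + 1) e * κ (j + 2) e ≤ -1) :
    ∃ δ, 0 < δ ∧ ∀ (T : ℝ) (A : Fin 3 → Fin 2 → ℝ → ℝ → ℝ) (B P : Fin 3 → ℝ → ℝ → ℝ),
      TSys κ T A B P → (∀ j e, A j e 0 0 = -κ j e) →
      (∀ t ∈ Ico 0 T, ∫ z in (0 : ℝ)..Real.pi, eW A B t z ≤ δ) → T ≤ 2 := by
  have hpos : ∀ j, 0 < ∑ e, κ j e ^ 2 := by
    intro j
    have h1 := hac (j + 2)
    have h2 : j + 2 + 1 = j := by fin_cases j <;> rfl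
    rw [h2] at h1
    by_contra hcon
    push Not at hcon
    rw [Fin.sum_univ_two] at hcon h1
    have h3 : κ j 0 = 0 := by nlinarith [sq_nonneg (κ j 0), sq_nonneg (κ j 1)]
    have h4 : κ j 1 = 0 := by nlinarith [sq_nonneg (κ j 0), sq_nonneg (κ j 1)]
    rw [h3, h4] at h1
    linarith
  have hb := fun j => TSys.press_bound1 hκ j (hpos j)
  choose C hC0 hC using hb
  set Ct := C 0 + C 1 + C 2 with hCt
  have hCt0 : 0 < Ct := by have := hC0 0; have := hC0 1; have := hC0 2; linarith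
  have hCle : ∀ j, C j ≤ Ct := by
    have := hC0 0; have := hC0 1; have := hC0 2
    intro j
    fin_cases j
    · show C 0 ≤ Ct
      linarith
    · show C 1 ≤ Ct
      linarith
    · show C 2 ≤ Ct
      linarith
  refine ⟨1 / (2 * Ct), by positivity, fun T A B P h h0 hE => ?_⟩
  rcases le_or_gt T 0 with hT | hT
  · linarith
  have hP : ∀ j, ∀ t ∈ Ioo 0 T, |P j t 0| ≤ 1 / 2 := by
    intro j t ht
    have h1 := hC j T A B P h t ht
    have h2 := hE t ⟨ht.1.le, ht.2⟩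
    have h3 : 0 ≤ ∫ z in (0 : ℝ)..Real.pi, eW A B t z :=
      intervalIntegral.integral_nonneg Real.pi_pos.le fun z _ => eW_nonneg t z
    calc |P j t 0| ≤ C j * ∫ z in (0 : ℝ)..Real.pi, eW A B t z := h1
      _ ≤ Ct * (1 / (2 * Ct)) := mul_le_mul (hCle j) h2 h3 hCt0.le
      _ = 1 / 2 := by field_simp
  have hcr : ∀ t ∈ Ico 0 T, ∀ j, cr κ A j t = 0 := fun t ht j =>
    h.cr_zero hκ (fun j => by unfold cr; rw [h0, h0]; ring) ht j
  -- the potential amplitudes
  set N : Fin 3 → ℝ := fun j => ∑ e, κ j e ^ 2 with hN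
  set s : Fin 3 → ℝ → ℝ := fun j t => -(dot κ A j j t 0) / N j with hs
  have hAs : ∀ t ∈ Ico 0 T, ∀ j e, A j e t 0 = -(s j t) * κ j e := by
    intro t ht j e
    have h1 := hcr t ht j
    have h2 : N j ≠ 0 := (hpos j).ne'
    have h3 : N j * A j e t 0 = dot κ A j j t 0 * κ j e := by
      simp only [hN]
      unfold cr at h1
      unfold dot
      simp only [Fin.sum_univ_two]
      fin_cases e
      · show (κ j 0 ^ 2 + κ j 1 ^ 2) * A j 0 t 0 = (κ j 0 * A j 0 t 0 + κ j 1 * A j 1 t 0) * κ j 0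
        linear_combination -κ j 1 * h1
      · show (κ j 0 ^ 2 + κ j 1 ^ 2) * A j 1 t 0 = (κ j 0 * A j 0 t 0 + κ j 1 * A j 1 t 0) * κ j 1
        linear_combination κ j 0 * h1
    have h4 : -(s j t) * κ j e = (dot κ A j j t 0 * κ j e) / N j := by
      simp only [hs]; ring
    rw [h4, ← h3, mul_div_cancel_left₀ _ h2]
  have hdots : ∀ t ∈ Ico 0 T, ∀ i j, dot κ A i j t 0 = -(s j t) * ∑ e, κ i e * κ j e := by
    intro t ht i j
    unfold dot
    rw [Finset.mul_sum]
    refine Finset.sum_congr rfl fun e _ => ?_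
    rw [hAs t ht j e]
    ring
  refine riccati3 (s := s) (s' := fun j t => -(∑ e, κ (j + 1) e * κ (j + 2) e) * (s (j + 1) t
    * s (j + 2) t) + P j t 0) ?_ ?_ ?_ ?_
  · intro j
    simp only [hs]
    refine ContinuousOn.div_const (ContinuousOn.neg ?_) _
    unfold dot
    exact continuousOn_finsetSum _ fun e _ => continuousOn_const.mul ((h.c1A j e).slice_t 0)
  · intro j
    simp only [hs, hN]
    unfold dot
    simp only [h0]
    rw [Fin.sum_univ_two, Fin.sum_univ_two, div_eq_one_iff_eq]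
    · ring
    · have := hpos j
      rw [Fin.sum_univ_two] at this
      exact this.ne'
  · intro j t ht
    have hI : t ∈ Ico 0 T := ⟨ht.1.le, ht.2⟩
    have h1 : HasDerivAt (fun t => dot κ A j j t 0) (∑ e, κ j e * (-(dot κ A (j + 1) (j + 2) t 0
        * A (j + 1) e t 0) - dot κ A (j + 2) (j + 1) t 0 * A (j + 2) e t 0 - κ j e * P j t 0)) t := by
      unfold dot
      exact HasDerivAt.fun_sum fun e _ => (h.hasDerivAt_A0 ht j e).const_mul (κ j e)
    refine ((h1.neg).div_const (N j)).congr_deriv ?_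
    have h2 : N j ≠ 0 := (hpos j).ne'
    rw [div_eq_iff h2]
    simp only [hdots t hI, hAs t hI, hN]
    simp only [Fin.sum_univ_two]
    rw [sum3 hκ j 0, sum3 hκ j 1]
    ring
  · intro j t ht hnn
    have h1 := hac j
    have h2 := neg_le_of_abs_le (hP j t ht)
    have h3 := mul_nonneg (hnn (j + 1)) (hnn (j + 2))
    nlinarith

end Pool.Agent.N983.GT
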