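import Pool.Agent.N983.GT.Red2
import Pool.Agent.N983.GT.TBlow

/-!
Conservation of energy, and blow-up of the mode system.
-/

open MeasureTheory Set Filter Topology
open scoped ContDiff ComplexConjugate

namespace Pool.Agent.N983.GT

variable {S : Finset Z2} {T : ℝ} {w : Z2 → Fin 3 → ℝ → ℝ → ℂ} {p : Z2 → ℝ → ℝ → ℂ}
  {K : Fin 3 → Z2} {θ Θ : ℝ → ℝ}

theorem deriv_zero_fun (z : ℝ) : deriv (fun _ : ℝ => (0 : ℂ)) z = 0 := by simp

theorem mzero (S : Finset Z2) (T : ℝ) : MSol S T (fun _ _ _ _ => 0) (fun _ _ _ => 0) where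
  c1 _ _ := contDiffOn_const
  c1p _ := contDiffOn_const
  per _ _ _ _ _ := rfl
  perp _ _ _ _ := rfl
  supp _ _ _ _ _ := rfl
  real _ _ _ _ _ := by simp
  div k t ht z := by unfold dv; simp
  mom k hk i t ht z := by
    unfold conv gr
    fin_cases i <;> simp

theorem MSol.energy (h : MSol S T w p) {t : ℝ} (ht : t ∈ Ico 0 T) :
    dE S w (fun _ _ _ _ => 0) t ≤ dE S w (fun _ _ _ _ => 0) 0 := by
  have hz := mzero S T
  have hT : 0 < T := ht.1.trans_lt ht.2
  have hsub : Icc 0 t ⊆ Ico 0 T := Icc_subset_Ico_right ht.2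
  have hd : ∀ s ∈ Ioo 0 T, HasDerivAt (dE S w (fun _ _ _ _ => 0)) 0 s := by
    intro s hs
    refine (dE_hasDerivAt h hz hs).congr_deriv ?_
    have e : ∀ z, ∑ k ∈ S, ∑ i, (conj (w k i s z - 0)
        * conv S (fun k i z => w k i s z - 0) (fun k i => (fun _ => (0 : ℂ))) k i z).re = 0 := by
      intro z
      refine Finset.sum_eq_zero fun k _ => Finset.sum_eq_zero fun i _ => ?_
      unfold conv
      simp
    have e2 : (∫ z in (-Real.pi)..Real.pi, ∑ k ∈ S, ∑ i, (conj (w k i s z - 0)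
        * conv S (fun k i z => w k i s z - 0) (fun k i => (fun _ => (0 : ℂ))) k i z).re) = 0 := by
      simp_rw [e]
      simp
    rw [e2]
    ring
  have hanti : AntitoneOn (dE S w (fun _ _ _ _ => 0)) (Icc 0 t) := by
    refine antitoneOn_of_deriv_nonpos (convex_Icc 0 t) ((dE_continuousOn h hz).mono hsub) ?_ ?_
    · rw [interior_Icc]
      exact fun s hs => (hd s ⟨hs.1, hs.2.trans ht.2⟩).differentiableAt.differentiableWithinAt
    · rw [interior_Icc]
      intro s hs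
      rw [(hd s ⟨hs.1, hs.2.trans ht.2⟩).deriv]
  exact hanti (left_mem_Icc.2 ht.1) (right_mem_Icc.2 ht.1) ht.1

theorem Iso.inj (hI : Iso S K) : Function.Injective K := by
  have h : ∀ j, K (j + 1) ≠ K (j + 2) := fun j hc => hI.ne j (by rw [hc])
  have h0 := h 0
  have h1 := h 1
  have h2 := h 2
  have r1 : (0 : Fin 3) + 1 = 1 := rfl
  have r2 : (0 : Fin 3) + 2 = 2 := rfl
  have r3 : (1 : Fin 3) + 1 = 2 := rfl
  have r4 : (1 : Fin 3) + 2 = 0 := rfl
  have r5 : (2 : Fin 3) + 1 = 0 := rfl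
  have r6 : (2 : Fin 3) + 2 = 1 := rfl
  rw [r1, r2] at h0
  rw [r3, r4] at h1
  rw [r5, r6] at h2
  intro a b hab
  fin_cases a <;> fin_cases b
  · rfl
  · exact absurd hab h2
  · exact absurd hab.symm h1
  · exact absurd hab.symm h2
  · rfl
  · exact absurd hab h0
  · exact absurd hab h1
  · exact absurd hab.symm h0
  · rfl

/-- The energy of the triad is at most the total energy. -/
theorem eW_le (h : MSol S T w p) (hI : Iso S K) {t : ℝ} (ht : t ∈ Ico 0 T) :
    ∫ z in (0 : ℝ)..Real.pi, eW (Am K w) (Bm K w) t z ≤ dE S w (fun _ _ _ _ => 0) t := by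
  have hz := mzero S T
  have hW := ((dW_c1 h hz).slice ht).continuous
  have h1 : ∀ z, eW (Am K w) (Bm K w) t z ≤ dW S w (fun _ _ _ _ => 0) t z := by
    intro z
    unfold eW dW
    simp only [sub_zero]
    calc ∑ j, (∑ e, Am K w j e t z ^ 2 + Bm K w j t z ^ 2)
        ≤ ∑ j, ∑ i, ‖w (K j) i t z‖ ^ 2 := by
          refine Finset.sum_le_sum fun j _ => ?_
          rw [Fin.sum_univ_two, Fin.sum_univ_three]
          unfold Am Bm
          have a1 : ∀ x : ℂ, x.im ^ 2 ≤ ‖x‖ ^ 2 := by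
            intro x
            rw [← Complex.normSq_eq_norm_sq, Complex.normSq_apply]
            nlinarith [mul_self_nonneg x.re]
          have a2 : ∀ x : ℂ, x.re ^ 2 ≤ ‖x‖ ^ 2 := by
            intro x
            rw [← Complex.normSq_eq_norm_sq, Complex.normSq_apply]
            nlinarith [mul_self_nonneg x.im]
          exact add_le_add (add_le_add (a1 _) (a1 _)) (a2 _)
      _ = ∑ k ∈ Finset.univ.image K, ∑ i, ‖w k i t z‖ ^ 2 := by
          rw [Finset.sum_image (fun a _ b _ hab => hI.inj hab)]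
      _ ≤ ∑ k ∈ S, ∑ i, ‖w k i t z‖ ^ 2 := by
          refine Finset.sum_le_sum_of_subset_of_nonneg ?_ (fun _ _ _ => by positivity)
          intro k hk
          obtain ⟨j, _, rfl⟩ := Finset.mem_image.1 hk
          exact hI.mem j
  have hc : Continuous (fun z => eW (Am K w) (Bm K w) t z) := by
    unfold eW Am Bm
    have c1 : ∀ k i, Continuous (w k i t) := fun k i => ((h.c1 k i).slice ht).continuous
    refine continuous_finsetSum _ fun j _ => ((continuous_finsetSum _ fun e _ => ?_).add ?_)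
    · exact (Complex.continuous_im.comp (c1 _ _)).pow 2
    · exact (Complex.continuous_re.comp (c1 _ _)).pow 2
  unfold dE
  calc ∫ z in (0 : ℝ)..Real.pi, eW (Am K w) (Bm K w) t z
      ≤ ∫ z in (0 : ℝ)..Real.pi, dW S w (fun _ _ _ _ => 0) t z :=
        intervalIntegral.integral_mono_on Real.pi_pos.le (hc.intervalIntegrable _ _)
          (hW.intervalIntegrable _ _) fun z _ => h1 z
    _ ≤ ∫ z in (-Real.pi)..Real.pi, dW S w (fun _ _ _ _ => 0) t z := by
        have e := intervalIntegral.integral_add_adjacent_intervals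
          (hW.intervalIntegrable (-Real.pi) 0) (hW.intervalIntegrable 0 Real.pi)
          (μ := volume)
        have h2 : 0 ≤ ∫ z in (-Real.pi)..(0 : ℝ), dW S w (fun _ _ _ _ => 0) t z :=
          intervalIntegral.integral_nonneg (by linarith [Real.pi_pos]) fun z _ => dW_nonneg t z
        rw [← e]
        linarith

/-- The energy of the datum. -/
theorem dE_dat (h0 : ∀ k i z, w k i 0 z = dat K θ Θ k i z) {R : ℝ} (hR0 : 0 ≤ R)
    (hR : ∀ q ∈ S, |(q.1 : ℝ)| ≤ R ∧ |(q.2 : ℝ)| ≤ R) (hθ : Continuous θ) (hΘ : Continuous Θ)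
    {ε : ℝ} (hε : ∫ z in (-Real.pi)..Real.pi, (θ z ^ 2 + Θ z ^ 2) ≤ ε) :
    dE S w (fun _ _ _ _ => 0) 0 ≤ S.card * (2 * R ^ 2 + 4 * R ^ 4) * ε := by
  have h1 : ∀ z, dW S w (fun _ _ _ _ => 0) 0 z
      ≤ (S.card * (2 * R ^ 2 + 4 * R ^ 4)) * (θ z ^ 2 + Θ z ^ 2) := by
    intro z
    unfold dW
    simp only [sub_zero, h0]
    calc ∑ k ∈ S, ∑ i, ‖dat K θ Θ k i z‖ ^ 2
        ≤ ∑ k ∈ S, (2 * R ^ 2 + 4 * R ^ 4) * (θ z ^ 2 + Θ z ^ 2) := by
          refine Finset.sum_le_sum fun k hk => ?_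
          obtain ⟨r1, r2⟩ := hR k hk
          have q1 : ((k.1 : ℝ)) ^ 2 ≤ R ^ 2 := by rw [← sq_abs]; gcongr
          have q2 : ((k.2 : ℝ)) ^ 2 ≤ R ^ 2 := by rw [← sq_abs]; gcongr
          unfold dat
          by_cases hT : InT K k
          · simp only [if_pos hT]
            rw [Fin.sum_univ_three]
            simp only [Matrix.cons_val_zero, Matrix.cons_val_one, Matrix.cons_val]
            have n1 : ‖-Complex.I * (k.1 : ℂ) * (θ z : ℂ)‖ ^ 2 = (k.1 : ℝ) ^ 2 * θ z ^ 2 := by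
              rw [norm_mul, norm_mul, norm_neg, Complex.norm_I, one_mul, ← Complex.ofReal_intCast,
                Complex.norm_real, Complex.norm_real, Real.norm_eq_abs, Real.norm_eq_abs, mul_pow,
                sq_abs, sq_abs]
            have n2 : ‖-Complex.I * (k.2 : ℂ) * (θ z : ℂ)‖ ^ 2 = (k.2 : ℝ) ^ 2 * θ z ^ 2 := by
              rw [norm_mul, norm_mul, norm_neg, Complex.norm_I, one_mul, ← Complex.ofReal_intCast,
                Complex.norm_real, Complex.norm_real, Real.norm_eq_abs, Real.norm_eq_abs, mul_pow,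
                sq_abs, sq_abs]
            have n3 : ‖-((k.1 : ℂ) ^ 2 + (k.2 : ℂ) ^ 2) * (Θ z : ℂ)‖ ^ 2
                = ((k.1 : ℝ) ^ 2 + (k.2 : ℝ) ^ 2) ^ 2 * Θ z ^ 2 := by
              have : (-((k.1 : ℂ) ^ 2 + (k.2 : ℂ) ^ 2) * (Θ z : ℂ))
                  = ((-((k.1 : ℝ) ^ 2 + (k.2 : ℝ) ^ 2) * Θ z : ℝ) : ℂ) := by push_cast; ring
              rw [this, Complex.norm_real, Real.norm_eq_abs, sq_abs]
              ring
            rw [n1, n2, n3]
            have m1 : (k.1 : ℝ) ^ 2 * θ z ^ 2 ≤ R ^ 2 * θ z ^ 2 :=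
              mul_le_mul_of_nonneg_right q1 (sq_nonneg _)
            have m2 : (k.2 : ℝ) ^ 2 * θ z ^ 2 ≤ R ^ 2 * θ z ^ 2 :=
              mul_le_mul_of_nonneg_right q2 (sq_nonneg _)
            have m3 : ((k.1 : ℝ) ^ 2 + (k.2 : ℝ) ^ 2) ^ 2 ≤ 4 * R ^ 4 := by
              have : (k.1 : ℝ) ^ 2 + (k.2 : ℝ) ^ 2 ≤ 2 * R ^ 2 := by linarith
              calc _ ≤ (2 * R ^ 2) ^ 2 := pow_le_pow_left₀ (by positivity) this 2
                _ = _ := by ring
            have m4 : ((k.1 : ℝ) ^ 2 + (k.2 : ℝ) ^ 2) ^ 2 * Θ z ^ 2 ≤ 4 * R ^ 4 * Θ z ^ 2 :=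
              mul_le_mul_of_nonneg_right m3 (sq_nonneg _)
            have m5 : 0 ≤ 4 * R ^ 4 * θ z ^ 2 := by positivity
            have m6 : 0 ≤ 2 * R ^ 2 * Θ z ^ 2 := by positivity
            nlinarith
          · simp only [if_neg hT, norm_zero]
            rw [zero_pow (by norm_num)]
            simp only [Finset.sum_const_zero]
            positivity
      _ = _ := by rw [Finset.sum_const, nsmul_eq_mul]; ring
  have hdWc : Continuous (fun z => dW S w (fun _ _ _ _ => 0) 0 z) := by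
    unfold dW
    simp only [sub_zero, h0]
    refine continuous_finsetSum _ fun k _ => continuous_finsetSum _ fun i _ => ?_
    refine (Continuous.norm ?_).pow 2
    unfold dat
    by_cases hT : InT K k
    · simp only [if_pos hT]
      fin_cases i
      · simp only [Fin.zero_eta, Matrix.cons_val_zero]; fun_prop
      · simp only [Fin.mk_one, Matrix.cons_val_one, Matrix.cons_val_zero]; fun_prop
      · simp only [Fin.reduceFinMk, Matrix.cons_val]; fun_prop
    · simp only [if_neg hT]; exact continuous_const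
  unfold dE
  calc ∫ z in (-Real.pi)..Real.pi, dW S w (fun _ _ _ _ => 0) 0 z
      ≤ ∫ z in (-Real.pi)..Real.pi, (S.card * (2 * R ^ 2 + 4 * R ^ 4)) * (θ z ^ 2 + Θ z ^ 2) :=
        intervalIntegral.integral_mono_on (by linarith [Real.pi_pos])
          (hdWc.intervalIntegrable _ _) ((by fun_prop : Continuous _).intervalIntegrable _ _)
          fun z _ => h1 z
    _ = (S.card * (2 * R ^ 2 + 4 * R ^ 4)) * ∫ z in (-Real.pi)..Real.pi, (θ z ^ 2 + Θ z ^ 2) :=
        intervalIntegral.integral_const_mul _ _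
    _ ≤ _ := mul_le_mul_of_nonneg_left hε (by positivity)

/-- Blow-up of the mode system. -/
theorem mode_blowup (hI : Iso S K) (hac : ∀ j, (K (j + 1)).1 * (K (j + 2)).1
      + (K (j + 1)).2 * (K (j + 2)).2 ≤ -1) :
    ∃ ε, 0 < ε ∧ ∀ θ Θ : ℝ → ℝ, Continuous θ → Continuous Θ → (∀ z, θ (-z) = θ z) →
      (∀ z, Θ (-z) = -Θ z) → θ 0 = 1 → ∫ z in (-Real.pi)..Real.pi, (θ z ^ 2 + Θ z ^ 2) ≤ ε →
      ∀ (T : ℝ) (w : Z2 → Fin 3 → ℝ → ℝ → ℂ) (p : Z2 → ℝ → ℝ → ℂ), MSol S T w p →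
        (∀ k i z, w k i 0 z = dat K θ Θ k i z) → T ≤ 2 := by
  have hκ : ∀ e, kap K 0 e + kap K 1 e + kap K 2 e = 0 := by
    intro e
    have := hI.K2
    unfold kap
    rw [this]
    split_ifs <;> simp
  have hac' : ∀ j, ∑ e, kap K (j + 1) e * kap K (j + 2) e ≤ -1 := by
    intro j
    rw [Fin.sum_univ_two]
    unfold kap
    simp only [if_true, Fin.isValue, one_ne_zero, if_false]
    exact_mod_cast hac j
  obtain ⟨δ, hδ, hb⟩ := TSys.blowup (kap K) hκ hac'
  obtain ⟨R, hR0, hR⟩ := exists_R S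
  set Q : ℝ := S.card * (2 * R ^ 2 + 4 * R ^ 4) with hQ
  have hQ0 : 0 ≤ Q := by positivity
  refine ⟨δ / (Q + 1), by positivity, fun θ Θ hθc hΘc hθ hΘ hθ0 hint T w p h h0 => ?_⟩
  refine hb T (Am K w) (Bm K w) (Pm K p) (tsys h hI h0 hθ hΘ) ?_ ?_
  · intro j e
    unfold Am
    rw [h0]
    unfold dat kap
    have hT : InT K (K j) := ⟨j, Or.inl rfl⟩
    rw [if_pos hT]
    fin_cases e
    · simp [hθ0]
    · simp [hθ0]
  · intro t ht
    calc _ ≤ dE S w (fun _ _ _ _ => 0) t := eW_le h hI ht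
      _ ≤ dE S w (fun _ _ _ _ => 0) 0 := h.energy ht
      _ ≤ Q * (δ / (Q + 1)) := dE_dat h0 hR0 hR hθc hΘc hint
      _ ≤ δ := by
          rw [mul_div_assoc', div_le_iff₀ (by positivity)]
          nlinarith

end Pool.Agent.N983.GT
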