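import Pool.Agent.N983.GT.Dat

/-!
The final assembly.
-/

open MeasureTheory Set Filter Topology
open scoped ContDiff ComplexConjugate

namespace Pool.Agent.N983.GT

variable {M : ℕ} {K : Fin 3 → Z2}

/-- The triad. -/
def KM (M : ℕ) : Fin 3 → Z2 := ![((M : ℤ), 0), (-1, (M : ℤ)), (1 - (M : ℤ), -(M : ℤ))]

theorem iso_KM (hM : 2 ≤ M) : Iso (box M) (KM M) := by
  have hM' : (2 : ℤ) ≤ M := by exact_mod_cast hM
  refine ⟨box_symm, ?_, ?_, ?_, ?_⟩
  · unfold KM
    ext
    · simp
      ring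
    · simp
  · intro j
    rw [mem_box]
    fin_cases j
    · simp [KM]
    · simp only [KM, Fin.mk_one, Matrix.cons_val_one, Matrix.cons_val_zero]
      constructor
      · rw [abs_neg, abs_one]; omega
      · rw [abs_of_nonneg (by omega)]
    · simp only [KM, Fin.reduceFinMk, Matrix.cons_val]
      constructor
      · rw [abs_of_nonpos (by omega)]; omega
      · rw [abs_neg, abs_of_nonneg (by omega)]
  · simp only [KM, Matrix.cons_val_zero, Matrix.cons_val_one]
    nlinarith
  · intro a b hab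
    rw [mem_box] at hab
    simp only [KM, Matrix.cons_val_zero, Matrix.cons_val_one, Prod.fst_add, Prod.smul_fst,
      Prod.snd_add, Prod.smul_snd, smul_eq_mul, mul_zero, zero_add] at hab
    obtain ⟨h1, h2⟩ := hab
    rw [abs_le] at h1 h2
    have hb1 : b ≤ 1 := by
      by_contra hcon
      push Not at hcon
      nlinarith
    have hb2 : -1 ≤ b := by
      by_contra hcon
      push Not at hcon
      nlinarith
    have hb : b = -1 ∨ b = 0 ∨ b = 1 := by omega
    have ha1 : a ≤ 1 := by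
      by_contra hcon
      push Not at hcon
      nlinarith
    have ha2 : -1 ≤ a := by
      by_contra hcon
      push Not at hcon
      nlinarith
    have ha : a = -1 ∨ a = 0 ∨ a = 1 := by omega
    rcases hb with rfl | rfl | rfl <;> rcases ha with rfl | rfl | rfl <;> simp <;> omega

theorem acute_KM (hM : 2 ≤ M) (j : Fin 3) : (KM M (j + 1)).1 * (KM M (j + 2)).1
    + (KM M (j + 1)).2 * (KM M (j + 2)).2 ≤ -1 := by
  have hM' : (2 : ℤ) ≤ M := by exact_mod_cast hM
  fin_cases j
  · show (-1) * (1 - (M : ℤ)) + (M : ℤ) * (-(M : ℤ)) ≤ -1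
    nlinarith
  · show (1 - (M : ℤ)) * (M : ℤ) + (-(M : ℤ)) * 0 ≤ -1
    nlinarith
  · show (M : ℤ) * (-1) + 0 * (M : ℤ) ≤ -1
    nlinarith

/-- The datum. -/
noncomputable def u0 (M : ℕ) (K : Fin 3 → Z2) (θ Θ : ℝ → ℝ) (x : Vec) (i : Fin 3) : ℝ :=
  ∑ q ∈ box M, open Classical in if InT K q then
    ![q.1 * θ (x 2) * Real.sin (q.1 * x 0 + q.2 * x 1),
      q.2 * θ (x 2) * Real.sin (q.1 * x 0 + q.2 * x 1),
      -((q.1 : ℝ) ^ 2 + (q.2 : ℝ) ^ 2) * Θ (x 2) * Real.cos (q.1 * x 0 + q.2 * x 1)] i else 0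

theorem sum_symm (f : Z2 → ℂ) : ∑ q ∈ box M, f q = ∑ q ∈ box M, (1 / 2) * (f q + f (-q)) := by
  have h : ∑ q ∈ box M, f (-q) = ∑ q ∈ box M, f q :=
    Finset.sum_nbij' (fun q => -q) (fun q => -q) (fun q hq => box_symm q hq)
      (fun q hq => box_symm q hq) (fun q _ => neg_neg q) (fun q _ => neg_neg q) (fun q _ => rfl)
  rw [← Finset.mul_sum, Finset.sum_add_distrib, h]
  ring

theorem u0_repr (θ Θ : ℝ → ℝ) (i : Fin 3) (x : Vec) :
    ((u0 M K θ Θ x i : ℝ) : ℂ) = ∑ q ∈ box M, EE q (x 0) (x 1) * dat K θ Θ q i (x 2) := by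
  rw [sum_symm]
  unfold u0
  push_cast
  refine Finset.sum_congr rfl fun q _ => ?_
  unfold dat
  by_cases hq : InT K q
  · rw [if_pos hq, if_pos hq, if_pos hq.neg]
    have e1 : EE q (x 0) (x 1) = Complex.cos (q.1 * x 0 + q.2 * x 1)
        + Complex.sin (q.1 * x 0 + q.2 * x 1) * Complex.I := by
      unfold EE
      rw [mul_comm, Complex.exp_mul_I]
    have e2 : EE (-q) (x 0) (x 1) = Complex.cos (q.1 * x 0 + q.2 * x 1)
        - Complex.sin (q.1 * x 0 + q.2 * x 1) * Complex.I := by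
      unfold EE
      have : Complex.I * (((-q).1 : ℂ) * (x 0 : ℂ) + ((-q).2 : ℂ) * (x 1 : ℂ))
          = (-(q.1 * x 0 + q.2 * x 1 : ℂ)) * Complex.I := by
        simp only [Prod.fst_neg, Prod.snd_neg]
        push_cast
        ring
      rw [this, Complex.exp_mul_I, Complex.cos_neg, Complex.sin_neg]
      ring
    rw [e1, e2]
    fin_cases i
    · simp only [Fin.zero_eta, Matrix.cons_val_zero, Prod.fst_neg]
      push_cast
      linear_combination ((q.1 : ℂ) * (θ (x 2) : ℂ) * Complex.sin (q.1 * x 0 + q.2 * x 1))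
        * Complex.I_sq
    · simp only [Fin.mk_one, Matrix.cons_val_one, Matrix.cons_val_zero, Prod.snd_neg]
      push_cast
      linear_combination ((q.2 : ℂ) * (θ (x 2) : ℂ) * Complex.sin (q.1 * x 0 + q.2 * x 1))
        * Complex.I_sq
    · simp only [Fin.reduceFinMk, Matrix.cons_val, Prod.fst_neg, Prod.snd_neg]
      push_cast
      ring
  · rw [if_neg hq, if_neg hq, if_neg (fun h => hq (inT_neg.1 h))]
    simp

theorem th_trig (N : ℕ) : IsTrigPoly (fun x => th N (x 2)) := by
  unfold th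
  exact (IsTrigPoly.const _).mul (IsTrigPoly.sum fun n _ => (IsTrigPoly.nat (n + 1) 2).1)

theorem Th_trig (N : ℕ) : IsTrigPoly (fun x => Th N (x 2)) := by
  unfold Th
  simp only [div_eq_mul_inv]
  exact (IsTrigPoly.const _).mul (IsTrigPoly.sum fun n _ =>
    (IsTrigPoly.nat (n + 1) 2).2.mul (IsTrigPoly.const _))

theorem u0_trig (N : ℕ) (i : Fin 3) : IsTrigPoly (fun x => u0 M K (th N) (Th N) x i) := by
  unfold u0
  refine IsTrigPoly.sum fun q _ => ?_
  by_cases hq : InT K q
  · simp only [if_pos hq]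
    have h1 := (IsTrigPoly.char q).1
    have h2 := (IsTrigPoly.char q).2
    fin_cases i
    · simp only [Fin.zero_eta, Matrix.cons_val_zero]
      exact ((IsTrigPoly.const _).mul (th_trig N)).mul h2
    · simp only [Fin.mk_one, Matrix.cons_val_one, Matrix.cons_val_zero]
      exact ((IsTrigPoly.const _).mul (th_trig N)).mul h2
    · simp only [Fin.reduceFinMk, Matrix.cons_val]
      exact ((IsTrigPoly.const _).mul (Th_trig N)).mul h1
  · simp only [if_neg hq]
    exact IsTrigPoly.const 0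

theorem dat_hd (N : ℕ) (k : Z2) (i : Fin 3) (z : ℝ) :
    HasDerivAt (dat K (th N) (Th N) k i) (deriv (dat K (th N) (Th N) k i) z) z := by
  suffices DifferentiableAt ℝ (dat K (th N) (Th N) k i) z from this.hasDerivAt
  have hth : DifferentiableAt ℝ (th N) z := by
    unfold th
    fun_prop
  have h1 : DifferentiableAt ℝ (fun z => ((th N z : ℝ) : ℂ)) z :=
    (hth.hasDerivAt.ofReal_comp).differentiableAt
  have h2 : DifferentiableAt ℝ (fun z => ((Th N z : ℝ) : ℂ)) z :=
    ((Th_deriv N z).ofReal_comp).differentiableAt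
  unfold dat
  by_cases hq : InT K k
  · simp only [if_pos hq]
    fin_cases i
    · simp only [Fin.zero_eta, Matrix.cons_val_zero]
      exact h1.const_mul _
    · simp only [Fin.mk_one, Matrix.cons_val_one, Matrix.cons_val_zero]
      exact h1.const_mul _
    · simp only [Fin.reduceFinMk, Matrix.cons_val]
      exact h2.const_mul _
  · simp only [if_neg hq]
    exact differentiableAt_const _

theorem dv_dat (N : ℕ) (k : Z2) (z : ℝ) : dv (dat K (th N) (Th N)) k z = 0 := by
  unfold dv dat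
  by_cases hq : InT K k
  · simp only [if_pos hq]
    have h2 : HasDerivAt (fun z => -((k.1 : ℂ) ^ 2 + (k.2 : ℂ) ^ 2) * ((Th N z : ℝ) : ℂ))
        (-((k.1 : ℂ) ^ 2 + (k.2 : ℂ) ^ 2) * ((th N z : ℝ) : ℂ)) z :=
      ((Th_deriv N z).ofReal_comp).const_mul _
    simp only [Matrix.cons_val_zero, Matrix.cons_val_one, Matrix.cons_val]
    rw [h2.deriv]
    linear_combination (-((k.1 : ℂ) ^ 2 + (k.2 : ℂ) ^ 2) * ((th N z : ℝ) : ℂ)) * Complex.I_sq
  · simp only [if_neg hq]
    simp

theorem u0_div (N : ℕ) (x : Vec) : ∑ i, dx i (fun y => u0 M K (th N) (Th N) y i) x = 0 := by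
  have e : ∀ i, ((dx i (fun y => u0 M K (th N) (Th N) y i) x : ℝ) : ℂ) = ∑ q ∈ box M,
      EE q (x 0) (x 1) * dmode (fun q => dat K (th N) (Th N) q i) i q (x 2) := fun i =>
    dx_modes (((u0_trig (M := M) (K := K) N i).smooth.differentiable (by norm_cast)) x)
      (c := fun q => dat K (th N) (Th N) q i) (fun x => u0_repr (th N) (Th N) i x)
      (fun q z => dat_hd N q i z) i
  have h3 : ((∑ i, dx i (fun y => u0 M K (th N) (Th N) y i) x : ℝ) : ℂ) = 0 := by
    push_cast
    rw [Fin.sum_univ_three, e, e, e, ← Finset.sum_add_distrib, ← Finset.sum_add_distrib]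
    refine Finset.sum_eq_zero fun q _ => ?_
    have h := dv_dat (K := K) N q (x 2)
    unfold dv at h
    unfold dmode
    simp only [Matrix.cons_val_zero, Matrix.cons_val_one, Matrix.cons_val]
    linear_combination EE q (x 0) (x 1) * h
  exact_mod_cast h3

theorem zero_mem_box : (0 : Z2) ∈ box M := by
  rw [mem_box]
  simp

/-- Truncation of a sum of characters. -/
theorem trunc_of_repr {g : Vec → ℝ} {c : Z2 → ℝ → ℂ}
    (hg : ∀ x : Vec, ((g x : ℝ) : ℂ) = ∑ q ∈ box M, EE q (x 0) (x 1) * c q (x 2)) (x : Vec) :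
    trunc M g x = g x := by
  have h1 : ∀ x : Vec, ((g x : ℝ) : ℂ) = ∑ r ∈ box M, ∑ q ∈ box M, EE (r + q) (x 0) (x 1)
      * ((fun r q z => if r = 0 then c q z else 0) r q (x 2)) := by
    intro x
    rw [Finset.sum_eq_single (0 : Z2)]
    · rw [hg]
      refine Finset.sum_congr rfl fun q _ => ?_
      simp
    · intro r _ hr
      refine Finset.sum_eq_zero fun q _ => ?_
      simp [hr]
    · intro h
      exact absurd zero_mem_box h
  have h2 : ∀ k ∈ box M, ∀ z, coef k g z = c k z := by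
    intro k hk z
    rw [coef_sum (H := fun r q z => if r = 0 then c q z else 0) h1 k z,
      Finset.sum_eq_single (0 : Z2)]
    · simp only [zero_add, if_true]
      rw [Finset.sum_ite_eq' (box M) k, if_pos hk]
    · intro r _ hr
      refine Finset.sum_eq_zero fun q _ => ?_
      simp [hr]
    · intro h
      exact absurd zero_mem_box h
  unfold trunc
  rw [hg]
  refine Finset.sum_congr rfl fun k hk => ?_
  rw [h2 k hk]
  unfold EE
  ring

/-- The main theorem. -/
theorem main (hM : 2 ≤ M) : ∃ v : Vec → Vec, (∀ i, IsTrigPoly (fun x => v x i)) ∧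
    (∀ x, ∑ i, dx i (fun y => v y i) x = 0) ∧ (∀ x i, trunc M (fun y => v y i) x = v x i) ∧
    ∀ T, 2 < T → ¬ ∃ (u : ℝ → Vec → Vec) (p : ℝ → Vec → ℝ), IsSol M T u p ∧ u 0 = v := by
  have hI := iso_KM hM
  obtain ⟨ε, hε, hb⟩ := mode_blowup hI (acute_KM hM)
  obtain ⟨N, hN⟩ := exists_nat_gt (2 * Real.pi / ε)
  have hsmall : ∫ z in (-Real.pi)..Real.pi, (th N z ^ 2 + Th N z ^ 2) ≤ ε := by
    refine (th_small N).trans ?_
    rw [div_le_iff₀ (by positivity)]
    rw [div_lt_iff₀ hε] at hN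
    nlinarith
  refine ⟨fun x i => u0 M (KM M) (th N) (Th N) x i, fun i => u0_trig N i, fun x => u0_div N x,
    fun x i => trunc_of_repr (fun x => u0_repr (th N) (Th N) i x) x, ?_⟩
  rintro T hT ⟨u, p, h, h0⟩
  have h1 := hb (th N) (Th N) (th_cont N) (Th_cont N) (th_even N) (Th_odd N) (th_zero N) hsmall
    T _ _ h.msol ?_
  · linarith
  · intro k i z
    unfold wm
    by_cases hk : k ∈ box M
    · rw [if_pos hk]
      refine dco_eq (c := fun q => dat (KM M) (th N) (Th N) q i) (fun x => ?_) hk z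
      beta_reduce
      rw [h0]
      exact u0_repr (th N) (Th N) i x
    · rw [if_neg hk]
      unfold dat
      rw [if_neg]
      rintro ⟨j, rfl | rfl⟩
      · exact hk (hI.mem j)
      · exact hk (box_symm _ (hI.mem j))

end Pool.Agent.N983.GT
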