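import Pool.Agent.N983.GT.MUniq

/-!
Symmetries of the mode systems.
-/

open MeasureTheory Set Filter Topology
open scoped ContDiff ComplexConjugate

namespace Pool.Agent.N983.GT

variable {S : Finset Z2} {T : ℝ} {w : Z2 → Fin 3 → ℝ → ℝ → ℂ} {p : Z2 → ℝ → ℝ → ℂ}

/-- The action of a sign on wave vectors. -/
def act (σ : ℤ) (k : Z2) : Z2 := (σ * k.1, σ * k.2)

theorem act_act {σ : ℤ} (hσ : σ * σ = 1) (k : Z2) : act σ (act σ k) = k := by
  unfold act
  ext
  · simp only [← mul_assoc, hσ, one_mul]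
  · simp only [← mul_assoc, hσ, one_mul]

theorem act_sub (σ : ℤ) (k q : Z2) : act σ (k - q) = act σ k - act σ q := by
  unfold act
  ext
  · simp only [Prod.fst_sub]; ring
  · simp only [Prod.snd_sub]; ring

theorem act_neg (σ : ℤ) (k : Z2) : act σ (-k) = -act σ k := by
  unfold act
  ext
  · simp only [Prod.fst_neg]; ring
  · simp only [Prod.snd_neg]; ring

/-- the sign of the component `i` -/
noncomputable def sg (σ ε : ℤ) (i : Fin 3) : ℂ := if i = 2 then (ε : ℂ) else (σ : ℂ)

theorem C1.comp_lin {f : ℝ → ℝ → ℂ} (hf : C1 T f) (e : ℝ) (c : ℂ) :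
    C1 T (fun t z => c * f t (e * z)) := by
  unfold C1 at *
  refine contDiffOn_const.mul ?_
  refine hf.comp (f := fun s : ℝ × ℝ => ((s.1, e * s.2) : ℝ × ℝ)) ?_ (fun s hs => ⟨hs.1, mem_univ _⟩)
  exact (contDiff_fst.prodMk (contDiff_const.mul contDiff_snd)).contDiffOn

theorem deriv_comp_lin (f : ℝ → ℂ) (e : ℝ) (c : ℂ) (z : ℝ) :
    deriv (fun z => c * f (e * z)) z = c * (e * deriv f (e * z)) := by
  rw [deriv_const_mul_field, deriv_comp_mul_left]
  simp

/-- Symmetries map solutions to solutions. -/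
theorem MSol.symm (h : MSol S T w p) (hS : ∀ k ∈ S, -k ∈ S) {χ : Z2 → ℂ}
    (hχ : ∀ a b, χ (a + b) = χ a * χ b) (hχc : ∀ a, χ (-a) = conj (χ a)) {σ ε : ℤ}
    (hσ : σ = 1 ∨ σ = -1) (hε : ε = 1 ∨ ε = -1) :
    MSol S T (fun k i t z => (χ k * sg σ ε i) * w (act σ k) i t (ε * z))
      (fun k t z => χ k * p (act σ k) t (ε * z)) := by
  have hσ2 : σ * σ = 1 := by rcases hσ with h | h <;> rw [h] <;> norm_num
  have hε2 : (ε : ℂ) * ε = 1 := by rcases hε with h | h <;> rw [h] <;> norm_num
  have hεr : (ε : ℝ) = 1 ∨ (ε : ℝ) = -1 := by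
    rcases hε with h | h <;> rw [h] <;> norm_num
  have hSa : ∀ k, k ∈ S ↔ act σ k ∈ S := by
    have : ∀ k ∈ S, act σ k ∈ S := by
      intro k hk
      rcases hσ with h | h
      · have : act σ k = k := by unfold act; rw [h]; simp
        rwa [this]
      · have : act σ k = -k := by unfold act; rw [h]; ext <;> simp
        rw [this]; exact hS k hk
    intro k
    refine ⟨this k, fun hk => ?_⟩
    have := this _ hk
    rwa [act_act hσ2] at this
  have hper : ∀ f : ℝ → ℂ, (∀ z, f (z + 2 * Real.pi) = f z) → ∀ z : ℝ,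
      f (ε * (z + 2 * Real.pi)) = f (ε * z) := by
    intro f hf z
    rcases hεr with h | h
    · rw [h, one_mul, one_mul, hf]
    · rw [h, ← hf (-1 * (z + 2 * Real.pi))]
      congr 1
      ring
  refine ⟨fun k i => (h.c1 _ i).comp_lin _ _, fun k => (h.c1p _).comp_lin _ _, ?_, ?_, ?_, ?_, ?_, ?_⟩
  · intro k i t ht z
    rw [hper _ (h.per (act σ k) i t ht)]
  · intro k t ht z
    rw [hper _ (h.perp (act σ k) t ht)]
  · intro k hk i t z
    rw [h.supp _ (fun hc => hk ((hSa k).2 hc)), mul_zero]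
  · intro k i t ht z
    rw [act_neg, h.real _ i t ht, hχc, map_mul, map_mul]
    congr 2
    unfold sg
    split_ifs <;> simp
  · intro k t ht z
    have h1 := h.div (act σ k) t ht (ε * z)
    unfold dv at h1 ⊢
    simp only
    rw [deriv_comp_lin]
    unfold sg
    simp only [if_true, Fin.reduceEq, if_false]
    have e1 : ((act σ k).1 : ℂ) = σ * k.1 := by unfold act; push_cast; ring
    have e2 : ((act σ k).2 : ℂ) = σ * k.2 := by unfold act; push_cast; ring
    rw [e1, e2] at h1
    have e3 : (((ε : ℝ) : ℂ)) = (ε : ℂ) := by push_cast; rfl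
    rw [e3]
    linear_combination χ k * h1 + χ k * deriv (w (act σ k) 2 t) (ε * z) * hε2
  · intro k hk i t ht z
    have h1 := h.mom (act σ k) ((hSa k).1 hk) i t ht (ε * z)
    rw [deriv_const_mul_field]
    have e1 : ((act σ k).1 : ℂ) = σ * k.1 := by unfold act; push_cast; ring
    have e2 : ((act σ k).2 : ℂ) = σ * k.2 := by unfold act; push_cast; ring
    have e3 : (((ε : ℝ) : ℂ)) = (ε : ℂ) := by push_cast; rfl
    have hgr : gr (fun z => χ k * p (act σ k) t (ε * z)) k i z
        = χ k * sg σ ε i * gr (p (act σ k) t) (act σ k) i (ε * z) := by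
      have hσ3 : (σ : ℂ) * σ = 1 := by exact_mod_cast hσ2
      unfold gr
      rw [deriv_comp_lin, e3]
      unfold sg
      fin_cases i
      · simp only [Fin.zero_eta, Matrix.cons_val_zero, Fin.reduceEq, if_false]
        rw [e1]
        linear_combination (-Complex.I * k.1 * χ k * p (act σ k) t (ε * z)) * hσ3
      · simp only [Fin.mk_one, Matrix.cons_val_one, Matrix.cons_val_zero, Fin.reduceEq, if_false]
        rw [e2]
        linear_combination (-Complex.I * k.2 * χ k * p (act σ k) t (ε * z)) * hσ3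
      · simp only [Fin.reduceFinMk, Matrix.cons_val, if_true]
        ring
    have hconv : conv S (fun k i z => (χ k * sg σ ε i) * w (act σ k) i t (ε * z))
        (fun k i z => (χ k * sg σ ε i) * w (act σ k) i t (ε * z)) k i z
        = χ k * sg σ ε i * conv S (fun k i => w k i t) (fun k i => w k i t) (act σ k) i (ε * z) := by
      unfold conv
      rw [Finset.mul_sum]
      refine Finset.sum_nbij' (act σ) (act σ) (fun q hq => (hSa q).1 hq)
        (fun q hq => (hSa q).1 hq) (fun q _ => act_act hσ2 q) (fun q _ => act_act hσ2 q) ?_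
      intro q hq
      rw [deriv_comp_lin]
      beta_reduce
      rw [act_sub, e3]
      have hχ2 : χ k = χ (k - q) * χ q := by rw [← hχ]; congr 1; abel
      have e4 : ((act σ q).1 : ℂ) = σ * q.1 := by unfold act; push_cast; ring
      have e5 : ((act σ q).2 : ℂ) = σ * q.2 := by unfold act; push_cast; ring
      rw [hχ2, e4, e5]
      unfold sg
      simp only [if_true, Fin.reduceEq, if_false]
      linear_combination (χ (k - q) * χ q * (if i = 2 then (ε : ℂ) else (σ : ℂ))
        * w (act σ k - act σ q) 2 t (ε * z) * deriv (w (act σ q) i t) (ε * z)) * hε2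
    rw [hconv, hgr]
    linear_combination (χ k * sg σ ε i) * h1

/-- Symmetries of the data are symmetries of the solution. -/
theorem MSol.symm_eq (h : MSol S T w p) (hS : ∀ k ∈ S, -k ∈ S) {χ : Z2 → ℂ}
    (hχ : ∀ a b, χ (a + b) = χ a * χ b) (hχc : ∀ a, χ (-a) = conj (χ a)) {σ ε : ℤ}
    (hσ : σ = 1 ∨ σ = -1) (hε : ε = 1 ∨ ε = -1)
    (h0 : ∀ k i z, (χ k * sg σ ε i) * w (act σ k) i 0 (ε * z) = w k i 0 z) {t : ℝ}
    (ht : t ∈ Ico 0 T) (k : Z2) (i : Fin 3) (z : ℝ) :
    (χ k * sg σ ε i) * w (act σ k) i t (ε * z) = w k i t z :=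
  (h.symm hS hχ hχc hσ hε).unique h h0 ht k i z

end Pool.Agent.N983.GT
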