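import Pool.Agent.N983.GT.Mode

/-!
Uniqueness and conservation of energy for the mode systems.
-/

open MeasureTheory Set Filter Topology
open scoped ContDiff ComplexConjugate

namespace Pool.Agent.N983.GT

variable {S : Finset Z2} {T : ℝ} {w v : Z2 → Fin 3 → ℝ → ℝ → ℂ} {p r : Z2 → ℝ → ℝ → ℂ}

/-- the density of the energy of the difference -/
noncomputable def dW (S : Finset Z2) (w v : Z2 → Fin 3 → ℝ → ℝ → ℂ) (t z : ℝ) : ℝ :=
  ∑ k ∈ S, ∑ i, ‖w k i t z - v k i t z‖ ^ 2

/-- the energy of the difference -/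
noncomputable def dE (S : Finset Z2) (w v : Z2 → Fin 3 → ℝ → ℝ → ℂ) (t : ℝ) : ℝ :=
  ∫ z in (-Real.pi)..Real.pi, dW S w v t z

theorem conv_sub {w v : Z2 → Fin 3 → ℝ → ℂ} (hw : ∀ k i, ContDiff ℝ 1 (w k i))
    (hv : ∀ k i, ContDiff ℝ 1 (v k i)) (k : Z2) (i : Fin 3) (z : ℝ) :
    conv S w w k i z - conv S v v k i z = conv S w (fun k i z => w k i z - v k i z) k i z
      + conv S (fun k i z => w k i z - v k i z) v k i z := by
  unfold conv
  rw [← Finset.sum_sub_distrib, ← Finset.sum_add_distrib]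
  refine Finset.sum_congr rfl fun q _ => ?_
  have h3 : deriv (fun z => w q i z - v q i z) z = deriv (w q i) z - deriv (v q i) z :=
    deriv_fun_sub (((hw q i).differentiable one_ne_zero) z)
      (((hv q i).differentiable one_ne_zero) z)
  rw [h3]
  ring

theorem C1.norm_sq {f : ℝ → ℝ → ℂ} (hf : C1 T f) : C1 T (fun t z => ‖f t z‖ ^ 2) :=
  ContDiffOn.norm_sq ℝ hf

theorem C1.sub {f g : ℝ → ℝ → ℂ} (hf : C1 T f) (hg : C1 T g) : C1 T (fun t z => f t z - g t z) :=
  ContDiffOn.sub hf hg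

theorem C1.sum {ι : Type*} {s : Finset ι} {f : ι → ℝ → ℝ → ℝ} (hf : ∀ i ∈ s, C1 T (f i)) :
    C1 T (fun t z => ∑ i ∈ s, f i t z) :=
  ContDiffOn.sum hf

theorem hasDerivAt_norm_sq {f : ℝ → ℂ} {f' : ℂ} {t : ℝ} (hf : HasDerivAt f f' t) :
    HasDerivAt (fun s => ‖f s‖ ^ 2) (2 * (conj (f t) * f').re) t := by
  have h := hf.norm_sq
  refine h.congr_deriv ?_
  rw [Complex.inner, mul_comm f']

theorem int_lin {A B : ℝ → ℝ} (hA : Continuous A) (hB : Continuous B) {a b x y : ℝ} :
    ∫ z in x..y, (a * A z + b * B z) = a * (∫ z in x..y, A z) + b * ∫ z in x..y, B z := by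
  rw [intervalIntegral.integral_add ((hA.const_mul a).intervalIntegrable _ _)
    ((hB.const_mul b).intervalIntegrable _ _), intervalIntegral.integral_const_mul,
    intervalIntegral.integral_const_mul]

section two

variable (hw : MSol S T w p) (hv : MSol S T v r)

include hw hv

theorem dW_c1 : C1 T (dW S w v) := by
  refine C1.sum fun k _ => C1.sum fun i _ => ?_
  exact ((hw.c1 k i).sub (hv.c1 k i)).norm_sq

theorem dt_diff {t : ℝ} (ht : t ∈ Ioo 0 T) {k : Z2} (hk : k ∈ S) (i : Fin 3) (z : ℝ) :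
    HasDerivAt (fun s => w k i s z - v k i s z)
      (-(conv S (fun k i => w k i t) (fun k i z => w k i t z - v k i t z) k i z
        + gr (fun z => p k t z - r k t z) k i z)
        - conv S (fun k i z => w k i t z - v k i t z) (fun k i => v k i t) k i z) t := by
  have hI : t ∈ Ico 0 T := ⟨ht.1.le, ht.2⟩
  refine (((hw.c1 k i).hasDerivAt_t ht z).sub ((hv.c1 k i).hasDerivAt_t ht z)).congr_deriv ?_
  have h1 := hw.mom k hk i t ht z
  have h2 := hv.mom k hk i t ht z
  have h3 := conv_sub (S := S) (w := fun k i => w k i t) (v := fun k i => v k i t)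
    (fun k i => (hw.c1 k i).slice hI) (fun k i => (hv.c1 k i).slice hI) k i z
  have h4 : gr (fun z => p k t z - r k t z) k i z = gr (p k t) k i z - gr (r k t) k i z := by
    have h5 : deriv (fun z => p k t z - r k t z) z = deriv (p k t) z - deriv (r k t) z :=
      deriv_fun_sub ((((hw.c1p k).slice hI).differentiable one_ne_zero) z)
        ((((hv.c1p k).slice hI).differentiable one_ne_zero) z)
    unfold gr
    rw [h5]
    fin_cases i
    · show Complex.I * k.1 * (p k t z - r k t z) = Complex.I * k.1 * p k t z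
        - Complex.I * k.1 * r k t z
      ring
    · show Complex.I * k.2 * (p k t z - r k t z) = Complex.I * k.2 * p k t z
        - Complex.I * k.2 * r k t z
      ring
    · rfl
  rw [h4]
  linear_combination h1 - h2 - h3

theorem dE_hasDerivAt {t : ℝ} (ht : t ∈ Ioo 0 T) :
    HasDerivAt (dE S w v) (-2 * ∫ z in (-Real.pi)..Real.pi, ∑ k ∈ S, ∑ i,
      (conj (w k i t z - v k i t z)
        * conv S (fun k i z => w k i t z - v k i t z) (fun k i => v k i t) k i z).re) t := by
  have hI : t ∈ Ico 0 T := ⟨ht.1.le, ht.2⟩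
  have h1 := hasDerivAt_int (-Real.pi) Real.pi (dW_c1 hw hv) ht
  refine h1.congr_deriv ?_
  have h2 : ∀ z, deriv (fun s => dW S w v s z) t
      = -2 * (∑ k ∈ S, ∑ i, (conj (w k i t z - v k i t z)
        * (conv S (fun k i => w k i t) (fun k i z => w k i t z - v k i t z) k i z
        + gr (fun z => p k t z - r k t z) k i z)).re)
        + -2 * ∑ k ∈ S, ∑ i, (conj (w k i t z - v k i t z)
        * conv S (fun k i z => w k i t z - v k i t z) (fun k i => v k i t) k i z).re := by
    intro z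
    have h3 : HasDerivAt (fun s => dW S w v s z) _ t :=
      HasDerivAt.fun_sum (u := S) fun k hk => HasDerivAt.fun_sum (u := Finset.univ) fun i _ =>
        hasDerivAt_norm_sq (dt_diff hw hv ht hk i z)
    rw [h3.deriv, ← mul_add, ← Finset.sum_add_distrib]
    rw [Finset.mul_sum]
    refine Finset.sum_congr rfl fun k _ => ?_
    rw [← Finset.sum_add_distrib, Finset.mul_sum]
    refine Finset.sum_congr rfl fun i _ => ?_
    rw [mul_sub, Complex.sub_re, mul_neg, Complex.neg_re]
    ring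
  simp_rw [h2]
  have hdf : DF (fun k i z => w k i t z - v k i t z) := (hw.df hI).sub (hv.df hI)
  have hcA : Continuous (fun z => ∑ k ∈ S, ∑ i, (conj (w k i t z - v k i t z)
        * (conv S (fun k i => w k i t) (fun k i z => w k i t z - v k i t z) k i z
        + gr (fun z => p k t z - r k t z) k i z)).re) := by
    refine continuous_finsetSum _ fun k _ => continuous_finsetSum _ fun i _ => ?_
    have h1 := conv_cont (S := S) (w := fun k i => w k i t)
      (fun k i => ((hw.c1 k i).slice hI).continuous) hdf.c1 k i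
    have h2 := gr_cont (((hw.c1p k).slice hI).sub ((hv.c1p k).slice hI)) k i
    have h3 := (hdf.c1 k i).continuous
    exact Complex.continuous_re.comp ((Complex.continuous_conj.comp h3).mul (h1.add h2))
  have hcB : Continuous (fun z => ∑ k ∈ S, ∑ i, (conj (w k i t z - v k i t z)
        * conv S (fun k i z => w k i t z - v k i t z) (fun k i => v k i t) k i z).re) := by
    refine continuous_finsetSum _ fun k _ => continuous_finsetSum _ fun i _ => ?_
    have h1 := conv_cont (S := S) (w := fun k i z => w k i t z - v k i t z) (d := fun k i => v k i t)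
      (fun k i => (hdf.c1 k i).continuous) (fun k i => (hv.c1 k i).slice hI) k i
    have h3 := (hdf.c1 k i).continuous
    exact Complex.continuous_re.comp ((Complex.continuous_conj.comp h3).mul h1)
  rw [int_lin hcA hcB]
  have hz := key_int (S := S) (hw.df hI) (fun k i z => hw.real k i t hI z) hdf
    (p := fun k z => p k t z - r k t z)
    (fun k => ((hw.c1p k).slice hI).sub ((hv.c1p k).slice hI))
    (fun k z => by simp only [hw.perp k t hI, hv.perp k t hI])
  rw [hz]
  ring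

theorem dE_continuousOn : ContinuousOn (dE S w v) (Ico 0 T) :=
  continuousOn_int _ _ (dW_c1 hw hv).continuousOn

end two

theorem dW_nonneg (t z : ℝ) : 0 ≤ dW S w v t z :=
  Finset.sum_nonneg fun _ _ => Finset.sum_nonneg fun _ _ => sq_nonneg _

theorem dE_nonneg (t : ℝ) : 0 ≤ dE S w v t := by
  unfold dE
  exact intervalIntegral.integral_nonneg (by linarith [Real.pi_pos]) fun z _ => dW_nonneg t z

/-- a bound for the quadratic term -/
theorem B_bound {d v : Z2 → Fin 3 → ℝ → ℂ} {R M : ℝ} (hR0 : 0 ≤ R) (hM0 : 0 ≤ M) {z : ℝ}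
    (hd0 : ∀ k, k ∉ S → ∀ i, d k i z = 0) (hR : ∀ q ∈ S, |(q.1 : ℝ)| ≤ R ∧ |(q.2 : ℝ)| ≤ R)
    (hM : ∀ q ∈ S, ∀ i, ‖v q i z‖ ≤ M ∧ ‖deriv (v q i) z‖ ≤ M) :
    |∑ k ∈ S, ∑ i, (conj (d k i z) * conv S d v k i z).re|
      ≤ (S.card * (3 * (S.card * ((2 * R + 1) * M)))) * ∑ k ∈ S, ∑ i, ‖d k i z‖ ^ 2 := by
  set W := ∑ k ∈ S, ∑ i, ‖d k i z‖ ^ 2 with hW
  have hW0 : 0 ≤ W := Finset.sum_nonneg fun _ _ => Finset.sum_nonneg fun _ _ => sq_nonneg _
  have h1 : ∀ k i, ‖d k i z‖ ^ 2 ≤ W := by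
    intro k i
    by_cases hk : k ∈ S
    · calc ‖d k i z‖ ^ 2 ≤ ∑ i, ‖d k i z‖ ^ 2 :=
          Finset.single_le_sum (f := fun i => ‖d k i z‖ ^ 2) (fun _ _ => sq_nonneg _)
            (Finset.mem_univ i)
        _ ≤ _ := Finset.single_le_sum (f := fun k => ∑ i, ‖d k i z‖ ^ 2)
            (fun _ _ => Finset.sum_nonneg fun _ _ => sq_nonneg _) hk
    · rw [hd0 k hk i, norm_zero]
      simpa using hW0
  have h2 : ∀ k i q j, ‖d k i z‖ * ‖d q j z‖ ≤ W := by
    intro k i q j
    have := h1 k i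
    have := h1 q j
    nlinarith [sq_nonneg (‖d k i z‖ - ‖d q j z‖)]
  have h3 : ∀ k i, ∀ q ∈ S, ‖conj (d k i z) * (Complex.I * (d (k - q) 0 z * q.1
      + d (k - q) 1 z * q.2) * v q i z + d (k - q) 2 z * deriv (v q i) z)‖
      ≤ (2 * R + 1) * M * W := by
    intro k i q hq
    obtain ⟨hR1, hR2⟩ := hR q hq
    obtain ⟨hM1, hM2⟩ := hM q hq i
    have e1 : ‖(q.1 : ℂ)‖ = |(q.1 : ℝ)| := by
      rw [← Complex.ofReal_intCast, Complex.norm_real, Real.norm_eq_abs]
    have e2 : ‖(q.2 : ℂ)‖ = |(q.2 : ℝ)| := by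
      rw [← Complex.ofReal_intCast, Complex.norm_real, Real.norm_eq_abs]
    calc _ = ‖d k i z‖ * ‖Complex.I * (d (k - q) 0 z * q.1
      + d (k - q) 1 z * q.2) * v q i z + d (k - q) 2 z * deriv (v q i) z‖ := by
          rw [norm_mul, RCLike.norm_conj]
      _ ≤ ‖d k i z‖ * ((‖d (k - q) 0 z‖ * R + ‖d (k - q) 1 z‖ * R) * M
          + ‖d (k - q) 2 z‖ * M) := by
          refine mul_le_mul_of_nonneg_left ?_ (norm_nonneg _)
          refine (norm_add_le _ _).trans (add_le_add ?_ ?_)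
          · rw [norm_mul, norm_mul, Complex.norm_I, one_mul]
            refine mul_le_mul ?_ hM1 (norm_nonneg _) (by positivity)
            refine (norm_add_le _ _).trans (add_le_add ?_ ?_)
            · rw [norm_mul, e1]; exact mul_le_mul_of_nonneg_left hR1 (norm_nonneg _)
            · rw [norm_mul, e2]; exact mul_le_mul_of_nonneg_left hR2 (norm_nonneg _)
          · rw [norm_mul]; exact mul_le_mul_of_nonneg_left hM2 (norm_nonneg _)
      _ = (‖d k i z‖ * ‖d (k - q) 0 z‖) * (R * M) + (‖d k i z‖ * ‖d (k - q) 1 z‖) * (R * M)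
          + (‖d k i z‖ * ‖d (k - q) 2 z‖) * M := by ring
      _ ≤ W * (R * M) + W * (R * M) + W * M := by
          have := h2 k i (k - q) 0
          have := h2 k i (k - q) 1
          have := h2 k i (k - q) 2
          have hRM : 0 ≤ R * M := by positivity
          gcongr
      _ = _ := by ring
  calc |∑ k ∈ S, ∑ i, (conj (d k i z) * conv S d v k i z).re|
      ≤ ∑ k ∈ S, ∑ i : Fin 3, ∑ q ∈ S, (2 * R + 1) * M * W := by
        refine (Finset.abs_sum_le_sum_abs _ _).trans (Finset.sum_le_sum fun k _ => ?_)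
        refine (Finset.abs_sum_le_sum_abs _ _).trans (Finset.sum_le_sum fun i _ => ?_)
        refine (Complex.abs_re_le_norm _).trans ?_
        unfold conv
        rw [Finset.mul_sum]
        refine (norm_sum_le _ _).trans (Finset.sum_le_sum fun q hq => h3 k i q hq)
    _ = _ := by
        simp only [Finset.sum_const, Finset.card_univ, Fintype.card_fin, nsmul_eq_mul]
        push_cast
        ring

theorem MSol.bound (hv : MSol S T v r) {s : ℝ} (hs : s < T) :
    ∃ M, 0 ≤ M ∧ ∀ t ∈ Icc 0 s, ∀ z ∈ Icc (-Real.pi) Real.pi, ∀ q ∈ S, ∀ i,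
      ‖v q i t z‖ ≤ M ∧ ‖deriv (v q i t) z‖ ≤ M := by
  have hK : IsCompact (Icc 0 s ×ˢ Icc (-Real.pi) Real.pi) := isCompact_Icc.prod isCompact_Icc
  have hsub : Icc 0 s ×ˢ Icc (-Real.pi) Real.pi ⊆ Dom T :=
    prod_mono (Icc_subset_Ico_right hs) (subset_univ _)
  have h1 : ∀ (q : Z2) (i : Fin 3), ∃ M, 0 ≤ M ∧ ∀ t ∈ Icc 0 s, ∀ z ∈ Icc (-Real.pi) Real.pi,
      ‖v q i t z‖ ≤ M ∧ ‖deriv (v q i t) z‖ ≤ M := by
    intro q i
    obtain ⟨M1, hM1⟩ := hK.exists_bound_of_continuousOn ((hv.c1 q i).continuousOn.mono hsub)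
    obtain ⟨M2, hM2⟩ := hK.exists_bound_of_continuousOn ((hv.c1 q i).cont_deriv_z.mono hsub)
    refine ⟨|M1| + |M2|, by positivity, fun t ht z hz => ⟨?_, ?_⟩⟩
    · exact (hM1 (t, z) ⟨ht, hz⟩).trans ((le_abs_self _).trans (by linarith [abs_nonneg M2]))
    · exact (hM2 (t, z) ⟨ht, hz⟩).trans ((le_abs_self _).trans (by linarith [abs_nonneg M1]))
  choose M hM0 hM using h1
  refine ⟨∑ q ∈ S, ∑ i, M q i, Finset.sum_nonneg fun q _ => Finset.sum_nonneg fun i _ => hM0 q i,
    fun t ht z hz q hq i => ?_⟩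
  have h2 : M q i ≤ ∑ q ∈ S, ∑ i, M q i :=
    (Finset.single_le_sum (f := fun i => M q i) (fun i _ => hM0 q i) (Finset.mem_univ i)).trans
      (Finset.single_le_sum (f := fun q => ∑ i, M q i)
        (fun q _ => Finset.sum_nonneg fun i _ => hM0 q i) hq)
  exact ⟨(hM q i t ht z hz).1.trans h2, (hM q i t ht z hz).2.trans h2⟩

theorem exists_R (S : Finset Z2) : ∃ R : ℝ, 0 ≤ R ∧ ∀ q ∈ S, |(q.1 : ℝ)| ≤ R ∧ |(q.2 : ℝ)| ≤ R := by
  refine ⟨∑ q ∈ S, (|(q.1 : ℝ)| + |(q.2 : ℝ)|), by positivity, fun q hq => ?_⟩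
  have h := Finset.single_le_sum (f := fun q : Z2 => |(q.1 : ℝ)| + |(q.2 : ℝ)|)
    (fun _ _ => by positivity) hq
  have := abs_nonneg (q.1 : ℝ)
  have := abs_nonneg (q.2 : ℝ)
  constructor <;> linarith

theorem dE_zero (hw : MSol S T w p) (hv : MSol S T v r) (h0 : ∀ k i z, w k i 0 z = v k i 0 z)
    {s : ℝ} (hs : s ∈ Ico 0 T) : dE S w v s = 0 := by
  obtain ⟨M, hM0, hM⟩ := hv.bound hs.2
  obtain ⟨R, hR0, hR⟩ := exists_R S
  set C : ℝ := S.card * (3 * (S.card * ((2 * R + 1) * M))) with hC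
  have hC0 : 0 ≤ C := by positivity
  have hE0 : dE S w v 0 = 0 := by
    unfold dE dW
    simp [h0]
  have hsub : Icc 0 s ⊆ Ico 0 T := Icc_subset_Ico_right hs.2
  have hbd : ∀ t ∈ Ioo 0 s, |∫ z in (-Real.pi)..Real.pi, ∑ k ∈ S, ∑ i,
      (conj (w k i t z - v k i t z)
        * conv S (fun k i z => w k i t z - v k i t z) (fun k i => v k i t) k i z).re|
      ≤ C * dE S w v t := by
    intro t ht
    have hI : t ∈ Ico 0 T := ⟨ht.1.le, ht.2.trans hs.2⟩
    have hdW := ((dW_c1 hw hv).slice hI).continuous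
    unfold dE
    rw [← intervalIntegral.integral_const_mul]
    rw [← Real.norm_eq_abs]
    refine intervalIntegral.norm_integral_le_of_norm_le (by linarith [Real.pi_pos]) ?_
      ((continuous_const.mul hdW).intervalIntegrable _ _)
    refine Filter.Eventually.of_forall fun z hz => ?_
    exact B_bound (S := S) (d := fun k i z => w k i t z - v k i t z) (v := fun k i => v k i t)
      hR0 hM0 (fun k hk i => by simp only [hw.supp k hk, hv.supp k hk, sub_zero]) hR
      (fun q hq i => hM t ⟨ht.1.le, ht.2.le⟩ z ⟨hz.1.le, hz.2⟩ q hq i)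
  have hder : ∀ t ∈ Ioo 0 s, HasDerivAt (fun t => dE S w v t * Real.exp (-(2 * C) * t))
      ((-2 * ∫ z in (-Real.pi)..Real.pi, ∑ k ∈ S, ∑ i,
      (conj (w k i t z - v k i t z)
        * conv S (fun k i z => w k i t z - v k i t z) (fun k i => v k i t) k i z).re)
        * Real.exp (-(2 * C) * t)
        + dE S w v t * (Real.exp (-(2 * C) * t) * (-(2 * C)))) t := by
    intro t ht
    have h1 := dE_hasDerivAt hw hv (t := t) ⟨ht.1, ht.2.trans hs.2⟩
    have h2 : HasDerivAt (fun t => Real.exp (-(2 * C) * t))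
        (Real.exp (-(2 * C) * t) * (-(2 * C))) t := by
      have := ((hasDerivAt_id t).const_mul (-(2 * C))).exp
      simpa using this
    exact h1.mul h2
  have hanti : AntitoneOn (fun t => dE S w v t * Real.exp (-(2 * C) * t)) (Icc 0 s) := by
    refine antitoneOn_of_deriv_nonpos (convex_Icc 0 s) ?_ ?_ ?_
    · exact ((dE_continuousOn hw hv).mono hsub).mul (by fun_prop)
    · rw [interior_Icc]
      exact fun t ht => (hder t ht).differentiableAt.differentiableWithinAt
    · rw [interior_Icc]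
      intro t ht
      rw [(hder t ht).deriv]
      have h2 := neg_le_of_abs_le (hbd t ht)
      have h3 := Real.exp_pos (-(2 * C) * t)
      nlinarith
  have h5 := hanti (left_mem_Icc.2 hs.1) (right_mem_Icc.2 hs.1) hs.1
  simp only [hE0, zero_mul] at h5
  have h6 : dE S w v s ≤ 0 := by
    by_contra hcon
    push Not at hcon
    exact absurd h5 (not_le.2 (mul_pos hcon (Real.exp_pos _)))
  exact le_antisymm h6 (dE_nonneg s)

/-- a nonnegative continuous periodic function with integral zero vanishes -/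
theorem eq_zero_of_int {g : ℝ → ℝ} (hg : Continuous g) (h0 : ∀ z, 0 ≤ g z)
    (hp : ∀ z, g (z + 2 * Real.pi) = g z) (h : ∫ z in (-Real.pi)..Real.pi, g z = 0) (z : ℝ) :
    g z = 0 := by
  have hlt : -Real.pi < Real.pi := by linarith [Real.pi_pos]
  have h1 : ∀ x ∈ Icc (-Real.pi) Real.pi, g x = 0 := by
    by_contra hcon
    push Not at hcon
    obtain ⟨x, hx, hne⟩ := hcon
    have hpos : 0 < g x := lt_of_le_of_ne (h0 x) (Ne.symm hne)
    have := intervalIntegral.integral_pos hlt hg.continuousOn (fun y _ => h0 y) ⟨x, hx, hpos⟩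
    linarith
  have hper : Function.Periodic g (2 * Real.pi) := hp
  obtain ⟨y, hy, hy2⟩ := hper.exists_mem_Ico (by positivity : (0 : ℝ) < 2 * Real.pi) z (-Real.pi)
  rw [hy2]
  exact h1 y ⟨hy.1, by linarith [hy.2]⟩

/-- Uniqueness. -/
theorem MSol.unique (hw : MSol S T w p) (hv : MSol S T v r) (h0 : ∀ k i z, w k i 0 z = v k i 0 z)
    {t : ℝ} (ht : t ∈ Ico 0 T) (k : Z2) (i : Fin 3) (z : ℝ) : w k i t z = v k i t z := by
  by_cases hk : k ∈ S
  · have h1 := dE_zero hw hv h0 ht
    have h2 : dW S w v t z = 0 := by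
      refine eq_zero_of_int ((dW_c1 hw hv).slice ht).continuous (fun z => dW_nonneg t z) ?_ h1 z
      intro z
      unfold dW
      simp only [hw.per _ _ t ht, hv.per _ _ t ht]
    unfold dW at h2
    have h3 := (Finset.sum_eq_zero_iff_of_nonneg (fun k _ => Finset.sum_nonneg fun i _ =>
      sq_nonneg ‖w k i t z - v k i t z‖)).1 h2 k hk
    have h4 := (Finset.sum_eq_zero_iff_of_nonneg (fun i _ =>
      sq_nonneg ‖w k i t z - v k i t z‖)).1 h3 i (Finset.mem_univ i)
    have h5 : ‖w k i t z - v k i t z‖ = 0 := by simpa using h4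
    exact sub_eq_zero.1 (norm_eq_zero.1 h5)
  · rw [hw.supp k hk, hv.supp k hk]

end Pool.Agent.N983.GT
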