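import Pool.Agent.N983.GT.Calc

/-!
The horizontally truncated Euler equations in terms of the horizontal modes.
-/

open MeasureTheory Set Filter Topology
open scoped ContDiff ComplexConjugate

namespace Pool.Agent.N983.GT

/-- horizontal wave vectors -/
abbrev Z2 := ℤ × ℤ

/-- The mode `k` of `(w·∇) v`. -/
noncomputable def conv (S : Finset Z2) (w v : Z2 → Fin 3 → ℝ → ℂ) (k : Z2) (i : Fin 3) (z : ℝ) : ℂ :=
  ∑ q ∈ S, (Complex.I * (w (k - q) 0 z * q.1 + w (k - q) 1 z * q.2) * v q i z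
    + w (k - q) 2 z * deriv (v q i) z)

/-- The mode `k` of the gradient. -/
noncomputable def gr (p : ℝ → ℂ) (k : Z2) (i : Fin 3) (z : ℝ) : ℂ :=
  ![Complex.I * k.1 * p z, Complex.I * k.2 * p z, deriv p z] i

/-- The mode `k` of the divergence -/
noncomputable def dv (w : Z2 → Fin 3 → ℝ → ℂ) (k : Z2) (z : ℝ) : ℂ :=
  Complex.I * (k.1 * w k 0 z + k.2 * w k 1 z) + deriv (w k 2) z

/-- `(w, q)` are the horizontal modes of a solution of the truncated Euler equations. -/
structure MSol (S : Finset Z2) (T : ℝ) (w : Z2 → Fin 3 → ℝ → ℝ → ℂ) (p : Z2 → ℝ → ℝ → ℂ) :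
    Prop where
  c1 : ∀ k i, C1 T (w k i)
  c1p : ∀ k, C1 T (p k)
  per : ∀ k i, ∀ t ∈ Ico 0 T, ∀ z, w k i t (z + 2 * Real.pi) = w k i t z
  perp : ∀ k, ∀ t ∈ Ico 0 T, ∀ z, p k t (z + 2 * Real.pi) = p k t z
  supp : ∀ k, k ∉ S → ∀ i t z, w k i t z = 0
  real : ∀ k i, ∀ t ∈ Ico 0 T, ∀ z, w (-k) i t z = conj (w k i t z)
  div : ∀ k, ∀ t ∈ Ico 0 T, ∀ z, dv (fun k i => w k i t) k z = 0
  mom : ∀ k ∈ S, ∀ i, ∀ t ∈ Ioo 0 T, ∀ z, deriv (fun s => w k i s z) t
    + conv S (fun k i => w k i t) (fun k i => w k i t) k i z + gr (p k t) k i z = 0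

/-- A divergence-free field at a fixed time. -/
structure DF (w : Z2 → Fin 3 → ℝ → ℂ) : Prop where
  c1 : ∀ k i, ContDiff ℝ 1 (w k i)
  per : ∀ k i z, w k i (z + 2 * Real.pi) = w k i z
  div : ∀ k z, dv w k z = 0

theorem MSol.df {S : Finset Z2} {T : ℝ} {w : Z2 → Fin 3 → ℝ → ℝ → ℂ} {p : Z2 → ℝ → ℝ → ℂ}
    (h : MSol S T w p) {t : ℝ} (ht : t ∈ Ico 0 T) : DF (fun k i => w k i t) where
  c1 k i := (h.c1 k i).slice ht
  per k i z := h.per k i t ht z
  div k z := h.div k t ht z

theorem DF.sub {w v : Z2 → Fin 3 → ℝ → ℂ} (hw : DF w) (hv : DF v) :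
    DF (fun k i z => w k i z - v k i z) where
  c1 k i := (hw.c1 k i).sub (hv.c1 k i)
  per k i z := by rw [hw.per, hv.per]
  div k z := by
    have h1 := hw.div k z
    have h2 := hv.div k z
    unfold dv at h1 h2 ⊢
    have h3 : deriv (fun z => w k 2 z - v k 2 z) z = deriv (w k 2) z - deriv (v k 2) z :=
      deriv_fun_sub (((hw.c1 k 2).differentiable one_ne_zero) z)
        (((hv.c1 k 2).differentiable one_ne_zero) z)
    rw [h3]
    linear_combination h1 - h2

section key

variable {S : Finset Z2} {w d : Z2 → Fin 3 → ℝ → ℂ} {p : Z2 → ℝ → ℂ}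

theorem hd {f : ℝ → ℂ} (hf : ContDiff ℝ 1 f) (z : ℝ) : HasDerivAt f (deriv f z) z :=
  ((hf.differentiable one_ne_zero) z).hasDerivAt

/-- The antiderivative. -/
noncomputable def Kf (S : Finset Z2) (w d : Z2 → Fin 3 → ℝ → ℂ) (p : Z2 → ℝ → ℂ) (z : ℝ) : ℝ :=
  (1 / 2) * (∑ k ∈ S, ∑ q ∈ S, (w (k - q) 2 z * ∑ i, conj (d k i z) * d q i z).re)
    + ∑ k ∈ S, (conj (d k 2 z) * p k z).re

theorem hasDerivAt_re {f : ℝ → ℂ} {f' : ℂ} {z : ℝ} (h : HasDerivAt f f' z) :
    HasDerivAt (fun z => (f z).re) f'.re z := by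
  exact Complex.reCLM.hasFDerivAt.comp_hasDerivAt z h

theorem hasDerivAt_conj {f : ℝ → ℂ} {f' : ℂ} {z : ℝ} (h : HasDerivAt f f' z) :
    HasDerivAt (fun z => conj (f z)) (conj f') z := by
  exact Complex.conjCLE.toContinuousLinearMap.hasFDerivAt.comp_hasDerivAt z h

theorem hasDerivAt_Kf (hw : DF w) (hwr : ∀ k i z, w (-k) i z = conj (w k i z)) (hd' : DF d)
    (hp : ∀ k, ContDiff ℝ 1 (p k)) (z : ℝ) :
    HasDerivAt (Kf S w d p) (∑ k ∈ S, ∑ i, (conj (d k i z)
      * (conv S w d k i z + gr (p k) k i z)).re) z := by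
  have h1 : ∀ k q, HasDerivAt (fun z => (w (k - q) 2 z * ∑ i, conj (d k i z) * d q i z).re)
      (deriv (w (k - q) 2) z * (∑ i, conj (d k i z) * d q i z)
        + w (k - q) 2 z * ∑ i, (conj (deriv (d k i) z) * d q i z
          + conj (d k i z) * deriv (d q i) z)).re z := by
    intro k q
    refine hasDerivAt_re ((hd (hw.c1 _ _) z).mul (HasDerivAt.fun_sum fun i _ => ?_))
    exact (hasDerivAt_conj (hd (hd'.c1 _ _) z)).mul (hd (hd'.c1 _ _) z)
  have h2 : ∀ k, HasDerivAt (fun z => (conj (d k 2 z) * p k z).re)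
      (conj (deriv (d k 2) z) * p k z + conj (d k 2 z) * deriv (p k) z).re z := by
    intro k
    exact hasDerivAt_re ((hasDerivAt_conj (hd (hd'.c1 _ _) z)).mul (hd (hp k) z))
  have h3 := ((HasDerivAt.fun_sum (u := S) fun k _ => HasDerivAt.fun_sum (u := S) fun q _ =>
    h1 k q).const_mul (1 / 2 : ℝ)).add (HasDerivAt.fun_sum (u := S) fun k _ => h2 k)
  refine h3.congr_deriv ?_
  -- the pressure part
  have e2 : ∀ k, (conj (deriv (d k 2) z) * p k z + conj (d k 2 z) * deriv (p k) z).re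
      = ∑ i, (conj (d k i z) * gr (p k) k i z).re := by
    intro k
    have hdiv := hd'.div k z
    unfold dv at hdiv
    have h4 : conj (deriv (d k 2) z) = Complex.I * (k.1 * conj (d k 0 z) + k.2 * conj (d k 1 z)) := by
      have h5 := congrArg conj hdiv
      simp only [map_add, map_mul, Complex.conj_I, map_intCast, map_zero] at h5
      linear_combination h5
    rw [h4, Fin.sum_univ_three]
    unfold gr
    rw [← Complex.add_re, ← Complex.add_re]
    congr 1
    simp only [Matrix.cons_val_zero, Matrix.cons_val_one, Matrix.cons_val]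
    ring
  -- the transport part
  have e1 : ∀ k q, (deriv (w (k - q) 2) z * (∑ i, conj (d k i z) * d q i z)
        + w (k - q) 2 z * ∑ i, (conj (deriv (d k i) z) * d q i z
          + conj (d k i z) * deriv (d q i) z)).re
      = (∑ i, conj (d k i z) * (Complex.I * (w (k - q) 0 z * q.1 + w (k - q) 1 z * q.2) * d q i z
          + w (k - q) 2 z * deriv (d q i) z)).re
        + (∑ i, conj (d q i z) * (Complex.I * (w (q - k) 0 z * k.1 + w (q - k) 1 z * k.2) * d k i z
          + w (q - k) 2 z * deriv (d k i) z)).re := by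
    intro k q
    have hdiv := hw.div (k - q) z
    unfold dv at hdiv
    have h4 : deriv (w (k - q) 2) z
        = -Complex.I * ((k.1 - q.1) * w (k - q) 0 z + (k.2 - q.2) * w (k - q) 1 z) := by
      simp only [Prod.fst_sub, Prod.snd_sub] at hdiv
      push_cast at hdiv
      linear_combination hdiv
    have h5 : ∀ i, w (q - k) i z = conj (w (k - q) i z) := by
      intro i
      rw [← hwr, neg_sub]
    have h6 : (∑ i, conj (d q i z) * (Complex.I * (w (q - k) 0 z * k.1 + w (q - k) 1 z * k.2)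
          * d k i z + w (q - k) 2 z * deriv (d k i) z)).re
        = (∑ i, d q i z * (-Complex.I * (w (k - q) 0 z * k.1 + w (k - q) 1 z * k.2)
          * conj (d k i z) + w (k - q) 2 z * conj (deriv (d k i) z))).re := by
      rw [← Complex.conj_re]
      congr 1
      rw [map_sum]
      refine Finset.sum_congr rfl fun i _ => ?_
      simp only [h5, map_add, map_mul, Complex.conj_I, map_intCast, Complex.conj_conj]
    rw [h6, h4, ← Complex.add_re]
    congr 1
    rw [Finset.mul_sum, Finset.mul_sum, ← Finset.sum_add_distrib, ← Finset.sum_add_distrib]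
    refine Finset.sum_congr rfl fun i _ => ?_
    ring
  simp_rw [e1, e2]
  simp_rw [Finset.sum_add_distrib]
  have e3 : ∑ k ∈ S, ∑ q ∈ S, (∑ i, conj (d q i z) * (Complex.I * (w (q - k) 0 z * k.1
        + w (q - k) 1 z * k.2) * d k i z + w (q - k) 2 z * deriv (d k i) z)).re
      = ∑ k ∈ S, ∑ q ∈ S, (∑ i, conj (d k i z) * (Complex.I * (w (k - q) 0 z * q.1
        + w (k - q) 1 z * q.2) * d q i z + w (k - q) 2 z * deriv (d q i) z)).re :=
    Finset.sum_comm
  rw [e3]
  have e4 : ∑ k ∈ S, ∑ i, (conj (d k i z) * conv S w d k i z).re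
      = ∑ k ∈ S, ∑ q ∈ S, (∑ i, conj (d k i z) * (Complex.I * (w (k - q) 0 z * q.1
        + w (k - q) 1 z * q.2) * d q i z + w (k - q) 2 z * deriv (d q i) z)).re := by
    refine Finset.sum_congr rfl fun k _ => ?_
    simp_rw [Complex.re_sum]
    rw [Finset.sum_comm]
    refine Finset.sum_congr rfl fun i _ => ?_
    unfold conv
    rw [Finset.mul_sum, Complex.re_sum]
  have e5 : ∀ k i, (conj (d k i z) * (conv S w d k i z + gr (p k) k i z)).re
      = (conj (d k i z) * conv S w d k i z).re + (conj (d k i z) * gr (p k) k i z).re := by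
    intro k i
    rw [mul_add, Complex.add_re]
  simp_rw [e5, Finset.sum_add_distrib]
  rw [e4]
  ring

theorem Kf_per (hw : DF w) (hd' : DF d) (hp : ∀ k z, p k (z + 2 * Real.pi) = p k z) :
    Kf S w d p Real.pi = Kf S w d p (-Real.pi) := by
  have h1 : ∀ k i, w k i Real.pi = w k i (-Real.pi) := by
    intro k i
    rw [← hw.per k i (-Real.pi)]
    congr 1
    ring
  have h2 : ∀ k i, d k i Real.pi = d k i (-Real.pi) := by
    intro k i
    rw [← hd'.per k i (-Real.pi)]
    congr 1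
    ring
  have h3 : ∀ k, p k Real.pi = p k (-Real.pi) := by
    intro k
    rw [← hp k (-Real.pi)]
    congr 1
    ring
  unfold Kf
  simp only [h1, h2, h3]

theorem conv_cont (hw : ∀ k i, Continuous (w k i)) (hd' : ∀ k i, ContDiff ℝ 1 (d k i)) (k : Z2)
    (i : Fin 3) : Continuous (conv S w d k i) := by
  unfold conv
  refine continuous_finsetSum _ fun q _ => ?_
  have h1 := hw (k - q)
  have h2 := (hd' q i).continuous
  have h3 : Continuous (deriv (d q i)) := (hd' q i).continuous_deriv le_rfl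
  have h4 := h1 0
  have h5 := h1 1
  have h6 := h1 2
  fun_prop

theorem gr_cont {p : ℝ → ℂ} (hp : ContDiff ℝ 1 p) (k : Z2) (i : Fin 3) : Continuous (gr p k i) := by
  have h1 := hp.continuous
  have h2 : Continuous (deriv p) := hp.continuous_deriv le_rfl
  unfold gr
  fin_cases i
  · simp only [Fin.zero_eta, Matrix.cons_val_zero]; fun_prop
  · simp only [Fin.mk_one, Matrix.cons_val_one]; fun_prop
  · simp only [Fin.reduceFinMk, Matrix.cons_val]; exact h2

/-- The basic cancellation. -/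
theorem key_int (hw : DF w) (hwr : ∀ k i z, w (-k) i z = conj (w k i z)) (hd' : DF d)
    (hp : ∀ k, ContDiff ℝ 1 (p k)) (hpp : ∀ k z, p k (z + 2 * Real.pi) = p k z) :
    ∫ z in (-Real.pi)..Real.pi, (∑ k ∈ S, ∑ i, (conj (d k i z)
      * (conv S w d k i z + gr (p k) k i z)).re) = 0 := by
  refine int_deriv_per (hasDerivAt_Kf hw hwr hd' hp) ?_ (Kf_per hw hd' hpp)
  refine continuous_finsetSum _ fun k _ => continuous_finsetSum _ fun i _ => ?_
  have h1 := conv_cont (S := S) (fun k i => (hw.c1 k i).continuous) hd'.c1 k i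
  have h2 := gr_cont (hp k) k i
  have h3 := (hd'.c1 k i).continuous
  exact Complex.continuous_re.comp ((Complex.continuous_conj.comp h3).mul (h1.add h2))

end key

end Pool.Agent.N983.GT
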