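import Pool.Agent.N983.GT.Calc

/-!
Blow-up of a system of three differential inequalities.
-/

open MeasureTheory Set Filter Topology

namespace Pool.Agent.N983.GT

theorem cube3 {x y z : ℝ} (hx : 0 < x) (hy : 0 < y) (hz : 0 < z) :
    3 ≤ y * z / x ^ 2 + z * x / y ^ 2 + x * y / z ^ 2 := by
  have h : 3 * (x ^ 2 * y ^ 2 * z ^ 2) ≤ (y * z) ^ 3 + (z * x) ^ 3 + (x * y) ^ 3 := by
    set a := y * z with ha
    set b := z * x with hb
    set c := x * y with hc
    have ha0 : 0 < a := by positivity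
    have hb0 : 0 < b := by positivity
    have hc0 : 0 < c := by positivity
    have e : x ^ 2 * y ^ 2 * z ^ 2 = a * b * c := by rw [ha, hb, hc]; ring
    rw [e]
    nlinarith [mul_nonneg (add_pos (add_pos ha0 hb0) hc0).le
      (add_nonneg (add_nonneg (sq_nonneg (a - b)) (sq_nonneg (b - c))) (sq_nonneg (c - a)))]
  have e2 : y * z / x ^ 2 + z * x / y ^ 2 + x * y / z ^ 2
      = ((y * z) ^ 3 + (z * x) ^ 3 + (x * y) ^ 3) / (x ^ 2 * y ^ 2 * z ^ 2) := by
    field_simp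
  rw [e2, le_div_iff₀ (by positivity)]
  exact h

/-- Three quantities with `sⱼ' ≥ sⱼ₊₁ sⱼ₊₂ - 1/2` and `sⱼ(0) = 1` blow up before time `2`. -/
theorem riccati3 {s s' : Fin 3 → ℝ → ℝ} {T : ℝ} (hc : ∀ j, ContinuousOn (s j) (Ico 0 T))
    (h0 : ∀ j, s j 0 = 1) (hd : ∀ j, ∀ t ∈ Ioo 0 T, HasDerivAt (s j) (s' j t) t)
    (hs : ∀ j, ∀ t ∈ Ioo 0 T, (∀ i, 0 ≤ s i t) → s (j + 1) t * s (j + 2) t - 1 / 2 ≤ s' j t) :
    T ≤ 2 := by
  by_contra hcon
  push Not at hcon
  have hsub : Icc (0 : ℝ) 2 ⊆ Ico 0 T := Icc_subset_Ico_right hcon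
  have hcI : ∀ j, ContinuousOn (s j) (Icc 0 2) := fun j => (hc j).mono hsub
  -- all the quantities stay above one
  have h1 : Icc (0 : ℝ) 2 ⊆ {t | ∀ j, 1 ≤ s j t} := by
    refine IsClosed.Icc_subset_of_forall_exists_gt ?_ ?_ ?_
    · have : {t | ∀ j, 1 ≤ s j t} ∩ Icc (0 : ℝ) 2 = ⋂ j, (Icc (0 : ℝ) 2 ∩ s j ⁻¹' Ici 1) := by
        ext t
        simp only [mem_inter_iff, mem_setOf_eq, mem_iInter, mem_preimage, mem_Ici]
        constructor
        · rintro ⟨h1, h2⟩ j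
          exact ⟨h2, h1 j⟩
        · intro h1
          exact ⟨fun j => (h1 j).2, (h1 0).1⟩
      rw [this]
      exact isClosed_iInter fun j => (hcI j).preimage_isClosed_of_isClosed isClosed_Icc isClosed_Ici
    · intro j
      rw [h0]
    · rintro x ⟨hx1, hx2⟩ y hy
      simp only [mem_setOf_eq] at hx1
      -- near x the quantities are at least 9/10
      have hxI : x ∈ Ico 0 T := ⟨hx2.1, hx2.2.trans hcon⟩
      have hnear : ∀ᶠ t in 𝓝[Ico 0 T] x, ∀ j, (9 : ℝ) / 10 < s j t := by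
        rw [Filter.eventually_all]
        intro j
        have := (hc j) x hxI
        exact this.eventually_const_lt (by linarith [hx1 j])
      have hnear2 : ∀ᶠ t in 𝓝[>] x, ∀ j, (9 : ℝ) / 10 < s j t := by
        have h2 : 𝓝[Ioo x T] x ≤ 𝓝[Ico 0 T] x :=
          nhdsWithin_mono _ fun t ht => ⟨hx2.1.trans ht.1.le, ht.2⟩
        have h3 : 𝓝[>] x = 𝓝[Ioo x T] x := (nhdsWithin_Ioo_eq_nhdsGT hxI.2).symm
        rw [h3]
        exact h2 hnear
      obtain ⟨u, hu1, hu2⟩ := (mem_nhdsGT_iff_exists_Ioc_subset).1 hnear2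
      set t := min (min u y) 2 with ht
      have hxt : x < t := lt_min (lt_min hu1 hy) hx2.2
      refine ⟨t, ?_, hxt, (min_le_left _ _).trans (min_le_right _ _)⟩
      intro j
      have htu : t ≤ u := (min_le_left _ _).trans (min_le_left _ _)
      have ht2 : t ≤ 2 := min_le_right _ _
      have hmono : MonotoneOn (s j) (Icc x t) := by
        refine monotoneOn_of_deriv_nonneg (convex_Icc x t) ?_ ?_ ?_
        · exact (hcI j).mono (Icc_subset_Icc hx2.1 ht2)
        · rw [interior_Icc]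
          intro r hr
          exact (hd j r ⟨hx2.1.trans_lt hr.1, (hr.2.trans_le ht2).trans hcon⟩).differentiableAt.differentiableWithinAt
        · rw [interior_Icc]
          intro r hr
          have hrI : r ∈ Ioo 0 T := ⟨hx2.1.trans_lt hr.1, (hr.2.trans_le ht2).trans hcon⟩
          rw [(hd j r hrI).deriv]
          have h5 : ∀ i, (9 : ℝ) / 10 < s i r := hu2 ⟨hr.1, hr.2.le.trans htu⟩
          have h6 := hs j r hrI (fun i => by linarith [h5 i])
          nlinarith [h5 (j + 1), h5 (j + 2)]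
      have := hmono (left_mem_Icc.2 hxt.le) (right_mem_Icc.2 hxt.le) hxt.le
      exact (hx1 j).trans this
  -- the sum of the inverses decreases
  have hpos : ∀ t ∈ Icc (0 : ℝ) 2, ∀ j, 0 < s j t := fun t ht j => by
    have := h1 ht j
    linarith
  have hder : ∀ t ∈ Ioo (0 : ℝ) 2, HasDerivAt (fun t => (s 0 t)⁻¹ + (s 1 t)⁻¹ + (s 2 t)⁻¹ + 3 / 2 * t)
      (-(s' 0 t) / (s 0 t) ^ 2 + -(s' 1 t) / (s 1 t) ^ 2 + -(s' 2 t) / (s 2 t) ^ 2 + 3 / 2 * 1) t := by
    intro t ht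
    have htI : t ∈ Ioo 0 T := ⟨ht.1, ht.2.trans hcon⟩
    have hp := hpos t ⟨ht.1.le, ht.2.le⟩
    exact ((((hd 0 t htI).inv (hp 0).ne').add ((hd 1 t htI).inv (hp 1).ne')).add
      ((hd 2 t htI).inv (hp 2).ne')).add ((hasDerivAt_id t).const_mul (3 / 2 : ℝ))
  have hanti : AntitoneOn (fun t => (s 0 t)⁻¹ + (s 1 t)⁻¹ + (s 2 t)⁻¹ + 3 / 2 * t) (Icc 0 2) := by
    refine antitoneOn_of_deriv_nonpos (convex_Icc 0 2) ?_ ?_ ?_
    · refine ((((hcI 0).inv₀ fun t ht => (hpos t ht 0).ne').add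
        ((hcI 1).inv₀ fun t ht => (hpos t ht 1).ne')).add
        ((hcI 2).inv₀ fun t ht => (hpos t ht 2).ne')).add (by fun_prop)
    · rw [interior_Icc]
      exact fun t ht => (hder t ht).differentiableAt.differentiableWithinAt
    · rw [interior_Icc]
      intro t ht
      rw [(hder t ht).deriv]
      have htI : t ∈ Ioo 0 T := ⟨ht.1, ht.2.trans hcon⟩
      have htc : t ∈ Icc (0 : ℝ) 2 := ⟨ht.1.le, ht.2.le⟩
      have hp := hpos t htc
      have h2 := h1 htc
      have hnn : ∀ i, 0 ≤ s i t := fun i => (hp i).le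
      have k0 := hs 0 t htI hnn
      have k1 := hs 1 t htI hnn
      have k2 := hs 2 t htI hnn
      have r1 : (0 : Fin 3) + 1 = 1 := rfl
      have r2 : (0 : Fin 3) + 2 = 2 := rfl
      have r3 : (1 : Fin 3) + 1 = 2 := rfl
      have r4 : (1 : Fin 3) + 2 = 0 := rfl
      have r5 : (2 : Fin 3) + 1 = 0 := rfl
      have r6 : (2 : Fin 3) + 2 = 1 := rfl
      rw [r1, r2] at k0
      rw [r3, r4] at k1
      rw [r5, r6] at k2
      have a0 := h2 0
      have a1 := h2 1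
      have a2 := h2 2
      have m0 : s 1 t * s 2 t / 2 ≤ s' 0 t := by nlinarith
      have m1 : s 2 t * s 0 t / 2 ≤ s' 1 t := by nlinarith
      have m2 : s 0 t * s 1 t / 2 ≤ s' 2 t := by nlinarith
      have hc3 := cube3 (hp 0) (hp 1) (hp 2)
      have n0 : s 1 t * s 2 t / (s 0 t) ^ 2 / 2 ≤ s' 0 t / (s 0 t) ^ 2 := by
        rw [div_right_comm]; exact div_le_div_of_nonneg_right m0 (sq_nonneg _)
      have n1 : s 2 t * s 0 t / (s 1 t) ^ 2 / 2 ≤ s' 1 t / (s 1 t) ^ 2 := by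
        rw [div_right_comm]; exact div_le_div_of_nonneg_right m1 (sq_nonneg _)
      have n2 : s 0 t * s 1 t / (s 2 t) ^ 2 / 2 ≤ s' 2 t / (s 2 t) ^ 2 := by
        rw [div_right_comm]; exact div_le_div_of_nonneg_right m2 (sq_nonneg _)
      rw [neg_div, neg_div, neg_div]
      linarith
  have h2 := hanti (left_mem_Icc.2 (by norm_num)) (right_mem_Icc.2 (by norm_num)) (by norm_num : (0:ℝ) ≤ 2)
  simp only [h0] at h2
  have p0 := inv_pos.2 (hpos 2 (right_mem_Icc.2 (by norm_num)) 0)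
  have p1 := inv_pos.2 (hpos 2 (right_mem_Icc.2 (by norm_num)) 1)
  have p2 := inv_pos.2 (hpos 2 (right_mem_Icc.2 (by norm_num)) 2)
  norm_num at h2
  linarith

end Pool.Agent.N983.GT
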