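import Pool.Agent.N983.GT.Ener

/-!
The Euler equations on the torus, truncated in the first two variables.
-/

open MeasureTheory Set Filter Topology
open scoped ContDiff ComplexConjugate

namespace Pool.Agent.N983.GT

/-- The space `ℝ³`. -/
abbrev Vec := Fin 3 → ℝ

/-- The partial derivative in the direction of the coordinate `j`. -/
noncomputable def dx (j : Fin 3) (f : Vec → ℝ) (x : Vec) : ℝ := fderiv ℝ f x (Pi.single j 1)

/-- The box of wave vectors. -/
noncomputable def box (M : ℕ) : Finset Z2 := Finset.Icc (-(M : ℤ)) M ×ˢ Finset.Icc (-(M : ℤ)) M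

/-- The character with wave vector `k` in two variables. -/
noncomputable def EE (k : Z2) (a b : ℝ) : ℂ := Complex.exp (Complex.I * (k.1 * a + k.2 * b))

/-- The Fourier coefficient of `g` in the first two variables. -/
noncomputable def coef (k : Z2) (g : Vec → ℝ) (z : ℝ) : ℂ :=
  1 / (2 * Real.pi) ^ 2 * ∫ a in (-Real.pi)..Real.pi, ∫ b in (-Real.pi)..Real.pi,
    Complex.exp (-Complex.I * (k.1 * a + k.2 * b)) * g ![a, b, z]

/-- The Fourier truncation in the first two variables. -/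
noncomputable def trunc (M : ℕ) (g : Vec → ℝ) (x : Vec) : ℂ :=
  ∑ k ∈ box M, coef k g (x 2) * Complex.exp (Complex.I * (k.1 * x 0 + k.2 * x 1))

/-- `C¹` solutions on `[0, T)` of the Euler equations truncated in the first two variables. -/
structure IsSol (M : ℕ) (T : ℝ) (u : ℝ → Vec → Vec) (p : ℝ → Vec → ℝ) : Prop where
  smooth_u : ContDiffOn ℝ 1 (fun s : ℝ × Vec => u s.1 s.2) (Ico 0 T ×ˢ univ)
  smooth_p : ContDiffOn ℝ 1 (fun s : ℝ × Vec => p s.1 s.2) (Ico 0 T ×ˢ univ)
  per_u : ∀ t ∈ Ico 0 T, ∀ x j, u t (x + Pi.single j (2 * Real.pi)) = u t x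
  per_p : ∀ t ∈ Ico 0 T, ∀ x j, p t (x + Pi.single j (2 * Real.pi)) = p t x
  trunc_u : ∀ t ∈ Ico 0 T, ∀ x i, trunc M (fun y => u t y i) x = u t x i
  trunc_p : ∀ t ∈ Ico 0 T, ∀ x, trunc M (p t) x = p t x
  divfree : ∀ t ∈ Ico 0 T, ∀ x, ∑ i, dx i (fun y => u t y i) x = 0
  euler : ∀ t ∈ Ioo 0 T, ∀ x i, ((deriv (fun s => u s x i) t : ℝ) : ℂ)
    + trunc M (fun y => ∑ j, u t y j * dx j (fun y => u t y i) y) x + (dx i (p t) x : ℝ) = 0

theorem mem_box {M : ℕ} {k : Z2} : k ∈ box M ↔ |k.1| ≤ M ∧ |k.2| ≤ M := by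
  unfold box
  rw [Finset.mem_product, Finset.mem_Icc, Finset.mem_Icc, abs_le, abs_le]

theorem box_symm {M : ℕ} : ∀ k ∈ box M, -k ∈ box M := by
  intro k hk
  rw [mem_box] at hk ⊢
  simpa using hk

section disc

/-- orthogonality of the discrete characters -/
theorem geom {L : ℕ} (hL : 0 < L) {m : ℤ} (hm : |m| < L) :
    (∑ a ∈ Finset.range L, Complex.exp (Complex.I * (m * (2 * Real.pi * a / L))))
      = if m = 0 then (L : ℂ) else 0 := by
  by_cases h0 : m = 0
  · simp [h0]
  · rw [if_neg h0]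
    have hLc : (L : ℂ) ≠ 0 := by exact_mod_cast hL.ne'
    set ζ : ℂ := Complex.exp (2 * Real.pi * Complex.I * (m / L)) with hζ
    have h1 : ∀ a : ℕ, Complex.exp (Complex.I * (m * (2 * Real.pi * a / L))) = ζ ^ a := by
      intro a
      rw [hζ, ← Complex.exp_nat_mul]
      congr 1
      ring
    simp_rw [h1]
    have h2 : ζ ≠ 1 := by
      intro hc
      rw [hζ, Complex.exp_eq_one_iff] at hc
      obtain ⟨n, hn⟩ := hc
      have h3 : (m : ℂ) = n * L := by
        have h4 : (2 * Real.pi * Complex.I : ℂ) ≠ 0 := Complex.two_pi_I_ne_zero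
        have h5 : (2 * Real.pi * Complex.I : ℂ) * (m / L) = 2 * Real.pi * Complex.I * n := by
          rw [hn]; ring
        have h6 := mul_left_cancel₀ h4 h5
        rw [← h6]
        field_simp
      have h7 : m = n * L := by exact_mod_cast h3
      have hn0 : n ≠ 0 := by rintro rfl; apply h0; rw [h7]; ring
      have h8 : (1 : ℤ) ≤ |n| := Int.one_le_abs hn0
      rw [h7, abs_mul, Nat.abs_cast] at hm
      have h9 : (0 : ℤ) < L := by exact_mod_cast hL
      nlinarith
    have h3 : ζ ^ L = 1 := by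
      rw [hζ, ← Complex.exp_nat_mul, Complex.exp_eq_one_iff]
      refine ⟨m, ?_⟩
      field_simp
    rw [geom_sum_eq h2, h3, sub_self, zero_div]

/-- The discrete Fourier coefficient. -/
noncomputable def dco (M : ℕ) (k : Z2) (g : Vec → ℂ) (z : ℝ) : ℂ :=
  (1 / ((2 * M + 1 : ℕ) : ℂ) ^ 2) * ∑ a ∈ Finset.range (2 * M + 1), ∑ b ∈ Finset.range (2 * M + 1),
    EE (-k) (2 * Real.pi * a / (2 * M + 1 : ℕ)) (2 * Real.pi * b / (2 * M + 1 : ℕ))
      * g ![2 * Real.pi * a / (2 * M + 1 : ℕ), 2 * Real.pi * b / (2 * M + 1 : ℕ), z]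

theorem dco_eq {M : ℕ} {g : Vec → ℂ} {c : Z2 → ℝ → ℂ}
    (h : ∀ x, g x = ∑ q ∈ box M, EE q (x 0) (x 1) * c q (x 2)) {k : Z2} (hk : k ∈ box M) (z : ℝ) :
    dco M k g z = c k z := by
  unfold dco
  set L : ℕ := 2 * M + 1 with hL
  have hL0 : 0 < L := by omega
  have hLc : (L : ℂ) ≠ 0 := by exact_mod_cast hL0.ne'
  have h1 : ∀ a b : ℕ, EE (-k) (2 * Real.pi * a / L) (2 * Real.pi * b / L)
      * g ![2 * Real.pi * a / L, 2 * Real.pi * b / L, z]
      = ∑ q ∈ box M, c q z * (Complex.exp (Complex.I * ((q.1 - k.1 : ℤ) * (2 * Real.pi * a / L)))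
        * Complex.exp (Complex.I * ((q.2 - k.2 : ℤ) * (2 * Real.pi * b / L)))) := by
    intro a b
    rw [h, Finset.mul_sum]
    refine Finset.sum_congr rfl fun q _ => ?_
    simp only [Matrix.cons_val_zero, Matrix.cons_val_one, Matrix.cons_val]
    unfold EE
    rw [← mul_assoc, ← Complex.exp_add, ← Complex.exp_add, mul_comm]
    congr 2
    simp only [Prod.fst_neg, Prod.snd_neg]
    push_cast
    ring
  simp_rw [h1]
  have h2 : ∑ a ∈ Finset.range L, ∑ b ∈ Finset.range L, ∑ q ∈ box M, c q z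
      * (Complex.exp (Complex.I * ((q.1 - k.1 : ℤ) * (2 * Real.pi * a / L)))
        * Complex.exp (Complex.I * ((q.2 - k.2 : ℤ) * (2 * Real.pi * b / L))))
      = ∑ q ∈ box M, c q z * ((∑ a ∈ Finset.range L,
          Complex.exp (Complex.I * ((q.1 - k.1 : ℤ) * (2 * Real.pi * a / L))))
        * ∑ b ∈ Finset.range L,
          Complex.exp (Complex.I * ((q.2 - k.2 : ℤ) * (2 * Real.pi * b / L)))) := by
    have : ∀ a ∈ Finset.range L, ∑ b ∈ Finset.range L, ∑ q ∈ box M, c q z
      * (Complex.exp (Complex.I * ((q.1 - k.1 : ℤ) * (2 * Real.pi * a / L)))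
        * Complex.exp (Complex.I * ((q.2 - k.2 : ℤ) * (2 * Real.pi * b / L))))
        = ∑ q ∈ box M, c q z * (Complex.exp (Complex.I * ((q.1 - k.1 : ℤ) * (2 * Real.pi * a / L)))
        * ∑ b ∈ Finset.range L,
          Complex.exp (Complex.I * ((q.2 - k.2 : ℤ) * (2 * Real.pi * b / L)))) := by
      intro a _
      rw [Finset.sum_comm]
      refine Finset.sum_congr rfl fun q _ => ?_
      rw [← Finset.mul_sum, ← Finset.mul_sum]
    rw [Finset.sum_congr rfl this, Finset.sum_comm]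
    refine Finset.sum_congr rfl fun q _ => ?_
    rw [← Finset.mul_sum, ← Finset.sum_mul]
  rw [h2]
  rw [mem_box] at hk
  rw [Finset.sum_eq_single k]
  · rw [geom hL0 (by simp; omega), geom hL0 (by simp; omega)]
    simp only [sub_self, if_true]
    field_simp
  · intro q hq hne
    rw [mem_box] at hq
    have b1 : |q.1 - k.1| < (L : ℤ) := by
      have := abs_sub (q.1) (k.1)
      omega
    have b2 : |q.2 - k.2| < (L : ℤ) := by
      have := abs_sub (q.2) (k.2)
      omega
    rw [geom hL0 b1, geom hL0 b2]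
    by_cases e1 : q.1 - k.1 = 0
    · have e2 : q.2 - k.2 ≠ 0 := by
        intro e2
        apply hne
        ext
        · omega
        · omega
      rw [if_neg e2, mul_zero, mul_zero]
    · rw [if_neg e1, zero_mul, mul_zero]
  · intro hc
    exact absurd (mem_box.2 hk) hc

end disc

end Pool.Agent.N983.GT
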