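import Pool.Agent.N983.GT.TDefs

/-!
Reduction of the mode system to the real three-wave system.
-/

open MeasureTheory Set Filter Topology
open scoped ContDiff ComplexConjugate

namespace Pool.Agent.N983.GT

variable {S : Finset Z2} {T : ℝ} {w : Z2 → Fin 3 → ℝ → ℝ → ℂ} {p : Z2 → ℝ → ℝ → ℂ}

/-- An isolated triad. -/
structure Iso (S : Finset Z2) (K : Fin 3 → Z2) : Prop where
  symm : ∀ k ∈ S, -k ∈ S
  sum : K 0 + K 1 + K 2 = 0
  mem : ∀ j, K j ∈ S
  det : (K 0).1 * (K 1).2 - (K 0).2 * (K 1).1 ≠ 0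
  iso : ∀ a b : ℤ, a • K 0 + b • K 1 ∈ S → (a = 0 ∧ b = 0) ∨ (a = 1 ∧ b = 0) ∨ (a = -1 ∧ b = 0) ∨
    (a = 0 ∧ b = 1) ∨ (a = 0 ∧ b = -1) ∨ (a = 1 ∧ b = 1) ∨ (a = -1 ∧ b = -1)

/-- The wave vectors of the triad and their opposites. -/
def InT (K : Fin 3 → Z2) (k : Z2) : Prop := ∃ j, k = K j ∨ k = -K j

/-- The datum. -/
noncomputable def dat (K : Fin 3 → Z2) (θ Θ : ℝ → ℝ) (k : Z2) (i : Fin 3) (z : ℝ) : ℂ :=
  open Classical in
  if InT K k then ![-Complex.I * k.1 * θ z, -Complex.I * k.2 * θ z,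
    -((k.1 : ℂ) ^ 2 + (k.2 : ℂ) ^ 2) * Θ z] i else 0

theorem InT.neg {K : Fin 3 → Z2} {k : Z2} (h : InT K k) : InT K (-k) := by
  obtain ⟨j, h | h⟩ := h
  · exact ⟨j, Or.inr (by rw [h])⟩
  · exact ⟨j, Or.inl (by rw [h, neg_neg])⟩

theorem inT_neg {K : Fin 3 → Z2} {k : Z2} : InT K (-k) ↔ InT K k :=
  ⟨fun h => by simpa using h.neg, fun h => h.neg⟩

/-- characters of `ℤ²` -/
noncomputable def chr (x y : ℝ) (k : Z2) : ℂ :=
  Complex.exp (2 * Real.pi * Complex.I * ((x * k.1 + y * k.2 : ℝ) : ℂ))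

theorem chr_add (x y : ℝ) (a b : Z2) : chr x y (a + b) = chr x y a * chr x y b := by
  unfold chr
  rw [← Complex.exp_add]
  congr 1
  simp only [Prod.fst_add, Prod.snd_add]
  push_cast
  ring

theorem chr_neg (x y : ℝ) (a : Z2) : chr x y (-a) = conj (chr x y a) := by
  unfold chr
  rw [← Complex.exp_conj]
  congr 1
  simp only [map_mul, Complex.conj_ofReal, Complex.conj_I, Prod.fst_neg, Prod.snd_neg, map_ofNat]
  push_cast
  ring

theorem chr_eq_one {x y : ℝ} {k : Z2} (h : chr x y k = 1) : ∃ n : ℤ, x * k.1 + y * k.2 = n := by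
  unfold chr at h
  rw [Complex.exp_eq_one_iff] at h
  obtain ⟨n, hn⟩ := h
  refine ⟨n, ?_⟩
  have h2 : (2 * Real.pi * Complex.I : ℂ) ≠ 0 := Complex.two_pi_I_ne_zero
  have h3 : ((x * k.1 + y * k.2 : ℝ) : ℂ) = (n : ℂ) := by
    have : (2 * Real.pi * Complex.I : ℂ) * ((x * k.1 + y * k.2 : ℝ) : ℂ)
        = (2 * Real.pi * Complex.I) * (n : ℂ) := by rw [hn]; ring
    exact mul_left_cancel₀ h2 this
  exact_mod_cast h3

theorem chr_int {x y : ℝ} {k : Z2} {n : ℤ} (h : x * k.1 + y * k.2 = n) : chr x y k = 1 := by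
  unfold chr
  rw [h, Complex.exp_eq_one_iff]
  exact ⟨n, by push_cast; ring⟩

section red

variable {K : Fin 3 → Z2} {θ Θ : ℝ → ℝ}

theorem Iso.K2 (hI : Iso S K) : K 2 = -K 0 - K 1 := by
  have := hI.sum
  linear_combination this

/-- The data is invariant under twisting with a character which is trivial on the triad. -/
theorem dat_chr {x y : ℝ} (h : ∀ j, chr x y (K j) = 1) (k : Z2) (i : Fin 3) (z : ℝ) :
    (chr x y k * sg 1 1 i) * dat K θ Θ (act 1 k) i ((1 : ℤ) * z) = dat K θ Θ k i z := by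
  have h1 : act 1 k = k := by unfold act; simp
  have h2 : sg 1 1 i = 1 := by unfold sg; split_ifs <;> simp
  rw [h1, h2, mul_one]
  simp only [Int.cast_one, one_mul]
  by_cases hk : InT K k
  · have h3 : chr x y k = 1 := by
      obtain ⟨j, hj | hj⟩ := hk
      · rw [hj]; exact h j
      · rw [hj, chr_neg, h j, map_one]
    rw [h3, one_mul]
  · unfold dat
    rw [if_neg hk, mul_zero]

theorem dat_par (k : Z2) (i : Fin 3) (z : ℝ) :
    (1 * sg (-1) 1 i) * dat K θ Θ (act (-1) k) i ((1 : ℤ) * z) = dat K θ Θ k i z := by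
  have h1 : act (-1) k = -k := by unfold act; ext <;> simp
  rw [h1]
  simp only [Int.cast_one, one_mul]
  unfold dat
  by_cases hk : InT K k
  · rw [if_pos hk, if_pos hk.neg]
    unfold sg
    fin_cases i
    · simp
    · simp
    · simp
  · rw [if_neg hk, if_neg (fun h => hk (inT_neg.1 h)), mul_zero]

theorem dat_refl (hθ : ∀ z, θ (-z) = θ z) (hΘ : ∀ z, Θ (-z) = -Θ z) (k : Z2) (i : Fin 3) (z : ℝ) :
    (1 * sg 1 (-1) i) * dat K θ Θ (act 1 k) i ((-1 : ℤ) * z) = dat K θ Θ k i z := by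
  have h1 : act 1 k = k := by unfold act; simp
  rw [h1]
  have h2 : ((-1 : ℤ) : ℝ) * z = -z := by push_cast; ring
  rw [h2]
  unfold dat
  by_cases hk : InT K k
  · rw [if_pos hk, if_pos hk]
    unfold sg
    fin_cases i
    · simp [hθ]
    · simp [hθ]
    · simp [hΘ]
  · rw [if_neg hk, if_neg hk, mul_zero]

variable (h : MSol S T w p) (hI : Iso S K) (h0 : ∀ k i z, w k i 0 z = dat K θ Θ k i z)
  (hθ : ∀ z, θ (-z) = θ z) (hΘ : ∀ z, Θ (-z) = -Θ z)

include h hI h0

theorem par {t : ℝ} (ht : t ∈ Ico 0 T) (k : Z2) (i : Fin 3) (z : ℝ) :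
    sg (-1) 1 i * w (-k) i t z = w k i t z := by
  have h1 := h.symm_eq hI.symm (χ := fun _ => 1) (fun _ _ => by simp) (fun _ => by simp)
    (σ := -1) (ε := 1) (Or.inr rfl) (Or.inl rfl)
    (fun k i z => by rw [h0, h0]; exact dat_par k i z) ht k i z
  have h2 : act (-1) k = -k := by unfold act; ext <;> simp
  rw [h2] at h1
  simpa using h1

include hθ hΘ in
theorem refl' {t : ℝ} (ht : t ∈ Ico 0 T) (k : Z2) (i : Fin 3) (z : ℝ) :
    sg 1 (-1) i * w k i t (-z) = w k i t z := by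
  have h1 := h.symm_eq hI.symm (χ := fun _ => 1) (fun _ _ => by simp) (fun _ => by simp)
    (σ := 1) (ε := -1) (Or.inl rfl) (Or.inr rfl)
    (fun k i z => by rw [h0, h0]; exact dat_refl hθ hΘ k i z) ht k i z
  have h2 : act 1 k = k := by unfold act; simp
  rw [h2] at h1
  simpa using h1

theorem zero_of_chr {x y : ℝ} (hx : ∀ j, chr x y (K j) = 1) {k : Z2} (hk : chr x y k ≠ 1)
    {t : ℝ} (ht : t ∈ Ico 0 T) (i : Fin 3) (z : ℝ) : w k i t z = 0 := by
  have h1 := h.symm_eq hI.symm (χ := chr x y) (chr_add x y) (chr_neg x y)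
    (σ := 1) (ε := 1) (Or.inl rfl) (Or.inl rfl)
    (fun k i z => by rw [h0, h0]; exact dat_chr hx k i z) ht k i z
  have h2 : act 1 k = k := by unfold act; simp
  have h3 : sg 1 1 i = 1 := by unfold sg; split_ifs <;> simp
  rw [h2, h3] at h1
  simp only [mul_one, Int.cast_one, one_mul] at h1
  have h4 : (chr x y k - 1) * w k i t z = 0 := by linear_combination h1
  rcases mul_eq_zero.1 h4 with h5 | h5
  · exact absurd (sub_eq_zero.1 h5) hk
  · exact h5

/-- imaginary horizontal modes, real vertical modes -/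
theorem w_re {t : ℝ} (ht : t ∈ Ico 0 T) (k : Z2) {i : Fin 3} (hi : i ≠ 2) (z : ℝ) :
    (w k i t z).re = 0 := by
  have h1 := par h hI h0 ht k i z
  rw [h.real k i t ht z] at h1
  unfold sg at h1
  rw [if_neg hi] at h1
  have h2 := congrArg Complex.re h1
  simp at h2
  linarith

theorem w_im {t : ℝ} (ht : t ∈ Ico 0 T) (k : Z2) (z : ℝ) : (w k 2 t z).im = 0 := by
  have h1 := par h hI h0 ht k 2 z
  rw [h.real k 2 t ht z] at h1
  unfold sg at h1
  rw [if_pos rfl] at h1
  have h2 := congrArg Complex.im h1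
  simp at h2
  linarith

include hθ hΘ in
theorem w_zero {t : ℝ} (ht : t ∈ Ico 0 T) (i : Fin 3) (z : ℝ) : w 0 i t z = 0 := by
  by_cases hi : i = 2
  · subst hi
    have hc : ∀ y, w 0 2 t y = w 0 2 t 0 := by
      intro y
      refine is_const_of_deriv_eq_zero (((h.c1 0 2).slice ht).differentiable one_ne_zero) ?_ y 0
      intro y
      have := h.div 0 t ht y
      unfold dv at this
      simpa using this
    have h1 := refl' h hI h0 hθ hΘ ht 0 2 0
    rw [neg_zero] at h1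
    unfold sg at h1
    rw [if_pos rfl] at h1
    have h2 : (2 : ℂ) * w 0 2 t 0 = 0 := by
      push_cast at h1
      linear_combination -h1
    rw [hc z]
    simpa using h2
  · have h1 := par h hI h0 ht 0 i z
    rw [neg_zero] at h1
    unfold sg at h1
    rw [if_neg hi] at h1
    have h2 : (2 : ℂ) * w 0 i t z = 0 := by
      push_cast at h1
      linear_combination -h1
    simpa using h2

include hθ hΘ in
/-- only the modes of the triad are excited -/
theorem w_supp {t : ℝ} (ht : t ∈ Ico 0 T) {k : Z2} (hk : ¬ InT K k) (i : Fin 3) (z : ℝ) :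
    w k i t z = 0 := by
  by_cases hkS : k ∈ S
  swap
  · exact h.supp k hkS i t z
  have hD : ((((K 0).1 * (K 1).2 - (K 0).2 * (K 1).1 : ℤ)) : ℝ) ≠ 0 := by exact_mod_cast hI.det
  set D : ℝ := (((K 0).1 * (K 1).2 - (K 0).2 * (K 1).1 : ℤ) : ℝ) with hDdef
  have hD' : D = ((K 0).1 : ℝ) * (K 1).2 - (K 0).2 * (K 1).1 := by rw [hDdef]; push_cast; ring
  have hK2 := hI.K2
  have hK21 : ((K 2).1 : ℝ) = -(K 0).1 - (K 1).1 := by rw [hK2]; simp
  have hK22 : ((K 2).2 : ℝ) = -(K 0).2 - (K 1).2 := by rw [hK2]; simp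
  -- the first character
  have c1 : ∀ j, chr ((K 1).2 / D) (-(K 1).1 / D) (K j) = 1 := by
    intro j
    fin_cases j
    · refine chr_int (n := 1) ?_
      field_simp
      rw [hD']
      push_cast
      ring
    · refine chr_int (n := 0) ?_
      field_simp
      push_cast
      ring
    · refine chr_int (n := -1) ?_
      simp only [Fin.reduceFinMk]
      rw [hK21, hK22]
      field_simp
      rw [hD']
      push_cast
      ring
  have c2 : ∀ j, chr (-(K 0).2 / D) ((K 0).1 / D) (K j) = 1 := by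
    intro j
    fin_cases j
    · refine chr_int (n := 0) ?_
      field_simp
      push_cast
      ring
    · refine chr_int (n := 1) ?_
      field_simp
      rw [hD']
      push_cast
      ring
    · refine chr_int (n := -1) ?_
      simp only [Fin.reduceFinMk]
      rw [hK21, hK22]
      field_simp
      rw [hD']
      push_cast
      ring
  by_cases e1 : chr ((K 1).2 / D) (-(K 1).1 / D) k = 1
  swap
  · exact zero_of_chr h hI h0 c1 e1 ht i z
  by_cases e2 : chr (-(K 0).2 / D) ((K 0).1 / D) k = 1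
  swap
  · exact zero_of_chr h hI h0 c2 e2 ht i z
  obtain ⟨a, ha⟩ := chr_eq_one e1
  obtain ⟨b, hb⟩ := chr_eq_one e2
  have hkab : k = a • K 0 + b • K 1 := by
    have f1 : (k.1 : ℝ) = a * (K 0).1 + b * (K 1).1 := by
      rw [← ha, ← hb]
      field_simp
      rw [hD']
      ring
    have f2 : (k.2 : ℝ) = a * (K 0).2 + b * (K 1).2 := by
      rw [← ha, ← hb]
      field_simp
      rw [hD']
      ring
    ext
    · simp only [Prod.fst_add, Prod.smul_fst, smul_eq_mul]
      exact_mod_cast f1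
    · simp only [Prod.snd_add, Prod.smul_snd, smul_eq_mul]
      exact_mod_cast f2
  rcases hI.iso a b (hkab ▸ hkS) with ⟨ha, hb⟩ | ⟨ha, hb⟩ | ⟨ha, hb⟩ | ⟨ha, hb⟩ | ⟨ha, hb⟩ |
    ⟨ha, hb⟩ | ⟨ha, hb⟩
  · have : k = 0 := by rw [hkab, ha, hb]; simp
    rw [this]
    exact w_zero h hI h0 hθ hΘ ht i z
  · exact absurd ⟨0, Or.inl (by rw [hkab, ha, hb]; simp)⟩ hk
  · exact absurd ⟨0, Or.inr (by rw [hkab, ha, hb]; simp)⟩ hk
  · exact absurd ⟨1, Or.inl (by rw [hkab, ha, hb]; simp)⟩ hk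
  · exact absurd ⟨1, Or.inr (by rw [hkab, ha, hb]; simp)⟩ hk
  · exact absurd ⟨2, Or.inr (by rw [hkab, ha, hb, hK2]; simp; abel)⟩ hk
  · exact absurd ⟨2, Or.inl (by rw [hkab, ha, hb, hK2]; simp; abel)⟩ hk

end red

end Pool.Agent.N983.GT
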