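import Pool.Agent.N983.GT.Red

/-!
Reduction of the mode system to the real three-wave system, second part.
-/

open MeasureTheory Set Filter Topology
open scoped ContDiff ComplexConjugate

namespace Pool.Agent.N983.GT

variable {S : Finset Z2} {T : ℝ} {w : Z2 → Fin 3 → ℝ → ℝ → ℂ} {p : Z2 → ℝ → ℝ → ℂ}
  {K : Fin 3 → Z2} {θ Θ : ℝ → ℝ}

theorem Iso.nm (hI : Iso S K) (a b : ℤ) (h : ¬ ((a = 0 ∧ b = 0) ∨ (a = 1 ∧ b = 0) ∨
    (a = -1 ∧ b = 0) ∨ (a = 0 ∧ b = 1) ∨ (a = 0 ∧ b = -1) ∨ (a = 1 ∧ b = 1) ∨ (a = -1 ∧ b = -1)))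
    {k : Z2} (hk : k = a • K 0 + b • K 1) : k ∉ S := by
  rw [hk]
  exact fun hc => h (hI.iso a b hc)

theorem Iso.sum' (hI : Iso S K) (j : Fin 3) : K j = -K (j + 1) - K (j + 2) := by
  have h := hI.K2
  fin_cases j
  · show K 0 = -K 1 - K 2
    rw [h]; abel
  · show K 1 = -K 2 - K 0
    rw [h]; abel
  · show K 2 = -K 0 - K 1
    exact h

theorem Iso.two (hI : Iso S K) (j : Fin 3) : K j + K j ∉ S := by
  have h := hI.K2
  fin_cases j
  · exact hI.nm 2 0 (by norm_num) (by simp [two_smul])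
  · exact hI.nm 0 2 (by norm_num) (by simp [two_smul])
  · refine hI.nm (-2) (-2) (by norm_num) ?_
    show K 2 + K 2 = _
    rw [h, neg_smul, neg_smul, two_smul, two_smul]
    abel

theorem Iso.d1 (hI : Iso S K) (j : Fin 3) : K j - K (j + 1) ∉ S := by
  have h := hI.K2
  fin_cases j
  · refine hI.nm 1 (-1) (by norm_num) ?_
    show K 0 - K 1 = _
    rw [neg_smul, one_smul, one_smul]; abel
  · refine hI.nm 1 2 (by norm_num) ?_
    show K 1 - K 2 = _
    rw [h, two_smul, one_smul]; abel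
  · refine hI.nm (-2) (-1) (by norm_num) ?_
    show K 2 - K 0 = _
    rw [h, neg_smul, neg_smul, two_smul, one_smul]; abel

theorem Iso.d2 (hI : Iso S K) (j : Fin 3) : K j - K (j + 2) ∉ S := by
  intro hc
  have h1 := hI.symm _ hc
  have h2 := hI.d1 (j + 2)
  apply h2
  have : j + 2 + 1 = j := by fin_cases j <;> rfl
  rw [this]
  rwa [neg_sub] at h1

theorem Iso.ne (hI : Iso S K) (j : Fin 3) : -K (j + 1) ≠ -K (j + 2) := by
  intro hc
  have h1 := hI.sum' j
  have hc' := neg_injective hc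
  have h2 : -K j = K (j + 1) + K (j + 1) := by
    rw [h1, ← hc']
    abel
  exact hI.two (j + 1) (h2 ▸ hI.symm _ (hI.mem j))

theorem deriv_zero_of {f : ℝ → ℂ} (h : ∀ z, f z = 0) (z : ℝ) : deriv f z = 0 := by
  have : f = fun _ => 0 := funext h
  rw [this]
  simp

section red

variable (h : MSol S T w p) (hI : Iso S K) (h0 : ∀ k i z, w k i 0 z = dat K θ Θ k i z)
  (hθ : ∀ z, θ (-z) = θ z) (hΘ : ∀ z, Θ (-z) = -Θ z)

include h hI h0 hθ hΘ in
theorem conv_triad {t : ℝ} (ht : t ∈ Ico 0 T) (j : Fin 3) (i : Fin 3) (z : ℝ) :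
    conv S (fun k i => w k i t) (fun k i => w k i t) (K j) i z
      = (Complex.I * (w (-K (j + 2)) 0 t z * (-K (j + 1)).1 + w (-K (j + 2)) 1 t z * (-K (j + 1)).2)
          * w (-K (j + 1)) i t z + w (-K (j + 2)) 2 t z * deriv (w (-K (j + 1)) i t) z)
        + (Complex.I * (w (-K (j + 1)) 0 t z * (-K (j + 2)).1
          + w (-K (j + 1)) 1 t z * (-K (j + 2)).2)
          * w (-K (j + 2)) i t z + w (-K (j + 1)) 2 t z * deriv (w (-K (j + 2)) i t) z) := by
  unfold conv
  rw [Finset.sum_eq_add_of_mem (-K (j + 1)) (-K (j + 2)) (hI.symm _ (hI.mem _))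
    (hI.symm _ (hI.mem _)) (hI.ne j)]
  · have e1 : K j - -K (j + 1) = -K (j + 2) := by rw [hI.sum' j]; abel
    have e2 : K j - -K (j + 2) = -K (j + 1) := by rw [hI.sum' j]; abel
    rw [e1, e2]
  · intro c hc hne
    by_cases hcT : InT K c
    · -- the other factor vanishes
      have hz : ∀ i z, w (K j - c) i t z = 0 := by
        obtain ⟨e, he⟩ := hcT
        have hje : e = j ∨ e = j + 1 ∨ e = j + 2 := by
          have : ∀ j e : Fin 3, e = j ∨ e = j + 1 ∨ e = j + 2 := by decide
          exact this j e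
        rcases hje with rfl | rfl | rfl
        · rcases he with rfl | rfl
          · intro i z
            rw [sub_self]
            exact w_zero h hI h0 hθ hΘ ht i z
          · intro i z
            rw [sub_neg_eq_add]
            exact h.supp _ (hI.two _) i t z
        · rcases he with rfl | rfl
          · intro i z
            exact h.supp _ (hI.d1 _) i t z
          · exact absurd rfl hne.1
        · rcases he with rfl | rfl
          · intro i z
            exact h.supp _ (hI.d2 _) i t z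
          · exact absurd rfl hne.2
      simp only [hz]
      ring
    · have hz : ∀ i z, w c i t z = 0 := fun i z => w_supp h hI h0 hθ hΘ ht hcT i z
      simp only [hz, deriv_zero_of (hz i)]
      ring

include h in
theorem w_neg {t : ℝ} (ht : t ∈ Ico 0 T) (k : Z2) (i : Fin 3) (z : ℝ) :
    deriv (w (-k) i t) z = conj (deriv (w k i t) z) := by
  have e : w (-k) i t = fun z => conj (w k i t z) := funext fun z => h.real k i t ht z
  rw [e]
  exact (hasDerivAt_conj ((h.c1 k i).hasDerivAt_z ht z)).deriv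

theorem hasDerivAt_im {f : ℝ → ℂ} {f' : ℂ} {z : ℝ} (h : HasDerivAt f f' z) :
    HasDerivAt (fun z => (f z).im) f'.im z := by
  exact Complex.imCLM.hasFDerivAt.comp_hasDerivAt z h

theorem C1.im {f : ℝ → ℝ → ℂ} (hf : C1 T f) : C1 T (fun t z => (f t z).im) :=
  Complex.imCLM.contDiff.comp_contDiffOn hf

theorem C1.re {f : ℝ → ℝ → ℂ} (hf : C1 T f) : C1 T (fun t z => (f t z).re) :=
  Complex.reCLM.contDiff.comp_contDiffOn hf

include h hI h0 in
theorem w_h_eq {t : ℝ} (ht : t ∈ Ico 0 T) (k : Z2) {i : Fin 3} (hi : i ≠ 2) (z : ℝ) :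
    w k i t z = Complex.I * ((w k i t z).im : ℂ) := by
  refine Complex.ext ?_ ?_
  · rw [w_re h hI h0 ht k hi z]; simp
  · simp

include h hI h0 in
theorem w_v_eq {t : ℝ} (ht : t ∈ Ico 0 T) (k : Z2) (z : ℝ) :
    w k 2 t z = ((w k 2 t z).re : ℂ) := by
  refine Complex.ext ?_ ?_
  · simp
  · rw [w_im h hI h0 ht k z]; simp

include h hI h0 in
theorem dw_h_eq {t : ℝ} (ht : t ∈ Ico 0 T) (k : Z2) {i : Fin 3} (hi : i ≠ 2) (z : ℝ) :
    deriv (w k i t) z = Complex.I * ((deriv (fun z => (w k i t z).im) z : ℝ) : ℂ) := by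
  have h1 := (h.c1 k i).hasDerivAt_z ht z
  have h2 : HasDerivAt (fun z => (w k i t z).re) 0 z := by
    have : (fun z => (w k i t z).re) = fun _ => 0 := funext fun z => w_re h hI h0 ht k hi z
    rw [this]; exact hasDerivAt_const _ _
  have h3 := (hasDerivAt_re h1).unique h2
  rw [(hasDerivAt_im h1).deriv]
  refine Complex.ext ?_ ?_
  · rw [h3]; simp
  · simp

include h hI h0 in
theorem dw_v_eq {t : ℝ} (ht : t ∈ Ico 0 T) (k : Z2) (z : ℝ) :
    deriv (w k 2 t) z = ((deriv (fun z => (w k 2 t z).re) z : ℝ) : ℂ) := by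
  have h1 := (h.c1 k 2).hasDerivAt_z ht z
  have h2 : HasDerivAt (fun z => (w k 2 t z).im) 0 z := by
    have : (fun z => (w k 2 t z).im) = fun _ => 0 := funext fun z => w_im h hI h0 ht k z
    rw [this]; exact hasDerivAt_const _ _
  have h3 := (hasDerivAt_im h1).unique h2
  rw [(hasDerivAt_re h1).deriv]
  refine Complex.ext ?_ ?_
  · simp
  · rw [h3]; simp

/-- the real wave vectors -/
noncomputable def kap (K : Fin 3 → Z2) (j : Fin 3) (e : Fin 2) : ℝ :=
  if e = 0 then ((K j).1 : ℝ) else ((K j).2 : ℝ)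

/-- The horizontal amplitudes. -/
noncomputable def Am (K : Fin 3 → Z2) (w : Z2 → Fin 3 → ℝ → ℝ → ℂ) (j : Fin 3) (e : Fin 2)
    (t z : ℝ) : ℝ := (w (K j) e.castSucc t z).im

/-- The vertical amplitudes. -/
noncomputable def Bm (K : Fin 3 → Z2) (w : Z2 → Fin 3 → ℝ → ℝ → ℂ) (j : Fin 3) (t z : ℝ) : ℝ :=
  (w (K j) 2 t z).re

/-- The pressure amplitudes. -/
noncomputable def Pm (K : Fin 3 → Z2) (p : Z2 → ℝ → ℝ → ℂ) (j : Fin 3) (t z : ℝ) : ℝ :=
  (p (K j) t z).re

theorem cs_ne (e : Fin 2) : (e.castSucc : Fin 3) ≠ 2 := by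
  fin_cases e <;> decide

include h hI h0 hθ hΘ in
theorem tsys : TSys (kap K) T (Am K w) (Bm K w) (Pm K p) where
  c1A j i := (h.c1 _ _).im
  c1B j := (h.c1 _ _).re
  c1P j := (h.c1p _).re
  perA j i t ht z := by unfold Am; rw [h.per _ _ t ht]
  perB j t ht z := by unfold Bm; rw [h.per _ _ t ht]
  perP j t ht z := by unfold Pm; rw [h.perp _ t ht]
  even j i t ht z := by
    have h1 := refl' h hI h0 hθ hΘ ht (K j) i.castSucc z
    unfold sg at h1
    rw [if_neg (cs_ne i)] at h1
    unfold Am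
    rw [← h1]
    simp
  odd j t ht z := by
    have h1 := refl' h hI h0 hθ hΘ ht (K j) 2 z
    unfold sg at h1
    rw [if_pos rfl] at h1
    unfold Bm
    rw [← h1]
    simp
  eqA j i t ht z := by
    have hI' : t ∈ Ico 0 T := ⟨ht.1.le, ht.2⟩
    have hm := h.mom (K j) (hI.mem j) i.castSucc t ht z
    rw [conv_triad h hI h0 hθ hΘ hI' j i.castSucc z] at hm
    rw [w_neg h hI', w_neg h hI', h.real _ _ t hI', h.real _ _ t hI', h.real _ _ t hI',
      h.real _ _ t hI', h.real _ _ t hI', h.real _ _ t hI', h.real _ _ t hI', h.real _ _ t hI',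
      dw_h_eq h hI h0 hI' _ (cs_ne i), dw_h_eq h hI h0 hI' _ (cs_ne i),
      w_h_eq h hI h0 hI' (K (j + 2)) (i := 0) (by decide),
      w_h_eq h hI h0 hI' (K (j + 2)) (i := 1) (by decide),
      w_h_eq h hI h0 hI' (K (j + 1)) (i := 0) (by decide),
      w_h_eq h hI h0 hI' (K (j + 1)) (i := 1) (by decide),
      w_h_eq h hI h0 hI' (K (j + 1)) (cs_ne i),
      w_h_eq h hI h0 hI' (K (j + 2)) (cs_ne i),
      w_v_eq h hI h0 hI' (K (j + 1)), w_v_eq h hI h0 hI' (K (j + 2))] at hm
    have h2 := congrArg Complex.im hm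
    have e1 : (deriv (fun s => w (K j) i.castSucc s z) t).im
        = deriv (fun s => Am K w j i s z) t :=
      (hasDerivAt_im ((h.c1 (K j) i.castSucc).hasDerivAt_t ht z)).deriv.symm
    have e2 : (gr (p (K j) t) (K j) i.castSucc z).im = kap K j i * Pm K p j t z := by
      unfold gr kap Pm
      fin_cases i <;> simp
    simp only [Prod.fst_neg, Prod.snd_neg, map_mul, Complex.conj_I, Complex.conj_ofReal,
      Complex.add_im, Complex.mul_im, Complex.mul_re, Complex.add_re, Complex.neg_re,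
      Complex.neg_im, Complex.I_re, Complex.I_im, Complex.ofReal_re, Complex.ofReal_im,
      Int.cast_neg, Complex.intCast_re, Complex.intCast_im, Complex.zero_im, e1, e2] at h2
    simp only [Fin.sum_univ_two]
    unfold Am Bm kap at *
    simp only [if_true, Fin.isValue, one_ne_zero, if_false, Fin.castSucc_zero, Fin.castSucc_one]
      at h2 ⊢
    linear_combination h2
  eqB j t ht z := by
    have hI' : t ∈ Ico 0 T := ⟨ht.1.le, ht.2⟩
    have hm := h.mom (K j) (hI.mem j) 2 t ht z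
    rw [conv_triad h hI h0 hθ hΘ hI' j 2 z] at hm
    rw [w_neg h hI', w_neg h hI', h.real _ _ t hI', h.real _ _ t hI', h.real _ _ t hI',
      h.real _ _ t hI', h.real _ _ t hI', h.real _ _ t hI',
      dw_v_eq h hI h0 hI', dw_v_eq h hI h0 hI',
      w_h_eq h hI h0 hI' (K (j + 2)) (i := 0) (by decide),
      w_h_eq h hI h0 hI' (K (j + 2)) (i := 1) (by decide),
      w_h_eq h hI h0 hI' (K (j + 1)) (i := 0) (by decide),
      w_h_eq h hI h0 hI' (K (j + 1)) (i := 1) (by decide),
      w_v_eq h hI h0 hI' (K (j + 1)), w_v_eq h hI h0 hI' (K (j + 2))] at hm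
    have h2 := congrArg Complex.re hm
    have e1 : (deriv (fun s => w (K j) 2 s z) t).re
        = deriv (fun s => Bm K w j s z) t :=
      (hasDerivAt_re ((h.c1 (K j) 2).hasDerivAt_t ht z)).deriv.symm
    have e2 : (gr (p (K j) t) (K j) 2 z).re = deriv (Pm K p j t) z :=
      (hasDerivAt_re ((h.c1p (K j)).hasDerivAt_z hI' z)).deriv.symm
    simp only [Prod.fst_neg, Prod.snd_neg, map_mul, Complex.conj_I, Complex.conj_ofReal,
      Complex.add_im, Complex.mul_im, Complex.mul_re, Complex.add_re, Complex.neg_re,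
      Complex.neg_im, Complex.I_re, Complex.I_im, Complex.ofReal_re, Complex.ofReal_im,
      Int.cast_neg, Complex.intCast_re, Complex.intCast_im, Complex.zero_re, e1, e2] at h2
    simp only [Fin.sum_univ_two]
    unfold Am Bm kap at *
    simp only [if_true, Fin.isValue, one_ne_zero, if_false, Fin.castSucc_zero, Fin.castSucc_one]
      at h2 ⊢
    linear_combination h2
  div j t ht z := by
    have h1 := h.div (K j) t ht z
    unfold dv at h1
    simp only at h1
    rw [dw_v_eq h hI h0 ht, w_h_eq h hI h0 ht (K j) (i := 0) (by decide),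
      w_h_eq h hI h0 ht (K j) (i := 1) (by decide)] at h1
    have h2 := congrArg Complex.re h1
    simp only [Complex.add_im, Complex.mul_im, Complex.mul_re, Complex.add_re, Complex.I_re,
      Complex.I_im, Complex.ofReal_re, Complex.ofReal_im, Complex.intCast_re,
      Complex.intCast_im, Complex.zero_re] at h2
    simp only [Fin.sum_univ_two]
    unfold Am Bm kap
    simp only [if_true, Fin.isValue, one_ne_zero, if_false, Fin.castSucc_zero, Fin.castSucc_one]
    linear_combination h2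

end red

end Pool.Agent.N983.GT
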