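import Pool.Agent.N983.GT.TDefs
import Pool.Agent.N983.GT.Ode

/-!
Analysis of the real three-wave system.
-/

open MeasureTheory Set Filter Topology
open scoped ContDiff

namespace Pool.Agent.N983.GT

variable {κ : Fin 3 → Fin 2 → ℝ} {T : ℝ} {A : Fin 3 → Fin 2 → ℝ → ℝ → ℝ} {B P : Fin 3 → ℝ → ℝ → ℝ}

/-- `κⱼ · A` -/
noncomputable def dot (κ : Fin 3 → Fin 2 → ℝ) (A : Fin 3 → Fin 2 → ℝ → ℝ → ℝ) (j m : Fin 3)
    (t z : ℝ) : ℝ := ∑ e, κ j e * A m e t z

section basic

theorem C1.mulc {f : ℝ → ℝ → ℝ} (hf : C1 T f) (c : ℝ) : C1 T (fun t z => c * f t z) :=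
  contDiffOn_const.mul hf

theorem TSys.c1dot (h : TSys κ T A B P) (j m : Fin 3) : C1 T (dot κ A j m) := by
  unfold dot
  exact ContDiffOn.sum fun e _ => (h.c1A m e).mulc _

/-- Exchange of derivatives: `∂_z ∂_t B = κ · ∂_t A`. -/
theorem TSys.exch (h : TSys κ T A B P) {t : ℝ} (ht : t ∈ Ioo 0 T) (j : Fin 3) (z : ℝ) :
    HasDerivAt (fun z => deriv (fun s => B j s z) t) (deriv (fun s => dot κ A j j s z) t) z := by
  have hd := h.c1dot j j
  have h1 : ∀ s ∈ Ioo 0 T, ∀ z, B j s z = B j s 0 + ∫ y in (0 : ℝ)..z, dot κ A j j s y := by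
    intro s hs z
    have hsI : s ∈ Ico 0 T := ⟨hs.1.le, hs.2⟩
    have h2 : ∫ y in (0 : ℝ)..z, dot κ A j j s y = B j s z - B j s 0 := by
      refine intervalIntegral.integral_eq_sub_of_hasDerivAt (fun y _ => ?_)
        ((hd.slice hsI).continuous.intervalIntegrable _ _)
      have := (h.c1B j).hasDerivAt_z hsI y
      rw [h.div j s hsI y] at this
      exact this
    rw [h2]; ring
  have h3 : ∀ z, deriv (fun s => B j s z) t = deriv (fun s => B j s 0) t
      + ∫ y in (0 : ℝ)..z, deriv (fun s => dot κ A j j s y) t := by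
    intro z
    have h4 : HasDerivAt (fun s => B j s 0 + ∫ y in (0 : ℝ)..z, dot κ A j j s y)
        (deriv (fun s => B j s 0) t + ∫ y in (0 : ℝ)..z, deriv (fun s => dot κ A j j s y) t) t :=
      ((h.c1B j).hasDerivAt_t ht 0).add (hasDerivAt_int 0 z hd ht)
    have h5 : (fun s => B j s z) =ᶠ[𝓝 t] fun s => B j s 0 + ∫ y in (0 : ℝ)..z, dot κ A j j s y := by
      filter_upwards [Ioo_mem_nhds ht.1 ht.2] with s hs
      exact h1 s hs z
    rw [h5.deriv_eq, h4.deriv]
  have hc : Continuous (fun y => deriv (fun s => dot κ A j j s y) t) :=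
    hd.cont_deriv_t.comp_continuous (f := fun x : ℝ => ((t, x) : ℝ × ℝ)) (by fun_prop)
      (fun x => ⟨ht, mem_univ _⟩)
  have e : (fun z => deriv (fun s => B j s z) t) = fun z => deriv (fun s => B j s 0) t
      + ∫ y in (0 : ℝ)..z, deriv (fun s => dot κ A j j s y) t := funext h3
  rw [e]
  have := (intervalIntegral.integral_hasDerivAt_right (hc.intervalIntegrable 0 z)
    (hc.stronglyMeasurableAtFilter _ _) hc.continuousAt).const_add (deriv (fun s => B j s 0) t)
  exact this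

theorem TSys.B_zero (h : TSys κ T A B P) {t : ℝ} (ht : t ∈ Ico 0 T) (j : Fin 3) : B j t 0 = 0 := by
  have := h.odd j t ht 0
  rw [neg_zero] at this
  linarith

theorem TSys.B_pi (h : TSys κ T A B P) {t : ℝ} (ht : t ∈ Ico 0 T) (j : Fin 3) :
    B j t Real.pi = 0 := by
  have h1 := h.odd j t ht Real.pi
  have h2 := h.perB j t ht (-Real.pi)
  have h3 : -Real.pi + 2 * Real.pi = Real.pi := by ring
  rw [h3, h1] at h2
  linarith

theorem TSys.dtB_zero (h : TSys κ T A B P) {t : ℝ} (ht : t ∈ Ioo 0 T) (j : Fin 3) :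
    deriv (fun s => B j s 0) t = 0 := by
  have : (fun s => B j s 0) =ᶠ[𝓝 t] fun _ => 0 := by
    filter_upwards [Ioo_mem_nhds ht.1 ht.2] with s hs
    exact h.B_zero ⟨hs.1.le, hs.2⟩ j
  rw [this.deriv_eq]
  simp

theorem TSys.dtB_pi (h : TSys κ T A B P) {t : ℝ} (ht : t ∈ Ioo 0 T) (j : Fin 3) :
    deriv (fun s => B j s Real.pi) t = 0 := by
  have : (fun s => B j s Real.pi) =ᶠ[𝓝 t] fun _ => 0 := by
    filter_upwards [Ioo_mem_nhds ht.1 ht.2] with s hs
    exact h.B_pi ⟨hs.1.le, hs.2⟩ j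
  rw [this.deriv_eq]
  simp

theorem dot_dt (h : TSys κ T A B P) {t : ℝ} (ht : t ∈ Ioo 0 T) (i j : Fin 3) (z : ℝ) :
    deriv (fun s => dot κ A i j s z) t = ∑ e, κ i e * deriv (fun s => A j e s z) t := by
  unfold dot
  exact (HasDerivAt.fun_sum fun e _ => ((h.c1A j e).hasDerivAt_t ht z).const_mul (κ i e)).deriv

theorem dot_dz (h : TSys κ T A B P) {t : ℝ} (ht : t ∈ Ico 0 T) (i j : Fin 3) (z : ℝ) :
    HasDerivAt (dot κ A i j t) (∑ e, κ i e * deriv (A j e t) z) z := by
  unfold dot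
  exact HasDerivAt.fun_sum fun e _ => ((h.c1A j e).hasDerivAt_z ht z).const_mul (κ i e)

end basic

/-- the total density of the energy -/
noncomputable def eW (A : Fin 3 → Fin 2 → ℝ → ℝ → ℝ) (B : Fin 3 → ℝ → ℝ → ℝ) (t z : ℝ) : ℝ :=
  ∑ j, (∑ e, A j e t z ^ 2 + B j t z ^ 2)

/-- The identity for the pressure at the origin. -/
theorem TSys.press (h : TSys κ T A B P) (hκ : ∀ e, κ 0 e + κ 1 e + κ 2 e = 0) {lam : ℝ}
    (j : Fin 3) (hlam : lam ^ 2 = ∑ e, κ j e ^ 2) {t : ℝ} (ht : t ∈ Ioo 0 T) :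
    lam * Real.sinh (lam * Real.pi) * P j t 0
      = ∫ z in (0 : ℝ)..Real.pi, (2 * (lam * Real.sinh (lam * (z - Real.pi)))
          * (B (j + 1) t z * dot κ A (j + 1) (j + 2) t z
            + B (j + 2) t z * dot κ A (j + 2) (j + 1) t z)
        + 2 * Real.cosh (lam * (z - Real.pi)) * (dot κ A j (j + 1) t z * dot κ A j (j + 2) t z)) := by
  have hI : t ∈ Ico 0 T := ⟨ht.1.le, ht.2⟩
  have hsum : ∀ e, κ j e + κ (j + 1) e + κ (j + 2) e = 0 := by
    intro e
    have := hκ e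
    fin_cases j
    · exact this
    · show κ 1 e + κ 2 e + κ 0 e = 0
      linarith
    · show κ 2 e + κ 0 e + κ 1 e = 0
      linarith
  set H : ℝ → ℝ := fun z => Real.cosh (lam * (z - Real.pi)) * deriv (fun s => B j s z) t
    + (lam * Real.sinh (lam * (z - Real.pi))) * P j t z
    - Real.cosh (lam * (z - Real.pi)) * (B (j + 2) t z * dot κ A j (j + 1) t z
      + B (j + 1) t z * dot κ A j (j + 2) t z) with hH
  have hg : ∀ z, HasDerivAt (fun z => Real.cosh (lam * (z - Real.pi)))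
      (Real.sinh (lam * (z - Real.pi)) * (lam * 1)) z := fun z =>
    (((hasDerivAt_id z).sub_const Real.pi).const_mul lam).cosh
  have hg' : ∀ z, HasDerivAt (fun z => lam * Real.sinh (lam * (z - Real.pi)))
      (lam * (Real.cosh (lam * (z - Real.pi)) * (lam * 1))) z := fun z =>
    ((((hasDerivAt_id z).sub_const Real.pi).const_mul lam).sinh).const_mul lam
  have hder : ∀ z, HasDerivAt H (2 * (lam * Real.sinh (lam * (z - Real.pi)))
          * (B (j + 1) t z * dot κ A (j + 1) (j + 2) t z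
            + B (j + 2) t z * dot κ A (j + 2) (j + 1) t z)
        + 2 * Real.cosh (lam * (z - Real.pi)) * (dot κ A j (j + 1) t z * dot κ A j (j + 2) t z)) z := by
    intro z
    have h1 := (((hg z).mul (h.exch ht j z)).add ((hg' z).mul ((h.c1P j).hasDerivAt_z hI z))).sub
      ((hg z).mul ((((h.c1B (j + 2)).hasDerivAt_z hI z).mul (dot_dz h hI j (j + 1) z)).add
        (((h.c1B (j + 1)).hasDerivAt_z hI z).mul (dot_dz h hI j (j + 2) z))))
    refine h1.congr_deriv ?_
    have e0 := h.eqA j 0 t ht z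
    have e1 := h.eqA j 1 t ht z
    have eb := h.eqB j t ht z
    have d1 := h.div (j + 1) t hI z
    have d2 := h.div (j + 2) t hI z
    rw [dot_dt h ht, d1, d2]
    rw [d1, d2] at eb
    unfold dot
    simp only [Fin.sum_univ_two] at e0 e1 eb hlam ⊢
    have s0 : κ j 0 = -κ (j + 1) 0 - κ (j + 2) 0 := by linarith [hsum 0]
    have s1 : κ j 1 = -κ (j + 1) 1 - κ (j + 2) 1 := by linarith [hsum 1]
    have hb : deriv (fun s => B j s z) t = - (- ((A (j + 2) 0 t z * κ (j + 1) 0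
        + A (j + 2) 1 t z * κ (j + 1) 1) * B (j + 1) t z)
        - (A (j + 1) 0 t z * κ (j + 2) 0 + A (j + 1) 1 t z * κ (j + 2) 1) * B (j + 2) t z
        + B (j + 2) t z * (κ (j + 1) 0 * A (j + 1) 0 t z + κ (j + 1) 1 * A (j + 1) 1 t z)
        + B (j + 1) t z * (κ (j + 2) 0 * A (j + 2) 0 t z + κ (j + 2) 1 * A (j + 2) 1 t z)
        + deriv (P j t) z) := by linarith
    have ha0 : deriv (fun s => A j 0 s z) t = -((A (j + 2) 0 t z * κ (j + 1) 0
        + A (j + 2) 1 t z * κ (j + 1) 1) * A (j + 1) 0 t z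
        + (A (j + 1) 0 t z * κ (j + 2) 0 + A (j + 1) 1 t z * κ (j + 2) 1) * A (j + 2) 0 t z
        - B (j + 2) t z * deriv (A (j + 1) 0 t) z - B (j + 1) t z * deriv (A (j + 2) 0 t) z
        + κ j 0 * P j t z) := by linarith
    have ha1 : deriv (fun s => A j 1 s z) t = -((A (j + 2) 0 t z * κ (j + 1) 0
        + A (j + 2) 1 t z * κ (j + 1) 1) * A (j + 1) 1 t z
        + (A (j + 1) 0 t z * κ (j + 2) 0 + A (j + 1) 1 t z * κ (j + 2) 1) * A (j + 2) 1 t z
        - B (j + 2) t z * deriv (A (j + 1) 1 t) z - B (j + 1) t z * deriv (A (j + 2) 1 t) z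
        + κ j 1 * P j t z) := by linarith
    rw [hb, ha0, ha1]
    simp only [Pi.mul_apply, Pi.add_apply, Fin.sum_univ_two]
    have hl : lam * (Real.cosh (lam * (z - Real.pi)) * (lam * 1))
        = Real.cosh (lam * (z - Real.pi)) * (κ j 0 ^ 2 + κ j 1 ^ 2) := by
      rw [← hlam]; ring
    rw [hl, s0, s1]
    ring
  have hcont : Continuous (fun z => (2 * (lam * Real.sinh (lam * (z - Real.pi)))
          * (B (j + 1) t z * dot κ A (j + 1) (j + 2) t z
            + B (j + 2) t z * dot κ A (j + 2) (j + 1) t z)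
        + 2 * Real.cosh (lam * (z - Real.pi)) * (dot κ A j (j + 1) t z * dot κ A j (j + 2) t z))) := by
    have c1 : ∀ m, Continuous (B m t) := fun m => ((h.c1B m).slice hI).continuous
    have c2 : ∀ i m, Continuous (dot κ A i m t) := fun i m => ((h.c1dot i m).slice hI).continuous
    have c3 := c1 (j + 1)
    have c4 := c1 (j + 2)
    have c5 := c2 (j + 1) (j + 2)
    have c6 := c2 (j + 2) (j + 1)
    have c7 := c2 j (j + 1)
    have c8 := c2 j (j + 2)
    have c9 : Continuous (fun z : ℝ => Real.sinh (lam * (z - Real.pi))) :=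
      Real.continuous_sinh.comp (by fun_prop)
    have c10 : Continuous (fun z : ℝ => Real.cosh (lam * (z - Real.pi))) :=
      Real.continuous_cosh.comp (by fun_prop)
    fun_prop
  rw [intervalIntegral.integral_eq_sub_of_hasDerivAt (fun z _ => hder z)
    (hcont.intervalIntegrable _ _)]
  simp only [hH]
  rw [h.dtB_zero ht, h.dtB_pi ht, h.B_zero hI, h.B_zero hI, h.B_pi hI, h.B_pi hI]
  have e1 : lam * (0 - Real.pi) = -(lam * Real.pi) := by ring
  simp only [sub_self, mul_zero, Real.sinh_zero, e1, Real.sinh_neg]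
  ring

end Pool.Agent.N983.GT
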