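import Pool.Agent.N983.GT.MSym

/-!
The real three-wave system.
-/

open MeasureTheory Set Filter Topology
open scoped ContDiff ComplexConjugate

namespace Pool.Agent.N983.GT

/-- The real three-wave system for the wave vectors `κ 0 + κ 1 + κ 2 = 0`. -/
structure TSys (κ : Fin 3 → Fin 2 → ℝ) (T : ℝ) (A : Fin 3 → Fin 2 → ℝ → ℝ → ℝ)
    (B P : Fin 3 → ℝ → ℝ → ℝ) : Prop where
  c1A : ∀ j i, C1 T (A j i)
  c1B : ∀ j, C1 T (B j)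
  c1P : ∀ j, C1 T (P j)
  perA : ∀ j i, ∀ t ∈ Ico 0 T, ∀ z, A j i t (z + 2 * Real.pi) = A j i t z
  perB : ∀ j, ∀ t ∈ Ico 0 T, ∀ z, B j t (z + 2 * Real.pi) = B j t z
  perP : ∀ j, ∀ t ∈ Ico 0 T, ∀ z, P j t (z + 2 * Real.pi) = P j t z
  even : ∀ j i, ∀ t ∈ Ico 0 T, ∀ z, A j i t (-z) = A j i t z
  odd : ∀ j, ∀ t ∈ Ico 0 T, ∀ z, B j t (-z) = - B j t z
  eqA : ∀ j i, ∀ t ∈ Ioo 0 T, ∀ z, deriv (fun s => A j i s z) t
    + (∑ e, A (j + 2) e t z * κ (j + 1) e) * A (j + 1) i t z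
    + (∑ e, A (j + 1) e t z * κ (j + 2) e) * A (j + 2) i t z
    - B (j + 2) t z * deriv (A (j + 1) i t) z - B (j + 1) t z * deriv (A (j + 2) i t) z
    + κ j i * P j t z = 0
  eqB : ∀ j, ∀ t ∈ Ioo 0 T, ∀ z, deriv (fun s => B j s z) t
    - (∑ e, A (j + 2) e t z * κ (j + 1) e) * B (j + 1) t z
    - (∑ e, A (j + 1) e t z * κ (j + 2) e) * B (j + 2) t z
    + B (j + 2) t z * deriv (B (j + 1) t) z + B (j + 1) t z * deriv (B (j + 2) t) z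
    + deriv (P j t) z = 0
  div : ∀ j, ∀ t ∈ Ico 0 T, ∀ z, deriv (B j t) z = ∑ e, κ j e * A j e t z

end Pool.Agent.N983.GT
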